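import Mathlib

/-!
[H74 BT BOX]  The box theorem of Erdos: dense `k`-partite `k`-uniform hypergraphs contain complete
`k`-partite subgraphs with parts of size `s`.

Proof.  Induction on `k`.  `k = 0`: `Fintype.piFinset V` is the one-element set and `E` is not empty if `0 < E.card`
(take `C = 0`, `δ = 1`: the hypothesis says `0 * _ < E.card`); the condition on the `V i` is empty.
Step `k → k + 1`.  Let `δ, C` be the constants for `k` (we may enlarge `C`: assume `C ≥ 1`).  Put `δ' = δ/(s+1)` (so `0 < δ' ≤ 1` if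
`δ ≤ 1`; keep `δ ≤ 1` in the induction by taking the minimum with `1`: a smaller `δ` is weaker), and
`C' = 16 s + 8 C + 8` or larger, such that `(C'/2)(C'/4)^s ≥ C` (true since `C'/4 ≥ 1`, `C'/2 ≥ C`).  Suppose
`E ⊆ piFinset A`, `C' n^(k+1-δ') < |E|`; put `d = |E| / n^k > C' n^(1-δ') ≥ 16 s` (`n ≥ 1`, `δ' ≤ 1`).  For
`y ∈ piFinset (fun i : Fin k => A i.succ)` (at most `n^k` elements) let `E_y = {x ∈ A 0 | Fin.cons x y ∈ E}`, `∑_y |E_y| = |E|`.  Let
`G` be the set of `y` with `|E_y| ≥ d/2`.  The others contribute at most `n^k d/2 = |E|/2`, so `∑_{y ∈ G} |E_y| ≥ |E|/2` and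
`|G| ≥ |E|/(2n)`.  For `y ∈ G`: the number of `s`-subsets of `E_y` is `C(|E_y|, s) ≥ (|E_y| + 1 - s)^s / s! ≥ (d/4)^s / s!`
(`Nat.pow_sub_le_descFactorial`, `Nat.descFactorial_eq_factorial_mul_choose`), and `A 0` has at most
`C(n,s) ≤ n^s / s!` subsets of size `s` (`Nat.choose_le_pow_div`).  Double counting: some `s`-subset `T` of `A 0` is contained in `E_y` for at
least `|G| (d/4)^s / n^s ≥ (|E|/(2n)) (d/(4n))^s = (n^(k-1) d/2) (d/(4n))^s ≥ (C'/2) (C'/4)^s n^(k - (s+1) δ') ≥ C n^(k-δ)` of the
`y` (in the first factor `n^(k-1) d = |E|/n`; strict inequality from `d > C' n^(1-δ')`).  Apply the induction hypothesis to the set of these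
`y`; `V = Fin.cons T V'`.
-/

namespace Pool.Agent.H74.BT

open Finset

theorem box (s : ℕ) (hs : 1 ≤ s) (k : ℕ) : ∃ δ C : ℝ, 0 < δ ∧ δ ≤ 1 ∧ 0 ≤ C ∧
    ∀ (n : ℕ) (A : Fin k → Finset ℤ), 1 ≤ n → (∀ j, (A j).card ≤ n) →
      ∀ E : Finset (Fin k → ℤ), E ⊆ Fintype.piFinset A → C * (n : ℝ) ^ ((k : ℝ) - δ) < (E.card : ℝ) →
        ∃ V : Fin k → Finset ℤ, (∀ j, (V j).card = s) ∧ Fintype.piFinset V ⊆ E := by
  classical
  induction k with
  | zero =>
    refine ⟨1, 0, one_pos, le_rfl, le_rfl, fun n A _ _ E _ hE => ?_⟩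
    rw [zero_mul] at hE
    have h1 : 0 < E.card := by exact_mod_cast hE
    obtain ⟨e, he⟩ := card_pos.1 h1
    refine ⟨fun j => j.elim0, fun j => j.elim0, fun f _ => ?_⟩
    have : f = e := Subsingleton.elim _ _
    rw [this]
    exact he
  | succ k ih =>
    obtain ⟨δ, C, hδ0, hδ1, hC0, H⟩ := ih
    have hs0 : (0 : ℝ) < (s : ℝ) + 1 := by positivity
    have hs1 : (1 : ℝ) ≤ s := by exact_mod_cast hs
    set δ' : ℝ := δ / ((s : ℝ) + 1) with hδ'
    have hδ'0 : 0 < δ' := by positivity
    have hδ'1 : δ' ≤ 1 := by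
      rw [hδ', div_le_one hs0]
      linarith
    set C' : ℝ := 16 * s + 8 * C + 8 with hC'
    have hC'0 : 0 < C' := by positivity
    refine ⟨δ', C', hδ'0, hδ'1, hC'0.le, fun n A hn hA E hEA hE => ?_⟩
    have hn1 : (1 : ℝ) ≤ n := by exact_mod_cast hn
    have hn0 : (0 : ℝ) < n := by linarith
    have hnk : (0 : ℝ) < (n : ℝ) ^ k := by positivity
    -- the real number `D`
    set D : ℝ := (n : ℝ) ^ (1 - δ') with hD
    have hD1 : 1 ≤ D := Real.one_le_rpow hn1 (by linarith)
    have hD0 : 0 < D := by linarith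
    have hDk : (n : ℝ) ^ (((k + 1 : ℕ) : ℝ) - δ') = (n : ℝ) ^ k * D := by
      rw [hD, ← Real.rpow_natCast, ← Real.rpow_add hn0]
      congr 1
      push_cast
      ring
    have hDs : (n : ℝ) ^ k * D ^ (s + 1) = (n : ℝ) ^ ((k : ℝ) - δ) * (n : ℝ) ^ (s + 1) := by
      have h1 : D ^ (s + 1) = (n : ℝ) ^ ((s : ℝ) + 1 - δ) := by
        rw [hD, ← Real.rpow_natCast, ← Real.rpow_mul hn0.le]
        congr 1
        rw [hδ']
        push_cast
        field_simp
      rw [h1, ← Real.rpow_natCast, ← Real.rpow_natCast, ← Real.rpow_add hn0,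
        ← Real.rpow_add hn0]
      congr 1
      push_cast
      ring
    rw [hDk] at hE
    -- density
    set d : ℝ := (E.card : ℝ) / (n : ℝ) ^ k with hd
    have hdE : (n : ℝ) ^ k * d = E.card := by
      rw [hd]
      field_simp
    have hdD : C' * D < d := by
      rw [hd, lt_div_iff₀ hnk]
      linarith
    have hd0 : 0 < d := lt_trans (by positivity) hdD
    have hd16 : 16 * (s : ℝ) ≤ d := by
      have h1 : 16 * (s : ℝ) ≤ C' := by
        rw [hC']
        linarith
      have h2 : C' * 1 ≤ C' * D := mul_le_mul_of_nonneg_left hD1 hC'0.le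
      linarith
    -- fibres
    set P : Finset (Fin k → ℤ) := Fintype.piFinset (fun i : Fin k => A i.succ) with hP
    set F : (Fin k → ℤ) → Finset ℤ := fun y =>
      (A 0).filter (fun x => (Fin.cons x y : Fin (k + 1) → ℤ) ∈ E) with hF
    have hFA : ∀ y, F y ⊆ A 0 := fun y => filter_subset _ _
    have hPc : (P.card : ℝ) ≤ (n : ℝ) ^ k := by
      have h1 : P.card ≤ n ^ k := by
        rw [hP, Fintype.card_piFinset]
        refine (prod_le_pow_card _ _ n fun i _ => hA i.succ).trans ?_
        rw [card_univ, Fintype.card_fin]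
      exact_mod_cast h1
    have hEF : E.card ≤ ∑ y ∈ P, (F y).card := by
      have hmaps : ∀ e ∈ E, Fin.tail e ∈ P := by
        intro e he
        rw [hP, Fintype.mem_piFinset]
        intro i
        exact (Fintype.mem_piFinset.1 (hEA he)) i.succ
      rw [card_eq_sum_card_fiberwise hmaps]
      refine sum_le_sum fun y _ => ?_
      refine card_le_card_of_injOn (fun e => e 0) ?_ ?_
      · intro e he
        rw [mem_coe, mem_filter] at he
        rw [mem_coe, hF]
        simp only
        rw [mem_filter]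
        refine ⟨(Fintype.mem_piFinset.1 (hEA he.1)) 0, ?_⟩
        rw [← he.2, Fin.cons_self_tail]
        exact he.1
      · intro e he e' he' hee
        rw [mem_coe, mem_filter] at he he'
        simp only at hee
        rw [← Fin.cons_self_tail e, ← Fin.cons_self_tail e', hee, he.2, he'.2]
    -- large fibres
    set G : Finset (Fin k → ℤ) := P.filter (fun y => d / 2 ≤ ((F y).card : ℝ)) with hG
    have hGc : (n : ℝ) ^ k * d / 2 ≤ n * (G.card : ℝ) := by
      have h1 : (E.card : ℝ) ≤ ∑ y ∈ P, ((F y).card : ℝ) := by exact_mod_cast hEF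
      rw [← sum_filter_add_sum_filter_not P (fun y => d / 2 ≤ ((F y).card : ℝ))] at h1
      have h2 : ∑ y ∈ P.filter (fun y => d / 2 ≤ ((F y).card : ℝ)), ((F y).card : ℝ) ≤
          (G.card : ℝ) * n := by
        rw [← nsmul_eq_mul, ← sum_const]
        refine sum_le_sum fun y _ => ?_
        have := (card_le_card (hFA y)).trans (hA 0)
        exact_mod_cast this
      have h3 : ∑ y ∈ P.filter (fun y => ¬ d / 2 ≤ ((F y).card : ℝ)), ((F y).card : ℝ) ≤
          (n : ℝ) ^ k * (d / 2) := by
        calc ∑ y ∈ P.filter (fun y => ¬ d / 2 ≤ ((F y).card : ℝ)), ((F y).card : ℝ)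
            ≤ ∑ y ∈ P.filter (fun y => ¬ d / 2 ≤ ((F y).card : ℝ)), (d / 2) := by
              refine sum_le_sum fun y hy => ?_
              rw [mem_filter, not_le] at hy
              exact hy.2.le
          _ = ((P.filter (fun y => ¬ d / 2 ≤ ((F y).card : ℝ))).card : ℝ) * (d / 2) := by
              rw [sum_const, nsmul_eq_mul]
          _ ≤ (n : ℝ) ^ k * (d / 2) := by
              refine mul_le_mul_of_nonneg_right ?_ (by positivity)
              refine le_trans ?_ hPc
              exact_mod_cast card_filter_le _ _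
      rw [← hdE] at h1
      linarith
    -- number of subsets
    have hfac : (0 : ℝ) < (s.factorial : ℝ) := by exact_mod_cast Nat.factorial_pos s
    have hsub : ∀ y ∈ G, (d / 4) ^ s / (s.factorial : ℝ) ≤ ((powersetCard s (F y)).card : ℝ) := by
      intro y hy
      rw [hG, mem_filter] at hy
      rw [card_powersetCard]
      refine le_trans ?_ (Nat.pow_le_choose s (F y).card)
      refine div_le_div_of_nonneg_right (pow_le_pow_left₀ (by positivity) ?_ s) hfac.le
      have h1 : (F y).card + 1 ≤ ((F y).card + 1 - s) + s := by omega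
      have h2 : ((F y).card : ℝ) + 1 ≤ (((F y).card + 1 - s : ℕ) : ℝ) + s := by exact_mod_cast h1
      linarith [hy.2]
    have hA0 : ((powersetCard s (A 0)).card : ℝ) ≤ (n : ℝ) ^ s / (s.factorial : ℝ) := by
      rw [card_powersetCard]
      have h1 : ((A 0).card.choose s : ℝ) ≤ ((n.choose s : ℕ) : ℝ) := by
        exact_mod_cast Nat.choose_le_choose s (hA 0)
      exact h1.trans (Nat.choose_le_pow_div s n)
    -- double counting
    have hdc : ∑ y ∈ G, ((powersetCard s (F y)).card : ℝ) =
        ∑ T ∈ powersetCard s (A 0), ((G.filter (fun y => T ⊆ F y)).card : ℝ) := by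
      have h1 : ∀ y ∈ G, ((powersetCard s (F y)).card : ℝ) =
          ∑ T ∈ powersetCard s (A 0), (if T ⊆ F y then (1 : ℝ) else 0) := by
        intro y _
        rw [← sum_filter]
        have h2 : powersetCard s (F y) = (powersetCard s (A 0)).filter (fun T => T ⊆ F y) := by
          ext T
          rw [mem_filter, mem_powersetCard, mem_powersetCard]
          constructor
          · rintro ⟨h3, h4⟩
            exact ⟨⟨h3.trans (hFA y), h4⟩, h3⟩
          · rintro ⟨⟨_, h4⟩, h3⟩
            exact ⟨h3, h4⟩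
        rw [h2]
        simp
      rw [sum_congr rfl h1, sum_comm]
      refine sum_congr rfl fun T _ => ?_
      rw [← sum_filter]
      simp
    -- a good set `T`
    obtain ⟨T, hT, hTc⟩ : ∃ T ∈ powersetCard s (A 0), C * (n : ℝ) ^ ((k : ℝ) - δ) <
        ((G.filter (fun y => T ⊆ F y)).card : ℝ) := by
      by_contra hcon
      push Not at hcon
      have hM0 : 0 ≤ C * (n : ℝ) ^ ((k : ℝ) - δ) := by positivity
      have h1 : ∑ T ∈ powersetCard s (A 0), ((G.filter (fun y => T ⊆ F y)).card : ℝ) ≤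
          (n : ℝ) ^ s / (s.factorial : ℝ) * (C * (n : ℝ) ^ ((k : ℝ) - δ)) := by
        refine (sum_le_sum hcon).trans ?_
        rw [sum_const, nsmul_eq_mul]
        exact mul_le_mul_of_nonneg_right hA0 hM0
      have h2 : (G.card : ℝ) * ((d / 4) ^ s / (s.factorial : ℝ)) ≤
          ∑ y ∈ G, ((powersetCard s (F y)).card : ℝ) := by
        rw [← nsmul_eq_mul, ← sum_const]
        exact sum_le_sum hsub
      rw [hdc] at h2
      have h3 := h2.trans h1
      have h4 : (G.card : ℝ) * (d / 4) ^ s ≤ (n : ℝ) ^ s * (C * (n : ℝ) ^ ((k : ℝ) - δ)) := by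
        have h5 := mul_le_mul_of_nonneg_right h3 hfac.le
        have e1 : (G.card : ℝ) * ((d / 4) ^ s / (s.factorial : ℝ)) * (s.factorial : ℝ) =
            (G.card : ℝ) * (d / 4) ^ s := by
          field_simp
        have e2 : (n : ℝ) ^ s / (s.factorial : ℝ) * (C * (n : ℝ) ^ ((k : ℝ) - δ)) *
            (s.factorial : ℝ) = (n : ℝ) ^ s * (C * (n : ℝ) ^ ((k : ℝ) - δ)) := by
          field_simp
        rw [e1, e2] at h5
        exact h5
      -- multiply by `n`
      have h5 : (n : ℝ) ^ k * d / 2 * (d / 4) ^ s ≤ C * ((n : ℝ) ^ k * D ^ (s + 1)) := by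
        have hd4 : (0 : ℝ) ≤ (d / 4) ^ s := by positivity
        calc (n : ℝ) ^ k * d / 2 * (d / 4) ^ s ≤ (n * (G.card : ℝ)) * (d / 4) ^ s :=
              mul_le_mul_of_nonneg_right hGc hd4
          _ = n * ((G.card : ℝ) * (d / 4) ^ s) := by ring
          _ ≤ n * ((n : ℝ) ^ s * (C * (n : ℝ) ^ ((k : ℝ) - δ))) :=
              mul_le_mul_of_nonneg_left h4 hn0.le
          _ = C * ((n : ℝ) ^ ((k : ℝ) - δ) * (n : ℝ) ^ (s + 1)) := by ring
          _ = C * ((n : ℝ) ^ k * D ^ (s + 1)) := by rw [hDs]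
      have h6 : (n : ℝ) ^ k * (d / 2 * (d / 4) ^ s) ≤ (n : ℝ) ^ k * (C * D ^ (s + 1)) := by
        calc (n : ℝ) ^ k * (d / 2 * (d / 4) ^ s) = (n : ℝ) ^ k * d / 2 * (d / 4) ^ s := by ring
          _ ≤ C * ((n : ℝ) ^ k * D ^ (s + 1)) := h5
          _ = (n : ℝ) ^ k * (C * D ^ (s + 1)) := by ring
      have h7 : d / 2 * (d / 4) ^ s ≤ C * D ^ (s + 1) := le_of_mul_le_mul_left h6 hnk
      have h8 : C * D < d / 2 := by
        have : 2 * (C * D) ≤ C' * D := by
          rw [hC']
          nlinarith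
        linarith
      have h9 : D ≤ d / 4 := by
        have : 4 * D ≤ C' * D := by
          rw [hC']
          nlinarith
        linarith
      have h10 : D ^ s ≤ (d / 4) ^ s := pow_le_pow_left₀ hD0.le h9 s
      have h11 : (0 : ℝ) < D ^ s := by positivity
      have h12 : C * D * D ^ s < d / 2 * (d / 4) ^ s := by
        calc C * D * D ^ s < d / 2 * D ^ s := mul_lt_mul_of_pos_right h8 h11
          _ ≤ d / 2 * (d / 4) ^ s := mul_le_mul_of_nonneg_left h10 (by positivity)
      have h13 : C * D ^ (s + 1) = C * D * D ^ s := by ring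
      linarith
    -- induction hypothesis
    obtain ⟨V', hV's, hV'⟩ := H n (fun i => A i.succ) hn (fun j => hA j.succ)
      (G.filter (fun y => T ⊆ F y)) ((filter_subset _ _).trans (filter_subset _ _)) hTc
    rw [mem_powersetCard] at hT
    refine ⟨(Fin.cons T V' : Fin (k + 1) → Finset ℤ), ?_, ?_⟩
    · intro j
      refine Fin.cases ?_ (fun i => ?_) j
      · rw [Fin.cons_zero]
        exact hT.2
      · rw [Fin.cons_succ]
        exact hV's i
    · intro f hf
      rw [Fintype.mem_piFinset] at hf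
      have h0 : f 0 ∈ T := by
        have := hf 0
        rwa [Fin.cons_zero] at this
      have h1 : Fin.tail f ∈ Fintype.piFinset V' := by
        rw [Fintype.mem_piFinset]
        intro i
        have := hf i.succ
        rwa [Fin.cons_succ] at this
      have h2 := hV' h1
      rw [mem_filter] at h2
      have h3 := h2.2 h0
      rw [hF] at h3
      simp only at h3
      rw [mem_filter, Fin.cons_self_tail] at h3
      exact h3.2

end Pool.Agent.H74.BT
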