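import Pool.Agent.H74.BT.Defs
import Pool.Agent.H21.MT.Sieve

/-!
[H74 BT BLOCK2]  The block property of the primes, with exact patterns.

Proof.  As in [H74 BT BLOCK] (`Pool/Agent/H74/BT/Block.lean`, same header; the two modules may share lemmas in a file
`Pool/Agent/H74/BT/BlockAux.lean`).  `c₀ = 10^(-20) / (400 (r + 1))`.  Given `k ≥ 1`, `l₀` is large: `l₀ ≥ 10 k` and
`32 k θ < 10^(-20)/400` for `l ≥ l₀`, where `θ = (l+2)^2 / (10 k (l+1) 2^l)` (`→ 0`).  Let `V` be given, `I = Σ j, V j`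
(or `ι × Fin (2^l)`), `x i ∈ ℤ` the elements, `x₀` the minimum, `h i = (x i - x₀).toNat`, injective.  Admissible: given `p` prime, from
`a : ℤ` with `p ∤ a + x i` for all `i` take `a' = ((a + x₀) mod p).toNat`.  Sieve with `tau = 1/(10 k 2^l (l+1))`, `l i = l`:
`μ(N + h i prime) ≥ 10^(-10) θ`, `≤ 32 θ` (singleton), pairs `≤ 128 θ^2`; `s θ ≥ 1` for `s = 2^l`.  As in BLOCK
`μ(Y_j ≥ 1) ≥ 10^(-20)/160` for every block `j`, so for `Z N = #{j : Y_j N ≥ 1}` (`≤ k`):
`∑ μ Z ≥ k 10^(-20)/160`, hence `μ(Z ≥ k 10^(-20)/320) ≥ 10^(-20)/320`.  On the other hand `μ(some block is full) ≤ ∑_j μ(N + h i prime for one i in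
block j) ≤ 32 k θ < 10^(-20)/320`.  So there is `N ∈ T`, `N > N0`, with `Z N ≥ k 10^(-20)/320` and no full block.  By pigeonhole one colour
`i₁` has primes in at least `k 10^(-20)/(320 r)` blocks.  Exact pattern `F` = set of the `x i` with `N + h i` prime of colour `i₁`.  Let `N0 → ∞`: finitely many
pairs `(i₁, F)`, one occurs infinitely often.  Then `N' = N - x₀`.
-/

namespace Pool.Agent.H74.BT

open Finset Pool.Agent.H92.BH

/-- second moment method in every block -/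
private theorem blk_sieve2 {ι : Type} [Fintype ι] [DecidableEq ι] (k : ℕ) (hk : 1 ≤ k)
    (hι : Fintype.card ι = k) (l : ℕ) (hl : 10 * k ≤ l)
    (hl2 : 32 * (((l : ℝ) + 2) ^ 2 / (10 * 2 ^ l * ((l : ℝ) + 1))) ≤ 1 / (320 * 10 ^ 20))
    (h : ι × Fin (2 ^ l) → ℕ)
    (hinj : Function.Injective h)
    (hadm : ∀ p : ℕ, p.Prime → ∃ a : ℕ, ∀ i, ¬ p ∣ a + h i) (N0 : ℕ) :
    ∃ N, N0 < N ∧ (∀ j, ∃ a, ¬ (N + h (j, a)).Prime) ∧ (k : ℝ) * (1 / (320 * 10 ^ 20)) ≤
      ((univ.filter (fun j : ι => ∃ a, (N + h (j, a)).Prime)).card : ℝ) := by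
  classical
  have hk0 : (1 : ℝ) ≤ k := by exact_mod_cast hk
  have hs0 : (0 : ℝ) < (2 : ℝ) ^ l := by positivity
  have hl0 : (0 : ℝ) < (l : ℝ) + 1 := by positivity
  have hlk : (10 : ℝ) * k ≤ l := by exact_mod_cast hl
  set τ : ℝ := 1 / (10 * k * 2 ^ l * ((l : ℝ) + 1)) with hτ
  have hτ0 : 0 < τ := by positivity
  have e1 : (k : ℝ) * 2 ^ l * (((l : ℝ) + 1) * τ) = 1 / 10 := by
    rw [hτ]
    field_simp
  have hne : Nonempty (ι × Fin (2 ^ l)) := by
    have h1 : 0 < Fintype.card ι := by omega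
    obtain ⟨j⟩ := Fintype.card_pos_iff.1 h1
    exact ⟨(j, ⟨0, by positivity⟩)⟩
  have h2 : (2 : ℝ) ^ l * τ ≤ 1 / 2 := by
    have h3 : (2 : ℝ) ^ l * τ * 1 ≤ (2 : ℝ) ^ l * τ * (k * ((l : ℝ) + 1)) := by
      refine mul_le_mul_of_nonneg_left ?_ (by positivity)
      have : (0 : ℝ) ≤ l := Nat.cast_nonneg l
      nlinarith
    have h4 : (2 : ℝ) ^ l * τ * (k * ((l : ℝ) + 1)) = 1 / 10 := by rw [← e1]; ring
    linarith
  obtain ⟨T, μ, hT, hμ, hsum, hm, hS⟩ := Pool.Agent.H21.MT.sieve h hinj hadm (fun _ => τ)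
    (fun _ => l) (fun _ => hτ0) (fun _ => h2) (by
      rw [Finset.sum_const, Finset.card_univ, Fintype.card_prod, Fintype.card_fin, hι,
        nsmul_eq_mul]
      push_cast
      rw [e1]) N0
  set θ : ℝ := τ * ((l : ℝ) + 2) ^ 2 with hθ
  have hθ0 : 0 < θ := by positivity
  set L : ℝ := 2 ^ l * θ with hL
  have hL1 : 1 ≤ L := by
    have h3 : L * (10 * k * ((l : ℝ) + 1)) = ((l : ℝ) + 2) ^ 2 := by
      rw [hL, hθ, hτ]
      field_simp
    have h4 : (0 : ℝ) < 10 * k * ((l : ℝ) + 1) := by positivity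
    have h5 : 10 * k * ((l : ℝ) + 1) ≤ ((l : ℝ) + 2) ^ 2 := by
      have : (0 : ℝ) ≤ l := Nat.cast_nonneg l
      nlinarith
    by_contra hcon
    push Not at hcon
    have h6 := mul_lt_mul_of_pos_right hcon h4
    linarith
  have hL0 : 0 < L := by linarith
  -- indicators
  set f : ι → Fin (2 ^ l) → ℕ → ℝ := fun j a N => if (N + h (j, a)).Prime then 1 else 0 with hf
  set Y : ι → ℕ → ℝ := fun j N => ∑ a, f j a N with hY
  set g : ι → ℕ → ℝ := fun j N => if ∃ a, (N + h (j, a)).Prime then 1 else 0 with hg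
  -- first moment
  have m1 : ∀ j, (1 / 10 ^ 10) * L ≤ ∑ N ∈ T, μ N * Y j N := by
    intro j
    have h3 : ∑ N ∈ T, μ N * Y j N = ∑ a, ∑ N ∈ T.filter (fun N => (N + h (j, a)).Prime), μ N := by
      have h4 : ∀ N ∈ T, μ N * Y j N = ∑ a, (if (N + h (j, a)).Prime then μ N else 0) := by
        intro N _
        simp only [hY, hf]
        rw [mul_sum]
        refine sum_congr rfl fun a _ => ?_
        split_ifs
        · rw [mul_one]
        · rw [mul_zero]
      rw [sum_congr rfl h4, sum_comm]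
      refine sum_congr rfl fun a _ => ?_
      rw [sum_filter]
    rw [h3]
    have h5 : ∑ a : Fin (2 ^ l), (1 / 10 ^ 10) * θ ≤
        ∑ a, ∑ N ∈ T.filter (fun N => (N + h (j, a)).Prime), μ N :=
      sum_le_sum fun a _ => hm (j, a)
    rw [sum_const, card_univ, Fintype.card_fin, nsmul_eq_mul] at h5
    push_cast at h5
    refine le_trans (le_of_eq ?_) h5
    rw [hL]
    ring
  -- second moment
  have m2 : ∀ j, ∑ N ∈ T, μ N * (Y j N) ^ 2 ≤ 160 * L ^ 2 := by
    intro j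
    have h3 : ∑ N ∈ T, μ N * (Y j N) ^ 2 = ∑ a, ∑ a', ∑ N ∈ T, μ N * (f j a N * f j a' N) := by
      have h4 : ∀ N ∈ T, μ N * (Y j N) ^ 2 = ∑ a, ∑ a', μ N * (f j a N * f j a' N) := by
        intro N _
        simp only [hY]
        rw [sq, sum_mul_sum, mul_sum]
        refine sum_congr rfl fun a _ => ?_
        rw [mul_sum]
      rw [sum_congr rfl h4, sum_comm]
      refine sum_congr rfl fun a _ => ?_
      rw [sum_comm]
    rw [h3]
    have h5 : ∀ a a' : Fin (2 ^ l), ∑ N ∈ T, μ N * (f j a N * f j a' N) ≤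
        128 * θ ^ 2 + (if a = a' then 32 * θ else 0) := by
      intro a a'
      have h6 : ∑ N ∈ T, μ N * (f j a N * f j a' N) =
          ∑ N ∈ T.filter (fun N => ∀ i ∈ ({(j, a), (j, a')} : Finset (ι × Fin (2 ^ l))),
            (N + h i).Prime), μ N := by
        rw [sum_filter]
        refine sum_congr rfl fun N _ => ?_
        simp only [hf, mem_insert, mem_singleton, forall_eq_or_imp, forall_eq]
        by_cases c1 : (N + h (j, a)).Prime <;> by_cases c2 : (N + h (j, a')).Prime <;>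
          simp [c1, c2]
      rw [h6]
      refine (hS _ ⟨(j, a), by simp⟩).trans ?_
      by_cases haa : a = a'
      · subst haa
        rw [if_pos rfl]
        simp only [pair_eq_singleton, card_singleton, prod_singleton, Nat.cast_one, one_mul]
        have : 0 ≤ θ ^ 2 := sq_nonneg θ
        linarith
      · rw [if_neg haa]
        have hne' : (j, a) ≠ (j, a') := fun he => haa (Prod.ext_iff.1 he).2
        rw [prod_pair hne', card_pair hne']
        push_cast
        have h7 : (32 : ℝ) * (2 * (τ * ((l : ℝ) + 2) ^ 2) * (2 * (τ * ((l : ℝ) + 2) ^ 2))) =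
            128 * θ ^ 2 := by
          rw [hθ]
          ring
        rw [h7, add_zero]
    have h6 : ∑ a : Fin (2 ^ l), ∑ a' : Fin (2 ^ l),
        (128 * θ ^ 2 + (if a = a' then 32 * θ else 0)) = 128 * L ^ 2 + 32 * L := by
      simp only [sum_add_distrib, sum_const, card_univ, Fintype.card_fin, nsmul_eq_mul,
        sum_ite_eq, mem_univ, if_true]
      push_cast
      rw [hL]
      ring
    refine (sum_le_sum fun a _ => sum_le_sum fun a' _ => h5 a a').trans ?_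
    rw [h6]
    nlinarith
  -- probability that a block contains a prime
  have m3 : ∀ j, 1 / (160 * 10 ^ 20) ≤ ∑ N ∈ T, μ N * g j N := by
    intro j
    set t : ℝ := 1 / (160 * 10 ^ 10 * L) with ht
    have ht0 : 0 < t := by positivity
    have h3 : ∀ N ∈ T, μ N * (2 * t * Y j N - t ^ 2 * (Y j N) ^ 2) ≤ μ N * g j N := by
      intro N _
      refine mul_le_mul_of_nonneg_left ?_ (hμ N)
      by_cases hex : ∃ a, (N + h (j, a)).Prime
      · simp only [hg]
        rw [if_pos hex]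
        nlinarith [sq_nonneg (1 - t * Y j N)]
      · simp only [hg]
        rw [if_neg hex]
        have : Y j N = 0 := by
          simp only [hY, hf]
          refine sum_eq_zero fun a _ => ?_
          rw [if_neg]
          exact fun hp => hex ⟨a, hp⟩
        rw [this]
        simp
    refine le_trans ?_ (sum_le_sum h3)
    have h4 : ∑ N ∈ T, μ N * (2 * t * Y j N - t ^ 2 * (Y j N) ^ 2) =
        2 * t * ∑ N ∈ T, μ N * Y j N - t ^ 2 * ∑ N ∈ T, μ N * (Y j N) ^ 2 := by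
      rw [mul_sum, mul_sum, ← sum_sub_distrib]
      refine sum_congr rfl fun N _ => ?_
      ring
    rw [h4]
    have h5 : 2 * t * ((1 / 10 ^ 10) * L) ≤ 2 * t * ∑ N ∈ T, μ N * Y j N :=
      mul_le_mul_of_nonneg_left (m1 j) (by positivity)
    have h6 : t ^ 2 * ∑ N ∈ T, μ N * (Y j N) ^ 2 ≤ t ^ 2 * (160 * L ^ 2) :=
      mul_le_mul_of_nonneg_left (m2 j) (by positivity)
    have h7 : 2 * t * ((1 / 10 ^ 10) * L) - t ^ 2 * (160 * L ^ 2) = 1 / (160 * 10 ^ 20) := by
      rw [ht]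
      field_simp
      norm_num
    linarith
  -- probability that a block is full
  set φ : ι → ℕ → ℝ := fun j N => if ∀ a, (N + h (j, a)).Prime then 1 else 0 with hφ
  have m4 : ∀ j, ∑ N ∈ T, μ N * φ j N ≤ 32 * θ := by
    intro j
    have a0 : Fin (2 ^ l) := ⟨0, by positivity⟩
    have h3 : ∑ N ∈ T, μ N * φ j N ≤ ∑ N ∈ T, μ N * f j a0 N := by
      refine sum_le_sum fun N _ => mul_le_mul_of_nonneg_left ?_ (hμ N)
      simp only [hφ, hf]
      by_cases hall : ∀ a, (N + h (j, a)).Prime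
      · rw [if_pos hall, if_pos (hall a0)]
      · rw [if_neg hall]
        split_ifs
        · exact zero_le_one
        · exact le_rfl
    refine h3.trans ?_
    have h6 : ∑ N ∈ T, μ N * f j a0 N =
        ∑ N ∈ T.filter (fun N => ∀ i ∈ ({(j, a0)} : Finset (ι × Fin (2 ^ l))),
          (N + h i).Prime), μ N := by
      rw [sum_filter]
      refine sum_congr rfl fun N _ => ?_
      simp only [hf, mem_singleton, forall_eq]
      by_cases c1 : (N + h (j, a0)).Prime <;> simp [c1]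
    rw [h6]
    refine (hS _ ⟨(j, a0), by simp⟩).trans ?_
    simp only [card_singleton, prod_singleton, Nat.cast_one, one_mul]
    exact le_rfl
  have hθk : (k : ℝ) * (32 * θ) ≤ 1 / (320 * 10 ^ 20) := by
    refine le_trans (le_of_eq ?_) hl2
    rw [hθ, hτ]
    field_simp
  -- sum over the blocks
  by_contra hcon
  push Not at hcon
  have hgs : ∀ N, ∑ j, g j N =
      ((univ.filter (fun j : ι => ∃ a, (N + h (j, a)).Prime)).card : ℝ) := by
    intro N
    simp only [hg]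
    rw [card_filter]
    push_cast
    rfl
  have h3 : (k : ℝ) * (1 / (160 * 10 ^ 20)) - k * (k * (32 * θ)) ≤
      ∑ N ∈ T, μ N * (∑ j, g j N - k * ∑ j, φ j N) := by
    have h4 : ∑ j : ι, (1 / (160 * 10 ^ 20) : ℝ) ≤ ∑ j, ∑ N ∈ T, μ N * g j N :=
      sum_le_sum fun j _ => m3 j
    have h4' : ∑ j, ∑ N ∈ T, μ N * φ j N ≤ ∑ j : ι, 32 * θ :=
      sum_le_sum fun j _ => m4 j
    rw [sum_const, card_univ, hι, nsmul_eq_mul, sum_comm] at h4
    rw [sum_const, card_univ, hι, nsmul_eq_mul, sum_comm] at h4'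
    have h5 : ∑ N ∈ T, μ N * (∑ j, g j N - k * ∑ j, φ j N) =
        ∑ N ∈ T, ∑ j, μ N * g j N - k * ∑ N ∈ T, ∑ j, μ N * φ j N := by
      rw [mul_sum, ← sum_sub_distrib]
      refine sum_congr rfl fun N _ => ?_
      rw [← mul_sum, ← mul_sum]
      ring
    rw [h5]
    have h6 : (k : ℝ) * ∑ N ∈ T, ∑ j, μ N * φ j N ≤ k * (k * (32 * θ)) :=
      mul_le_mul_of_nonneg_left h4' (by positivity)
    linarith
  have h3' : (k : ℝ) * (1 / (320 * 10 ^ 20)) ≤
      ∑ N ∈ T, μ N * (∑ j, g j N - k * ∑ j, φ j N) := by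
    refine le_trans ?_ h3
    have h7 : (k : ℝ) * (k * (32 * θ)) ≤ k * (1 / (320 * 10 ^ 20)) :=
      mul_le_mul_of_nonneg_left hθk (by positivity)
    have h8 : (k : ℝ) * (1 / (160 * 10 ^ 20)) = k * (1 / (320 * 10 ^ 20)) + k * (1 / (320 * 10 ^ 20)) := by
      ring
    linarith
  have hlt : ∀ N ∈ T, (∑ j, g j N - k * ∑ j, φ j N) < (k : ℝ) * (1 / (320 * 10 ^ 20)) := by
    intro N hN
    have hkp : (0 : ℝ) < (k : ℝ) * (1 / (320 * 10 ^ 20)) := by positivity
    by_cases hfull : ∀ j, ∃ a, ¬ (N + h (j, a)).Prime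
    · have h9 := hcon N (hT N hN) hfull
      have h10 : ∑ j, φ j N = 0 := by
        refine sum_eq_zero fun j _ => ?_
        simp only [hφ]
        rw [if_neg]
        intro hall
        obtain ⟨a, ha⟩ := hfull j
        exact ha (hall a)
      rw [h10, mul_zero, sub_zero, hgs]
      exact h9
    · push Not at hfull
      obtain ⟨j0, hj0⟩ := hfull
      have h11 : ∑ j, g j N ≤ k := by
        rw [hgs]
        have : (univ.filter (fun j : ι => ∃ a, (N + h (j, a)).Prime)).card ≤ k := by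
          rw [← hι]
          exact card_le_univ _
        exact_mod_cast this
      have h12 : (1 : ℝ) ≤ ∑ j, φ j N := by
        have h13 : φ j0 N ≤ ∑ j, φ j N := by
          refine single_le_sum (f := fun j => φ j N) (fun j _ => ?_) (mem_univ j0)
          simp only [hφ]
          split_ifs
          · exact zero_le_one
          · exact le_rfl
        have h14 : φ j0 N = 1 := by
          simp only [hφ]
          rw [if_pos hj0]
        linarith
      have h15 : (k : ℝ) * 1 ≤ k * ∑ j, φ j N := mul_le_mul_of_nonneg_left h12 (by positivity)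
      linarith
  obtain ⟨N₁, hN₁, hN₁'⟩ : ∃ N ∈ T, μ N ≠ 0 := by
    refine exists_ne_zero_of_sum_ne_zero ?_
    rw [hsum]
    exact one_ne_zero
  have hN₁p : 0 < μ N₁ := lt_of_le_of_ne (hμ N₁) (Ne.symm hN₁')
  have h5 : ∑ N ∈ T, μ N * (∑ j, g j N - k * ∑ j, φ j N) <
      ∑ N ∈ T, μ N * ((k : ℝ) * (1 / (320 * 10 ^ 20))) := by
    refine sum_lt_sum (fun N hN => ?_) ⟨N₁, hN₁, ?_⟩
    · exact mul_le_mul_of_nonneg_left (hlt N hN).le (hμ N)
    · exact mul_lt_mul_of_pos_left (hlt N₁ hN₁) hN₁p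
  rw [← sum_mul, hsum, one_mul] at h5
  linarith

private theorem two_pow_ge (l : ℕ) (hl : 100 ≤ l) : 2 ^ 77 * (l + 4) ≤ 2 ^ l := by
  induction l, hl using Nat.le_induction with
  | base => norm_num
  | succ n hn ih =>
    rw [pow_succ]
    have h1 : (n : ℕ) + 1 + 4 ≤ (n + 4) * 2 := by omega
    calc 2 ^ 77 * (n + 1 + 4) ≤ 2 ^ 77 * ((n + 4) * 2) := Nat.mul_le_mul_left _ h1
      _ = 2 ^ 77 * (n + 4) * 2 := by ring
      _ ≤ 2 ^ n * 2 := Nat.mul_le_mul_right _ ih

private theorem small_tail (l : ℕ) (hl : 100 ≤ l) :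
    32 * (((l : ℝ) + 2) ^ 2 / (10 * 2 ^ l * ((l : ℝ) + 1))) ≤ 1 / (320 * 10 ^ 20) := by
  have h1 : (2 : ℝ) ^ 77 * ((l : ℝ) + 4) ≤ 2 ^ l := by exact_mod_cast two_pow_ge l hl
  have hl0 : (0 : ℝ) ≤ l := Nat.cast_nonneg l
  have h2 : ((l : ℝ) + 2) ^ 2 ≤ ((l : ℝ) + 4) * ((l : ℝ) + 1) := by nlinarith
  rw [← mul_div_assoc, div_le_div_iff₀ (by positivity) (by positivity)]
  have h3 : (320 * 10 ^ 20 : ℝ) * 32 ≤ 10 * 2 ^ 77 := by norm_num
  have h4 : (0 : ℝ) ≤ ((l : ℝ) + 4) * ((l : ℝ) + 1) := by positivity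
  calc 32 * ((l : ℝ) + 2) ^ 2 * (320 * 10 ^ 20)
      = (320 * 10 ^ 20 * 32) * ((l : ℝ) + 2) ^ 2 := by ring
    _ ≤ (320 * 10 ^ 20 * 32) * (((l : ℝ) + 4) * ((l : ℝ) + 1)) :=
        mul_le_mul_of_nonneg_left h2 (by positivity)
    _ ≤ (10 * 2 ^ 77) * (((l : ℝ) + 4) * ((l : ℝ) + 1)) := mul_le_mul_of_nonneg_right h3 h4
    _ = 10 * (2 ^ 77 * ((l : ℝ) + 4)) * ((l : ℝ) + 1) := by ring
    _ ≤ 10 * 2 ^ l * ((l : ℝ) + 1) := by gcongr
    _ = 1 * (10 * 2 ^ l * ((l : ℝ) + 1)) := by ring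

theorem block_exact (r : ℕ) : ∃ c₀ : ℝ, 0 < c₀ ∧ ∀ k : ℕ, 1 ≤ k → ∃ l₀ : ℕ, ∀ l : ℕ, l₀ ≤ l →
    ∀ (c : ℕ → Fin r) (V : Fin k → Finset ℤ),
      (∀ j j', j ≠ j' → Disjoint (V j) (V j')) → (∀ j, (V j).card = 2 ^ l) →
      (∀ p : ℕ, p.Prime → ∃ b : ℤ, ∀ j, ∀ x ∈ V j, ¬ (p : ℤ) ∣ b + x) →
      ∃ (i : Fin r) (F : Finset ℤ),
        {N : ℕ | ∀ j, ∀ x ∈ V j, (((N : ℤ) + x).toNat.Prime ∧ c ((N : ℤ) + x).toNat = i) ↔
          x ∈ F}.Infinite ∧
        c₀ * k ≤ (({j | ∃ x ∈ V j, x ∈ F}.ncard : ℕ) : ℝ) ∧ ∀ j, ∃ x ∈ V j, x ∉ F := by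
  classical
  refine ⟨1 / (320 * 10 ^ 20 * (r + 1)), by positivity, fun k hk => ?_⟩
  refine ⟨10 * k + 100, ?_⟩
  intro l hl c V hdisj hcardV hadmV
  have hr : 0 < r := lt_of_le_of_lt (Nat.zero_le _) (c 0).2
  let e : ∀ j, Fin (2 ^ l) ≃ V j := fun j => ((V j).equivFinOfCardEq (hcardV j)).symm
  let x : Fin k × Fin (2 ^ l) → ℤ := fun i => ((e i.1 i.2 : V i.1) : ℤ)
  have hxV : ∀ i, x i ∈ V i.1 := fun i => (e i.1 i.2).2
  have hxsurj : ∀ j, ∀ y ∈ V j, ∃ a, x (j, a) = y := by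
    intro j y hy
    refine ⟨(e j).symm ⟨y, hy⟩, ?_⟩
    simp [x]
  have hxinj : Function.Injective x := by
    rintro ⟨j, a⟩ ⟨j', a'⟩ hxx
    have hj : j = j' := by
      by_contra hne
      have h1 := hxV (j, a)
      have h2 := hxV (j', a')
      rw [← hxx] at h2
      exact Finset.disjoint_left.1 (hdisj j j' hne) h1 h2
    subst hj
    have h3 : e j a = e j a' := Subtype.ext hxx
    rw [(e j).injective h3]
  set B : ℕ := ∑ i, (x i).natAbs with hB
  have hBle : ∀ i, -(B : ℤ) ≤ x i := by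
    intro i
    have h1 : (x i).natAbs ≤ B := single_le_sum (f := fun i => (x i).natAbs)
      (fun _ _ => Nat.zero_le _) (mem_univ i)
    omega
  let h : Fin k × Fin (2 ^ l) → ℕ := fun i => (x i + B).toNat
  have hh : ∀ i, (h i : ℤ) = x i + B := by
    intro i
    refine Int.toNat_of_nonneg ?_
    have h1 := hBle i
    omega
  have hinj : Function.Injective h := by
    intro a b hab
    apply hxinj
    have h1 := hh a
    have h2 := hh b
    rw [hab] at h1
    omega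
  have hadm : ∀ p : ℕ, p.Prime → ∃ a : ℕ, ∀ i, ¬ p ∣ a + h i := by
    intro p hp
    obtain ⟨b, hb⟩ := hadmV p hp
    have hp0 : (0 : ℤ) < p := by exact_mod_cast hp.pos
    refine ⟨((b - B) % (p : ℤ)).toNat, fun i hdvd => ?_⟩
    apply hb i.1 (x i) (hxV i)
    have h1 : ((((b - B) % (p : ℤ)).toNat : ℕ) : ℤ) = (b - B) % (p : ℤ) :=
      Int.toNat_of_nonneg (Int.emod_nonneg _ hp0.ne')
    have h2 : (p : ℤ) ∣ ((((b - B) % (p : ℤ)).toNat + h i : ℕ) : ℤ) := by exact_mod_cast hdvd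
    rw [Nat.cast_add, h1, hh i] at h2
    have h3 : (p : ℤ) ∣ (b - B) - (b - B) % (p : ℤ) := Int.dvd_self_sub_emod
    have h4 := dvd_add h2 h3
    have h5 : (b - B) % (p : ℤ) + (x i + B) + ((b - B) - (b - B) % (p : ℤ)) = b + x i := by ring
    rw [h5] at h4
    exact h4
  have key : ∀ N0 : ℕ, ∃ N, N0 < N ∧ (∀ j, ∃ a, ¬ (N + h (j, a)).Prime) ∧ ∃ i : Fin r,
      1 / (320 * 10 ^ 20 * ((r : ℝ) + 1)) * k ≤
        ((univ.filter (fun j : Fin k => ∃ a, (N + h (j, a)).Prime ∧ c (N + h (j, a)) = i)).card : ℝ) := by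
    intro N0
    obtain ⟨N, hN, hNf, hN'⟩ := blk_sieve2 k hk (Fintype.card_fin k) l (by omega)
      (small_tail l (by omega)) h hinj hadm N0
    refine ⟨N, hN, hNf, ?_⟩
    by_contra hcon
    push Not at hcon
    have h1 : univ.filter (fun j : Fin k => ∃ a, (N + h (j, a)).Prime) ⊆
        (univ : Finset (Fin r)).biUnion (fun i => univ.filter (fun j : Fin k =>
          ∃ a, (N + h (j, a)).Prime ∧ c (N + h (j, a)) = i)) := by
      intro j hj
      rw [mem_filter] at hj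
      obtain ⟨_, a, ha⟩ := hj
      rw [mem_biUnion]
      refine ⟨c (N + h (j, a)), mem_univ _, ?_⟩
      rw [mem_filter]
      exact ⟨mem_univ _, a, ha, rfl⟩
    have h2 : ((univ.filter (fun j : Fin k => ∃ a, (N + h (j, a)).Prime)).card : ℝ) ≤
        ∑ i : Fin r, ((univ.filter (fun j : Fin k =>
          ∃ a, (N + h (j, a)).Prime ∧ c (N + h (j, a)) = i)).card : ℝ) := by
      exact_mod_cast (card_le_card h1).trans card_biUnion_le
    have h3 : ∑ i : Fin r, ((univ.filter (fun j : Fin k =>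
          ∃ a, (N + h (j, a)).Prime ∧ c (N + h (j, a)) = i)).card : ℝ) ≤
        ∑ _i : Fin r, 1 / (320 * 10 ^ 20 * ((r : ℝ) + 1)) * k :=
      sum_le_sum fun i _ => (hcon i).le
    rw [sum_const, card_univ, Fintype.card_fin, nsmul_eq_mul] at h3
    have h4 : (r : ℝ) * (1 / (320 * 10 ^ 20 * ((r : ℝ) + 1)) * k) <
        (k : ℝ) * (1 / (320 * 10 ^ 20)) := by
      have hk0 : (0 : ℝ) < k := by exact_mod_cast hk
      have hr0 : (0 : ℝ) < (r : ℝ) + 1 := by positivity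
      have h5 : (r : ℝ) * (1 / (320 * 10 ^ 20 * ((r : ℝ) + 1)) * k) =
          (k : ℝ) * (1 / (320 * 10 ^ 20)) * (r / ((r : ℝ) + 1)) := by
        field_simp
      rw [h5]
      have h6 : (r : ℝ) / ((r : ℝ) + 1) < 1 := by
        rw [div_lt_one hr0]
        linarith
      have h7 : (0 : ℝ) < (k : ℝ) * (1 / (320 * 10 ^ 20)) := by positivity
      calc _ < (k : ℝ) * (1 / (320 * 10 ^ 20)) * 1 := mul_lt_mul_of_pos_left h6 h7
        _ = _ := mul_one _
    linarith
  -- one colour and one pattern for infinitely many `N`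
  obtain ⟨i, G, hGc, hGf, hGinf⟩ : ∃ (i : Fin r) (G : Finset (Fin k × Fin (2 ^ l))),
      1 / (320 * 10 ^ 20 * ((r : ℝ) + 1)) * k ≤ ((G.image Prod.fst).card : ℝ) ∧
      (∀ j, ∃ a, (j, a) ∉ G) ∧
      {N : ℕ | ∀ y, ((N + h y).Prime ∧ c (N + h y) = i) ↔ y ∈ G}.Infinite := by
    by_contra hcon
    push Not at hcon
    have hfinite : (⋃ i : Fin r, ⋃ G : Finset (Fin k × Fin (2 ^ l)),
        {N : ℕ | 1 / (320 * 10 ^ 20 * ((r : ℝ) + 1)) * k ≤ ((G.image Prod.fst).card : ℝ) ∧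
          (∀ j, ∃ a, (j, a) ∉ G) ∧
          ∀ y, ((N + h y).Prime ∧ c (N + h y) = i) ↔ y ∈ G}).Finite := by
      refine Set.finite_iUnion fun i => Set.finite_iUnion fun G => ?_
      by_cases hG : 1 / (320 * 10 ^ 20 * ((r : ℝ) + 1)) * k ≤ ((G.image Prod.fst).card : ℝ)
      · by_cases hG2 : ∀ j, ∃ a, (j, a) ∉ G
        · have h1 := hcon i G hG hG2
          refine Set.Finite.subset h1 fun N hN => hN.2.2
        · refine Set.Finite.subset Set.finite_empty fun N hN => (hG2 hN.2.1).elim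
      · refine Set.Finite.subset Set.finite_empty fun N hN => (hG hN.1).elim
    obtain ⟨N0, hN0⟩ := hfinite.bddAbove
    obtain ⟨N, hN, hNf, i, hNi⟩ := key N0
    have hmem : N ∈ ⋃ i : Fin r, ⋃ G : Finset (Fin k × Fin (2 ^ l)),
        {N : ℕ | 1 / (320 * 10 ^ 20 * ((r : ℝ) + 1)) * k ≤ ((G.image Prod.fst).card : ℝ) ∧
          (∀ j, ∃ a, (j, a) ∉ G) ∧
          ∀ y, ((N + h y).Prime ∧ c (N + h y) = i) ↔ y ∈ G} := by
      rw [Set.mem_iUnion]
      refine ⟨i, ?_⟩
      rw [Set.mem_iUnion]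
      refine ⟨univ.filter (fun y => (N + h y).Prime ∧ c (N + h y) = i), ?_, ?_, ?_⟩
      · refine hNi.trans (le_of_eq ?_)
        congr 2
        ext j
        rw [mem_filter, mem_image]
        constructor
        · rintro ⟨_, a, ha⟩
          refine ⟨(j, a), ?_, rfl⟩
          rw [mem_filter]
          exact ⟨mem_univ _, ha⟩
        · rintro ⟨y, hy, rfl⟩
          rw [mem_filter] at hy
          exact ⟨mem_univ _, y.2, hy.2⟩
      · intro j
        obtain ⟨a, ha⟩ := hNf j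
        refine ⟨a, fun hmem => ha ?_⟩
        rw [mem_filter] at hmem
        exact hmem.2.1
      · intro y
        rw [mem_filter]
        simp
    have := hN0 hmem
    omega
  have hFmem : ∀ y, x y ∈ G.image x ↔ y ∈ G := by
    intro y
    rw [mem_image]
    constructor
    · rintro ⟨z, hz, hzy⟩
      rwa [← hxinj hzy]
    · intro hy
      exact ⟨y, hy, rfl⟩
  refine ⟨i, G.image x, ?_, ?_, ?_⟩
  · have hinj2 : Set.InjOn (fun N : ℕ => N + B)
        {N : ℕ | ∀ y, ((N + h y).Prime ∧ c (N + h y) = i) ↔ y ∈ G} := fun a _ b _ hab => by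
      simpa using hab
    refine (hGinf.image hinj2).mono ?_
    rintro _ ⟨N, hN, rfl⟩
    intro j y hy
    obtain ⟨a, rfl⟩ := hxsurj j y hy
    have h1 : (((N + B : ℕ) : ℤ) + x (j, a)).toNat = N + h (j, a) := by
      have h2 := hh (j, a)
      push_cast
      omega
    simp only
    rw [h1, hFmem]
    exact hN (j, a)
  · refine hGc.trans ?_
    have h1 : ({j | ∃ y ∈ V j, y ∈ G.image x} : Set (Fin k)) = ((G.image Prod.fst : Finset (Fin k)) : Set (Fin k)) := by
      ext j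
      simp only [Set.mem_setOf_eq, Finset.coe_image, Set.mem_image, Finset.mem_coe]
      constructor
      · rintro ⟨y, hy, hyG⟩
        obtain ⟨a, rfl⟩ := hxsurj j y hy
        exact ⟨(j, a), (hFmem _).1 hyG, rfl⟩
      · rintro ⟨y, hy, rfl⟩
        exact ⟨x y, hxV y, (hFmem y).2 hy⟩
    rw [h1, Set.ncard_coe_finset]
  · intro j
    obtain ⟨a, ha⟩ := hGf j
    exact ⟨x (j, a), hxV (j, a), fun hmem => ha ((hFmem _).1 hmem)⟩

end Pool.Agent.H74.BT
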