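import Pool.Agent.H74.BT.Box
import Pool.Agent.H74.BT.Block2

/-!
The block property of the primes for shattered sets.
-/

namespace Pool.Agent.H74.BT

open Finset Pool.Agent.H92.BH

/-- `N + x` is a prime of colour `i` -/
def PrC {r : ℕ} (c : ℕ → Fin r) (i : Fin r) (N : ℕ) (x : ℤ) : Prop :=
  ((N : ℤ) + x).toNat.Prime ∧ c ((N : ℤ) + x).toNat = i

/-- every subset of `F` is, for infinitely many `N`, the set of the `x ∈ F` such that `N + x` is a prime of
colour `i` -/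
def ShatS {r : ℕ} (c : ℕ → Fin r) (i : Fin r) (F : Set ℤ) : Prop :=
  ∀ E : Set ℤ, E ⊆ F → {N : ℕ | ∀ x ∈ F, PrC c i N x ↔ x ∈ E}.Infinite

theorem adm_large (p : ℕ) (hp : p.Prime) (U : Finset ℤ) (hU : U.card < p) :
    ∃ b : ℤ, ∀ x ∈ U, ¬ (p : ℤ) ∣ b + x := by
  classical
  have : Fact p.Prime := ⟨hp⟩
  have h1 : (U.image (fun x : ℤ => -(x : ZMod p))).card < (Finset.univ : Finset (ZMod p)).card := by
    rw [Finset.card_univ, ZMod.card]
    exact lt_of_le_of_lt Finset.card_image_le hU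
  obtain ⟨y, -, hy⟩ := Finset.exists_mem_notMem_of_card_lt_card h1
  refine ⟨(y.val : ℤ), fun x hx hdiv => hy ?_⟩
  rw [← ZMod.intCast_zmod_eq_zero_iff_dvd] at hdiv
  push_cast at hdiv
  rw [ZMod.natCast_zmod_val] at hdiv
  exact Finset.mem_image.2 ⟨x, hx, by rw [neg_eq_iff_add_eq_zero, add_comm]; exact hdiv⟩

open Classical in
/-- the set of the exact patterns of the tuple `a` -/
noncomputable def typ {r k : ℕ} (c : ℕ → Fin r) (a : Fin k → ℤ) : Finset (Fin r × Finset (Fin k)) :=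
  Finset.univ.filter (fun q => {N : ℕ | ∀ j, PrC c q.1 N (a j) ↔ j ∈ q.2}.Infinite)

theorem block_shat (r : ℕ) : ∃ c₀ : ℝ, 0 < c₀ ∧ ∀ k : ℕ, 1 ≤ k → ∃ s W : ℕ, 1 ≤ s ∧ 0 < W ∧
    ∀ (c : ℕ → Fin r) (ι : Type) (_ : Fintype ι) (V : ι → Finset ℤ), Fintype.card ι = k →
      (∀ j j', j ≠ j' → Disjoint (V j) (V j')) → (∀ j, s ≤ (V j).card) →
      (∀ j, ∀ x ∈ V j, (W : ℤ) ∣ x) →
      ∃ (i : Fin r) (F : Finset ℤ), ShatS c i (F : Set ℤ) ∧
        c₀ * k ≤ (({j | ∃ x ∈ V j, x ∈ F}.ncard : ℕ) : ℝ) := by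
  classical
  obtain ⟨c₀, hc₀, hblock⟩ := block_exact r
  refine ⟨c₀, hc₀, fun k hk => ?_⟩
  obtain ⟨l, hl⟩ := hblock k hk
  obtain ⟨δ, C, hδ, hδ1, hC, hbox⟩ := box (2 ^ l) Nat.one_le_two_pow k
  set Q : ℕ := Fintype.card (Finset (Fin r × Finset (Fin k))) with hQ
  obtain ⟨s, hs1, hs⟩ : ∃ s : ℕ, 1 ≤ s ∧ C * Q < (s : ℝ) ^ δ := by
    have h1 := (tendsto_rpow_atTop hδ).comp tendsto_natCast_atTop_atTop
    have h2 := h1.eventually_gt_atTop (C * Q)
    obtain ⟨s, hs1, hs2⟩ := ((Filter.eventually_ge_atTop 1).and h2).exists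
    exact ⟨s, hs1, hs2⟩
  refine ⟨s, (k * 2 ^ l).factorial, hs1, Nat.factorial_pos _, ?_⟩
  intro c ι hι V hcard hdis hVs hW
  obtain ⟨e⟩ : Nonempty (Fin k ≃ ι) := by
    rw [← Fintype.card_eq, Fintype.card_fin, hcard]
  have hV1 : ∀ j : Fin k, ∃ T : Finset ℤ, T ⊆ V (e j) ∧ T.card = s := fun j =>
    Finset.exists_subset_card_eq (hVs (e j))
  choose V1 hV1s hV1c using hV1
  have hpc : (Fintype.piFinset V1).card = s ^ k := by
    rw [Fintype.card_piFinset]
    simp [hV1c]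
  have hsR : (0 : ℝ) < s := by exact_mod_cast hs1
  obtain ⟨T, -, hT⟩ := Finset.exists_lt_card_fiber_of_nsmul_lt_card_of_maps_to
    (s := Fintype.piFinset V1) (t := (Finset.univ : Finset (Finset (Fin r × Finset (Fin k)))))
    (f := fun a => typ c a) (b := C * (s : ℝ) ^ ((k : ℝ) - δ)) (fun a _ => Finset.mem_univ _) (by
      rw [Finset.card_univ, ← hQ, nsmul_eq_mul, hpc, Nat.cast_pow, Real.rpow_sub hsR,
        Real.rpow_natCast]
      have h1 : (0 : ℝ) < (s : ℝ) ^ δ := Real.rpow_pos_of_pos hsR _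
      have h2 : (0 : ℝ) < (s : ℝ) ^ k := by positivity
      calc (Q : ℝ) * (C * ((s : ℝ) ^ k / (s : ℝ) ^ δ)) = (C * Q) * ((s : ℝ) ^ k / (s : ℝ) ^ δ) := by
            ring
        _ < (s : ℝ) ^ δ * ((s : ℝ) ^ k / (s : ℝ) ^ δ) :=
            mul_lt_mul_of_pos_right hs (div_pos h2 h1)
        _ = (s : ℝ) ^ k := by field_simp)
  obtain ⟨V2, hV2c, hV2⟩ := hbox s V1 hs1 (fun j => (hV1c j).le)
    ((Fintype.piFinset V1).filter (fun a => typ c a = T)) (Finset.filter_subset _ _) hT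
  have hne : ∀ j, (V2 j).Nonempty := fun j => by
    rw [← Finset.card_pos, hV2c j]
    positivity
  choose q hq using hne
  have hsub : ∀ j, V2 j ⊆ V (e j) := by
    intro j x hx
    have h1 : Function.update q j x ∈ Fintype.piFinset V2 := by
      rw [Fintype.mem_piFinset]
      intro j'
      by_cases h : j' = j
      · subst h
        rw [Function.update_self]
        exact hx
      · rw [Function.update_of_ne h]
        exact hq j'
    have h2 := Fintype.mem_piFinset.1 (Finset.mem_filter.1 (hV2 h1)).1 j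
    rw [Function.update_self] at h2
    exact hV1s j h2
  have hdis2 : ∀ j j', j ≠ j' → Disjoint (V2 j) (V2 j') := by
    intro j j' hjj
    exact (hdis (e j) (e j') (fun h => hjj (e.injective h))).mono (hsub j) (hsub j')
  have hadm : ∀ p : ℕ, p.Prime → ∃ b : ℤ, ∀ j, ∀ x ∈ V2 j, ¬ (p : ℤ) ∣ b + x := by
    intro p hp
    by_cases hpk : p ≤ k * 2 ^ l
    · refine ⟨1, fun j x hx hdiv => ?_⟩
      have h1 : (p : ℤ) ∣ x :=
        (Int.natCast_dvd_natCast.2 (Nat.dvd_factorial hp.pos hpk)).trans (hW (e j) x (hsub j hx))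
      have h2 : (p : ℤ) ∣ 1 := (Int.dvd_add_left h1).1 hdiv
      have h3 : p ∣ 1 := by exact_mod_cast h2
      exact hp.one_lt.ne' (Nat.dvd_one.1 h3)
    · obtain ⟨b, hb⟩ := adm_large p hp (Finset.univ.biUnion V2) (by
        refine lt_of_le_of_lt (Finset.card_biUnion_le) ?_
        simp only [hV2c, Finset.sum_const, Finset.card_univ, Fintype.card_fin, smul_eq_mul]
        omega)
      exact ⟨b, fun j x hx => hb x (Finset.mem_biUnion.2 ⟨j, Finset.mem_univ _, hx⟩)⟩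
  obtain ⟨i, F, hF, hFc, hFn⟩ := hl l le_rfl c V2 hdis2 hV2c hadm
  set E : Finset (Fin k) := Finset.univ.filter (fun j => ∃ x ∈ V2 j, x ∈ F) with hE
  have hEc : c₀ * k ≤ (E.card : ℝ) := by
    refine hFc.trans (le_of_eq ?_)
    rw [← Set.ncard_coe_finset]
    congr 2
    ext j
    simp [hE]
  have htyp : ∀ E' ⊆ E, (i, E') ∈ T := by
    intro E' hE'
    have hch : ∀ j, ∃ x ∈ V2 j, (x ∈ F ↔ j ∈ E') := by
      intro j
      by_cases h : j ∈ E'
      · obtain ⟨x, hx, hxF⟩ := (Finset.mem_filter.1 (hE' h)).2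
        exact ⟨x, hx, by simp [hxF, h]⟩
      · obtain ⟨x, hx, hxF⟩ := hFn j
        exact ⟨x, hx, by simp [hxF, h]⟩
    choose a ha haE using hch
    have h1 := (Finset.mem_filter.1 (hV2 (Fintype.mem_piFinset.2 ha))).2
    rw [← h1]
    refine Finset.mem_filter.2 ⟨Finset.mem_univ _, Set.Infinite.mono ?_ hF⟩
    intro N hN j
    exact (hN j (a j) (ha j)).trans (haE j)
  have hqT : typ c q = T := (Finset.mem_filter.1 (hV2 (Fintype.mem_piFinset.2 hq))).2
  have hqinj : Function.Injective q := by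
    intro j j' h
    by_contra hne
    exact Finset.disjoint_left.1 (hdis2 j j' hne) (hq j) (h ▸ hq j')
  refine ⟨i, E.image q, ?_, ?_⟩
  · intro E1 hE1
    set E' : Finset (Fin k) := E.filter (fun j => q j ∈ E1) with hE'
    have h1 := htyp E' (Finset.filter_subset _ _)
    rw [← hqT] at h1
    have h2 := (Finset.mem_filter.1 h1).2
    refine Set.Infinite.mono ?_ h2
    intro N hN x hx
    obtain ⟨j, hj, rfl⟩ := Finset.mem_image.1 (Finset.mem_coe.1 hx)
    refine (hN j).trans ?_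
    rw [hE', Finset.mem_filter]
    exact ⟨fun h => h.2, fun h => ⟨hj, h⟩⟩
  · refine hEc.trans ?_
    have h1 : ((E.image e : Finset ι) : Set ι) ⊆ {j | ∃ x ∈ V j, x ∈ E.image q} := by
      intro j hj
      obtain ⟨j0, hj0, rfl⟩ := Finset.mem_image.1 (Finset.mem_coe.1 hj)
      exact ⟨q j0, hsub j0 (hq j0), Finset.mem_image.2 ⟨j0, hj0, rfl⟩⟩
    have h2 := Set.ncard_le_ncard h1 (Set.toFinite _)
    rw [Set.ncard_coe_finset, Finset.card_image_of_injective _ e.injective] at h2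
    exact_mod_cast h2

end Pool.Agent.H74.BT
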