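import Pool.Agent.H74.BT.Defs

/-!
[H74 BT SHEAR]  From `k`-tuples of differences to `(k+1)`-tuples.

Proof.  For `a : Fin k → ℤ` and `t : ℤ` let `sh t a : Fin (k+1) → ℤ` be `Fin.cons t (fun i => t + a i)`, an injective function of
`(t, a)`.  Let `δ` be given by `hA`; put `δ' = δ / 2^(k+2)`.  Given `X₀`, `hA` gives `X ≥ max X₀ X₂`, `X > 0` and `z` with at least `δ X^k` elements `a` of
`A` in `cube z X` (`X₂` below).  Those with some `a i = 0` or `a i = a j`, `i ≠ j`, are at most `(k + k^2) X^(k-1)`, at most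
`(δ/2) X^k` for `X ≥ X₂ = 2 (k + k^2)/δ` (for `k = 0` there are none).  The remaining `a` and `t ∈ (0, X]` give
`sh t a ∈ cube (Fin.cons 0 z) (2 X)` (as `0 < t ≤ X`, `z i < a i ≤ z i + X`), injective, so in `E` by `hE`.  Number: at least `X (δ/2) X^k =
(δ/2) X^(k+1) = (δ/2) / 2^(k+1) * (2X)^(k+1)`.
-/

namespace Pool.Agent.H74.BT

open Finset Pool.Agent.H92.BH

theorem shear_card {k : ℕ} (z : Fin k → ℤ) (X : ℕ) : (cube z X).card = X ^ k := by
  unfold cube
  rw [Fintype.card_piFinset]
  simp [Int.card_Ioc]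

open Classical in
theorem shear_slice {k : ℕ} (z : Fin k → ℤ) (X : ℕ) (j : Fin k) (g : (Fin k → ℤ) → ℤ)
    (hg : ∀ a x, g (Function.update a j x) = g a) :
    X * ((cube z X).filter (fun a => a j = g a)).card ≤ X ^ k := by
  have hI : (Finset.Ioc (z j) (z j + X)).card = X := by simp [Int.card_Ioc]
  have hmul : X * ((cube z X).filter (fun a => a j = g a)).card =
      (Finset.Ioc (z j) (z j + X)).card * ((cube z X).filter (fun a => a j = g a)).card := by
    rw [hI]
  rw [← shear_card z X, hmul, ← Finset.card_product]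
  refine Finset.card_le_card_of_injOn (fun p => Function.update p.2 j p.1) ?_ ?_
  · rintro ⟨x, a⟩ hp
    simp only [Finset.coe_product, Set.mem_prod, Finset.mem_coe, Finset.mem_filter] at hp
    simp only [Finset.mem_coe, cube, Fintype.mem_piFinset]
    intro i
    by_cases hij : i = j
    · subst hij
      rw [Function.update_self]
      exact hp.1
    · rw [Function.update_of_ne hij]
      exact Fintype.mem_piFinset.1 hp.2.1 i
  · rintro ⟨x, a⟩ hp ⟨y, b⟩ hq hpq
    simp only [Finset.coe_product, Set.mem_prod, Finset.mem_coe, Finset.mem_filter] at hp hq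
    have hpq' : Function.update a j x = Function.update b j y := hpq
    have hxy : x = y := by
      have := congrFun hpq' j
      rwa [Function.update_self, Function.update_self] at this
    have hgab : g a = g b := by rw [← hg a x, hpq', hg]
    have hab : a = b := by
      funext i
      by_cases hij : i = j
      · subst hij
        rw [hp.2.2, hq.2.2, hgab]
      · have := congrFun hpq' i
        rwa [Function.update_of_ne hij, Function.update_of_ne hij] at this
    rw [hxy, hab]

open Classical in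
theorem shear_bad {k : ℕ} (z : Fin k → ℤ) (X : ℕ) :
    X * ((cube z X).filter (fun a => ¬ Function.Injective (Fin.cons 0 a : Fin (k + 1) → ℤ))).card
      ≤ (k + k ^ 2) * X ^ k := by
  have hsub : (cube z X).filter (fun a => ¬ Function.Injective (Fin.cons 0 a : Fin (k + 1) → ℤ))
      ⊆ (Finset.univ.biUnion fun j : Fin k => (cube z X).filter (fun a => a j = 0)) ∪
        (((Finset.univ : Finset (Fin k × Fin k)).filter fun q => q.1 ≠ q.2).biUnion fun q =>
          (cube z X).filter (fun a => a q.1 = a q.2)) := by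
    intro a ha
    rw [Finset.mem_filter] at ha
    obtain ⟨hac, hni⟩ := ha
    rw [Fin.cons_injective_iff] at hni
    rw [Finset.mem_union]
    by_cases h0 : (0 : ℤ) ∈ Set.range a
    · obtain ⟨j, hj⟩ := h0
      left
      rw [Finset.mem_biUnion]
      exact ⟨j, Finset.mem_univ _, Finset.mem_filter.2 ⟨hac, hj⟩⟩
    · have hinj : ¬ Function.Injective a := fun h => hni ⟨h0, h⟩
      unfold Function.Injective at hinj
      push Not at hinj
      obtain ⟨i, j, hij, hne⟩ := hinj
      right
      rw [Finset.mem_biUnion]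
      exact ⟨(i, j), Finset.mem_filter.2 ⟨Finset.mem_univ _, hne⟩,
        Finset.mem_filter.2 ⟨hac, hij⟩⟩
  have h1 : X * (Finset.univ.biUnion fun j : Fin k =>
      (cube z X).filter (fun a => a j = 0)).card ≤ k * X ^ k := by
    calc _ ≤ X * ∑ j : Fin k, ((cube z X).filter (fun a => a j = 0)).card :=
          Nat.mul_le_mul_left _ Finset.card_biUnion_le
      _ = ∑ j : Fin k, X * ((cube z X).filter (fun a => a j = 0)).card := by
          rw [Finset.mul_sum]
      _ ≤ ∑ _j : Fin k, X ^ k := Finset.sum_le_sum fun j _ =>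
          shear_slice z X j (fun _ => 0) (fun _ _ => rfl)
      _ = k * X ^ k := by simp
  have h2 : X * (((Finset.univ : Finset (Fin k × Fin k)).filter fun q => q.1 ≠ q.2).biUnion
      fun q => (cube z X).filter (fun a => a q.1 = a q.2)).card ≤ k ^ 2 * X ^ k := by
    calc _ ≤ X * ∑ q ∈ (Finset.univ : Finset (Fin k × Fin k)).filter fun q => q.1 ≠ q.2,
            ((cube z X).filter (fun a => a q.1 = a q.2)).card :=
          Nat.mul_le_mul_left _ Finset.card_biUnion_le
      _ = ∑ q ∈ (Finset.univ : Finset (Fin k × Fin k)).filter fun q => q.1 ≠ q.2,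
            X * ((cube z X).filter (fun a => a q.1 = a q.2)).card := by
          rw [Finset.mul_sum]
      _ ≤ ∑ q ∈ (Finset.univ : Finset (Fin k × Fin k)).filter fun q => q.1 ≠ q.2, X ^ k := by
          refine Finset.sum_le_sum fun q hq => ?_
          have hne := (Finset.mem_filter.1 hq).2
          refine shear_slice z X q.1 (fun a => a q.2) fun a x => ?_
          exact Function.update_of_ne (Ne.symm hne) _ _
      _ ≤ ∑ _q : Fin k × Fin k, X ^ k :=
          Finset.sum_le_sum_of_subset (Finset.filter_subset _ _)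
      _ = k ^ 2 * X ^ k := by
          rw [Finset.sum_const, Finset.card_univ, Fintype.card_prod, Fintype.card_fin, smul_eq_mul]
          ring
  calc _ ≤ X * ((Finset.univ.biUnion fun j : Fin k => (cube z X).filter (fun a => a j = 0)) ∪
        (((Finset.univ : Finset (Fin k × Fin k)).filter fun q => q.1 ≠ q.2).biUnion fun q =>
          (cube z X).filter (fun a => a q.1 = a q.2))).card :=
        Nat.mul_le_mul_left _ (Finset.card_le_card hsub)
    _ ≤ X * _ + X * _ := by
        rw [← Nat.mul_add]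
        exact Nat.mul_le_mul_left _ (Finset.card_union_le _ _)
    _ ≤ k * X ^ k + k ^ 2 * X ^ k := Nat.add_le_add h1 h2
    _ = (k + k ^ 2) * X ^ k := by ring

open Classical in
theorem shear {k : ℕ} (A : Set (Fin k → ℤ)) (E : Set (Fin (k + 1) → ℤ))
    (hA : ∃ δ : ℝ, 0 < δ ∧ ∀ X₀ : ℕ, ∃ X : ℕ, X₀ ≤ X ∧ 0 < X ∧ ∃ z : Fin k → ℤ,
      δ * (X : ℝ) ^ k ≤ (((cube z X).filter (fun x => x ∈ A)).card : ℝ))
    (hE : ∀ a ∈ A, ∀ t : ℤ, Function.Injective (Fin.cons t (fun i => t + a i) : Fin (k + 1) → ℤ) →
      (Fin.cons t (fun i => t + a i) : Fin (k + 1) → ℤ) ∈ E) : UBDm E := by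
  obtain ⟨δ, hδ, h⟩ := hA
  refine ⟨δ / 2 ^ (k + 2), by positivity, fun X₀ => ?_⟩
  obtain ⟨X₂, hX₂⟩ := exists_nat_ge (2 * ((k : ℝ) + k ^ 2) / δ)
  obtain ⟨X, hX, hX0, z, hz⟩ := h (max X₀ X₂)
  have hXR : (0 : ℝ) < X := by exact_mod_cast hX0
  refine ⟨2 * X, by omega, by omega, Fin.cons 0 z, ?_⟩
  set G := (cube z X).filter (fun a => a ∈ A ∧
    Function.Injective (Fin.cons 0 a : Fin (k + 1) → ℤ)) with hG
  -- the number of good tuples of differences
  have hGcard : δ / 2 * (X : ℝ) ^ k ≤ (G.card : ℝ) := by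
    have hb := shear_bad z X
    have hb' : (X : ℝ) * (((cube z X).filter (fun a =>
        ¬ Function.Injective (Fin.cons 0 a : Fin (k + 1) → ℤ))).card : ℝ)
        ≤ ((k : ℝ) + k ^ 2) * (X : ℝ) ^ k := by exact_mod_cast hb
    have hX2 : 2 * ((k : ℝ) + k ^ 2) / δ ≤ X :=
      hX₂.trans (by exact_mod_cast (le_max_right X₀ X₂).trans hX)
    have hk2 : ((k : ℝ) + k ^ 2) ≤ δ / 2 * X := by
      rw [div_le_iff₀ hδ] at hX2
      linarith
    have hb'' : (((cube z X).filter (fun a =>
        ¬ Function.Injective (Fin.cons 0 a : Fin (k + 1) → ℤ))).card : ℝ)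
        ≤ δ / 2 * (X : ℝ) ^ k := by
      have h1 : (X : ℝ) * (((cube z X).filter (fun a =>
          ¬ Function.Injective (Fin.cons 0 a : Fin (k + 1) → ℤ))).card : ℝ)
          ≤ X * (δ / 2 * (X : ℝ) ^ k) := by
        refine hb'.trans ?_
        calc ((k : ℝ) + k ^ 2) * (X : ℝ) ^ k ≤ (δ / 2 * X) * (X : ℝ) ^ k :=
              mul_le_mul_of_nonneg_right hk2 (by positivity)
          _ = _ := by ring
      exact le_of_mul_le_mul_left h1 hXR
    have hsplit : ((cube z X).filter (fun x => x ∈ A)).card ≤ G.card +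
        ((cube z X).filter (fun a =>
          ¬ Function.Injective (Fin.cons 0 a : Fin (k + 1) → ℤ))).card := by
      refine le_trans (Finset.card_le_card ?_) (Finset.card_union_le _ _)
      intro a ha
      rw [Finset.mem_filter] at ha
      by_cases hi : Function.Injective (Fin.cons 0 a : Fin (k + 1) → ℤ)
      · exact Finset.mem_union_left _ (Finset.mem_filter.2 ⟨ha.1, ha.2, hi⟩)
      · exact Finset.mem_union_right _ (Finset.mem_filter.2 ⟨ha.1, hi⟩)
    have hsplit' : (((cube z X).filter (fun x => x ∈ A)).card : ℝ) ≤ (G.card : ℝ) +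
        (((cube z X).filter (fun a =>
          ¬ Function.Injective (Fin.cons 0 a : Fin (k + 1) → ℤ))).card : ℝ) := by
      exact_mod_cast hsplit
    linarith
  -- the shear
  have hcard : X * G.card ≤ ((cube (Fin.cons 0 z : Fin (k + 1) → ℤ) (2 * X)).filter
      (fun x => x ∈ E)).card := by
    have hI : (Finset.Ioc (0 : ℤ) X).card = X := by simp [Int.card_Ioc]
    conv_lhs => rw [← hI]
    rw [← Finset.card_product]
    refine Finset.card_le_card_of_injOn
      (fun p => (Fin.cons p.1 (fun i => p.1 + p.2 i) : Fin (k + 1) → ℤ)) ?_ ?_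
    · rintro ⟨t, a⟩ hp
      simp only [Finset.coe_product, Set.mem_prod, Finset.mem_coe, Finset.mem_Ioc] at hp
      obtain ⟨⟨ht1, ht2⟩, ha⟩ := hp
      rw [hG, Finset.mem_filter] at ha
      obtain ⟨hac, haA, hinj⟩ := ha
      simp only [Finset.mem_coe, Finset.mem_filter]
      refine ⟨?_, ?_⟩
      · simp only [cube, Fintype.mem_piFinset] at hac ⊢
        intro i
        refine Fin.cases ?_ (fun i => ?_) i
        · simp only [Fin.cons_zero, Finset.mem_Ioc]
          push_cast
          omega
        · have := hac i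
          simp only [Finset.mem_Ioc] at this
          simp only [Fin.cons_succ, Finset.mem_Ioc]
          push_cast
          omega
      · refine hE a haA t ?_
        rw [Fin.cons_injective_iff] at hinj ⊢
        refine ⟨?_, ?_⟩
        · rintro ⟨i, hi⟩
          exact hinj.1 ⟨i, by linarith⟩
        · intro i j hij
          exact hinj.2 (by simpa using hij)
    · rintro ⟨t, a⟩ _ ⟨t', a'⟩ _ hpq
      have hpq' : (Fin.cons t (fun i => t + a i) : Fin (k + 1) → ℤ) =
        Fin.cons t' (fun i => t' + a' i) := hpq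
      rw [Fin.cons_inj] at hpq'
      obtain ⟨h1, h2⟩ := hpq'
      subst h1
      have : a = a' := by
        funext i
        have := congrFun h2 i
        linarith
      rw [this]
  have hcard' : (X : ℝ) * (G.card : ℝ) ≤ (((cube (Fin.cons 0 z : Fin (k + 1) → ℤ) (2 * X)).filter
      (fun x => x ∈ E)).card : ℝ) := by exact_mod_cast hcard
  refine le_trans ?_ hcard'
  calc δ / 2 ^ (k + 2) * (((2 * X : ℕ) : ℝ)) ^ (k + 1)
      = X * (δ / 2 * (X : ℝ) ^ k) := by
        push_cast
        rw [mul_pow, pow_succ (2 : ℝ) (k + 1), pow_succ (X : ℝ) k]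
        have : (2 : ℝ) ^ (k + 1) ≠ 0 := by positivity
        field_simp
    _ ≤ X * (G.card : ℝ) := mul_le_mul_of_nonneg_left hGcard hXR.le

end Pool.Agent.H74.BT
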