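import Pool.Agent.H74.BT.Defs

/-!
[H74 BT PRLOW]  Lower bound for the average of a product of almost invariant functions.

Proof.  For values in `[0,1]`: `∏ i, u (t + C i) ≥ u (t + C i₀) ^ m - ∑ i, |u (t + C i) - u (t + C i₀)|`
(telescoping; `Finset.prod` over `Fin m`, e.g. induction on the finset, or
`Finset.abs_prod_sub_prod_le`-type lemma).  Average over the window: `av` of `|..|` is at most the square root of `av` of
`(..)^2`, so at most `κ` (Cauchy-Schwarz / Jensen, `inner_mul_le_norm_mul_norm` or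
`sq_sum_le_card_mul_sum_sq`; the window has `L` elements).  And `av (u^m) ≥ (av u)^m`
(`inner_le_nnorm_mul_nnorm`-free: `Real.pow_arith_mean_le_arith_mean_pow` or
`inner_sum`; `Finset.inner_pow...`: use `Real.pow_sum_div_card_le_sum_pow` or convexity `convexOn_pow`).
-/

namespace Pool.Agent.H74.BT

open Finset

private theorem prod_ge_sub {ι : Type*} [DecidableEq ι] (s : Finset ι) (a b : ι → ℝ)
    (ha0 : ∀ i, 0 ≤ a i) (ha1 : ∀ i, a i ≤ 1) (hb0 : ∀ i, 0 ≤ b i) (hb1 : ∀ i, b i ≤ 1) :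
    (∏ i ∈ s, b i) - ∑ i ∈ s, |a i - b i| ≤ ∏ i ∈ s, a i := by
  induction s using Finset.induction_on with
  | empty => simp
  | insert i s hi ih =>
    rw [Finset.prod_insert hi, Finset.prod_insert hi, Finset.sum_insert hi]
    have hB0 : 0 ≤ ∏ i ∈ s, b i := Finset.prod_nonneg (fun i _ => hb0 i)
    have hB1 : ∏ i ∈ s, b i ≤ 1 := Finset.prod_le_one (fun i _ => hb0 i) (fun i _ => hb1 i)
    have hS : 0 ≤ ∑ i ∈ s, |a i - b i| := Finset.sum_nonneg (fun i _ => abs_nonneg _)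
    have h1 : -|a i - b i| ≤ a i - b i := neg_abs_le _
    have h2 : a i * ((∏ i ∈ s, b i) - ∑ i ∈ s, |a i - b i|) ≤ a i * ∏ i ∈ s, a i :=
      mul_le_mul_of_nonneg_left ih (ha0 i)
    have h3 : a i * ∑ i ∈ s, |a i - b i| ≤ ∑ i ∈ s, |a i - b i| :=
      mul_le_of_le_one_left hS (ha1 i)
    have h4 : -|a i - b i| ≤ (a i - b i) * ∏ i ∈ s, b i := by
      have h5 : |(a i - b i) * ∏ i ∈ s, b i| ≤ |a i - b i| := by
        rw [abs_mul, abs_of_nonneg hB0]
        exact mul_le_of_le_one_right (abs_nonneg _) hB1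
      have := neg_abs_le ((a i - b i) * ∏ i ∈ s, b i)
      linarith
    nlinarith [h2, h3, h4]

private theorem av_mono (a : ℤ) (L : ℕ) (f g : ℤ → ℝ) (h : ∀ t, f t ≤ g t) : av a L f ≤ av a L g := by
  unfold av
  exact div_le_div_of_nonneg_right (Finset.sum_le_sum (fun t _ => h t)) (Nat.cast_nonneg L)

private theorem card_window (a : ℤ) (L : ℕ) : ((Finset.Ioc a (a + L)).card : ℝ) = L := by
  rw [Int.card_Ioc]
  simp

private theorem av_abs_le (a : ℤ) (L : ℕ) (hL : 0 < L) (f : ℤ → ℝ) (κ : ℝ) (hκ : 0 ≤ κ)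
    (h : av a L (fun t => (f t) ^ 2) ≤ κ ^ 2) : av a L (fun t => |f t|) ≤ κ := by
  have hL' : (0 : ℝ) < L := Nat.cast_pos.mpr hL
  refine le_of_sq_le_sq ?_ hκ
  · refine le_trans ?_ h
    unfold av
    have h1 := sq_sum_le_card_mul_sum_sq (s := Finset.Ioc a (a + L)) (f := fun t => |f t|)
    rw [card_window] at h1
    simp only [sq_abs] at h1
    rw [div_pow, div_le_div_iff₀ (by positivity) hL']
    nlinarith [h1, hL']

private theorem av_pow_le (a : ℤ) (L : ℕ) (hL : 0 < L) (f : ℤ → ℝ) (h0 : ∀ t, 0 ≤ f t) (m : ℕ) :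
    (av a L f) ^ m ≤ av a L (fun t => (f t) ^ m) := by
  have hL' : (0 : ℝ) < L := Nat.cast_pos.mpr hL
  have h1 := Real.pow_arith_mean_le_arith_mean_pow (Finset.Ioc a (a + L)) (fun _ => (1 : ℝ) / L) f
    (fun _ _ => by positivity) (by
      rw [Finset.sum_const, nsmul_eq_mul, card_window]
      field_simp) (fun t _ => h0 t) m
  unfold av
  have e1 : ∑ t ∈ Finset.Ioc a (a + L), (1 : ℝ) / L * f t = (∑ t ∈ Finset.Ioc a (a + L), f t) / L := by
    rw [← Finset.mul_sum]; ring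
  have e2 : ∑ t ∈ Finset.Ioc a (a + L), (1 : ℝ) / L * (f t) ^ m
      = (∑ t ∈ Finset.Ioc a (a + L), (f t) ^ m) / L := by
    rw [← Finset.mul_sum]; ring
  rw [e1, e2] at h1
  exact h1

/-- lower bound for a product of almost invariant functions -/
theorem prod_lower {m : ℕ} (u : ℤ → ℝ) (h0 : ∀ t, 0 ≤ u t) (h1 : ∀ t, u t ≤ 1) (a : ℤ) (L : ℕ)
    (hL : 0 < L) (C : Fin m → ℤ) (i₀ : Fin m) (κ : ℝ) (hκ : 0 ≤ κ)
    (h : ∀ i, av a L (fun t => (u (t + C i) - u (t + C i₀)) ^ 2) ≤ κ ^ 2) :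
    (av a L (fun t => u (t + C i₀))) ^ m - m * κ ≤ av a L (fun t => ∏ i, u (t + C i)) := by
  classical
  have key : ∀ t, (u (t + C i₀)) ^ m - ∑ i, |u (t + C i) - u (t + C i₀)| ≤ ∏ i, u (t + C i) := by
    intro t
    have h2 := prod_ge_sub (Finset.univ : Finset (Fin m)) (fun i => u (t + C i))
      (fun _ => u (t + C i₀)) (fun i => h0 _) (fun i => h1 _) (fun _ => h0 _) (fun _ => h1 _)
    simpa [Finset.prod_const] using h2
  have h3 := av_mono a L _ _ key
  refine le_trans ?_ h3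
  have h4 : av a L (fun t => (u (t + C i₀)) ^ m - ∑ i, |u (t + C i) - u (t + C i₀)|)
      = av a L (fun t => (u (t + C i₀)) ^ m) - ∑ i, av a L (fun t => |u (t + C i) - u (t + C i₀)|) := by
    unfold av
    rw [Finset.sum_sub_distrib, sub_div, Finset.sum_comm]
    congr 1
    rw [Finset.sum_div]
  rw [h4]
  have h5 := av_pow_le a L hL (fun t => u (t + C i₀)) (fun t => h0 _) m
  have h6 : ∑ i, av a L (fun t => |u (t + C i) - u (t + C i₀)|) ≤ ∑ _i : Fin m, κ := by
    refine Finset.sum_le_sum (fun i _ => ?_)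
    exact av_abs_le a L hL (fun t => u (t + C i) - u (t + C i₀)) κ hκ (h i)
  rw [Finset.sum_const, Finset.card_univ, Fintype.card_fin, nsmul_eq_mul] at h6
  linarith

end Pool.Agent.H74.BT
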