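import Pool.Agent.H74.BT.Defs

/-!
[H74 BT TELE]  Telescoping and Cauchy-Schwarz.

Proof.  `∏ f(t + C i) - ∏ u(t + C i) = ∑_i (f(t + C i) - u(t + C i)) ∏_{j<i} u(t + C j) ∏_{j>i} f(t + C j)`
(`Finset.prod_sub_prod_eq...`, or induction; for `Fin m` one can prove the inequality
`|av ∏ f - av ∏ u| ≤ ∑_i |av (v(t + C i) W_i t)|` with `W_i` a product over `j ≠ i` of values in `[-1,1]` which does not depend on
`C i`).  For fixed `C j`, `j ≠ i`, and `α_c = av (v(t+c) W t)`, `|W| ≤ 1`, `v = f - u`, `c` in the window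
`J = (z i, z i + X]`:
`A := ∑_c α_c^2 = av (W t ∑_c α_c v(t+c)) ≤ (av ((∑_c α_c v(t+c))^2))^(1/2)` and
`av ((∑_c α_c v(t+c))^2) = ∑_{c,c'} α_c α_c' av (v(t+c) v(t+c')) ≤ (∑ α_c^2 α_c'^2)^(1/2) (∑_{c,c'} (av ..)^2)^(1/2)
= A (γ^4 X^2)^(1/2) = A γ^2 X`.  So `A^2 ≤ A γ^2 X`, `A ≤ γ^2 X`, and `∑_c |α_c| ≤ (X A)^(1/2) ≤ γ X`.
Sum over the `C j`, `j ≠ i` (`X^(m-1)` choices; `Fintype.piFinset`, e.g. `Fin.insertNthEquiv`/`Fin.cons` or
`Finset.sum_comm` style: replace the `i`-th coordinate) and over `i`.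
It may be easier to prove by induction on `m` the more general statement with an extra bounded factor
`g : ℤ → ℝ`, `|g| ≤ 1`: `∑_{C ∈ cube z X} |av (g t ∏ f(t + C i)) - av (g t ∏ u(t + C i))| ≤ m γ X^m`
(split off the first coordinate with `Fin.cons`).
-/

namespace Pool.Agent.H74.BT

open Finset

theorem sum_cube_succ {m : ℕ} (z : Fin (m + 1) → ℤ) (X : ℕ) (F : (Fin (m + 1) → ℤ) → ℝ) :
    ∑ C ∈ cube z X, F C =
      ∑ C' ∈ cube (Fin.tail z) X, ∑ c ∈ Finset.Ioc (z 0) (z 0 + X), F (Fin.cons c C') := by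
  rw [← Finset.sum_product' (f := fun C' c => F (Fin.cons c C'))]
  refine Finset.sum_nbij' (fun C => (Fin.tail C, C 0)) (fun p => Fin.cons p.2 p.1) ?_ ?_ ?_ ?_ ?_
  · intro C hC
    rw [cube, Fintype.mem_piFinset] at hC
    rw [Finset.mem_product, cube, Fintype.mem_piFinset]
    exact ⟨fun i => hC i.succ, hC 0⟩
  · intro p hp
    rw [Finset.mem_product, cube, Fintype.mem_piFinset] at hp
    rw [cube, Fintype.mem_piFinset]
    intro i
    refine Fin.cases ?_ (fun i => ?_) i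
    · rw [Fin.cons_zero]
      exact hp.2
    · rw [Fin.cons_succ]
      exact hp.1 i
  · intro C _
    exact Fin.cons_self_tail C
  · intro p _
    simp only [Fin.tail_cons, Fin.cons_zero]
  · intro C _
    simp only [Fin.cons_self_tail]

theorem card_cube {m : ℕ} (z : Fin m → ℤ) (X : ℕ) : ((cube z X).card : ℝ) = (X : ℝ) ^ m := by
  rw [cube, Fintype.card_piFinset]
  have h : ∀ i, (Finset.Ioc (z i) (z i + X)).card = X := by
    intro i
    rw [Int.card_Ioc]
    simp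
  simp only [h]
  simp

theorem av_add' (a : ℤ) (L : ℕ) (f g : ℤ → ℝ) :
    av a L (fun t => f t + g t) = av a L f + av a L g := by
  unfold av
  rw [Finset.sum_add_distrib, add_div]

theorem av_sub' (a : ℤ) (L : ℕ) (f g : ℤ → ℝ) :
    av a L (fun t => f t - g t) = av a L f - av a L g := by
  unfold av
  rw [Finset.sum_sub_distrib, sub_div]

theorem av_smul' (a : ℤ) (L : ℕ) (x : ℝ) (f : ℤ → ℝ) :
    av a L (fun t => x * f t) = x * av a L f := by
  unfold av
  rw [← Finset.mul_sum, mul_div_assoc]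

theorem av_sum' {ι : Type} (s : Finset ι) (a : ℤ) (L : ℕ) (f : ι → ℤ → ℝ) :
    av a L (fun t => ∑ c ∈ s, f c t) = ∑ c ∈ s, av a L (f c) := by
  unfold av
  rw [Finset.sum_comm, Finset.sum_div]

/-- Cauchy-Schwarz for the average -/
theorem av_cs (a : ℤ) (L : ℕ) (hL : 0 < L) (W Y : ℤ → ℝ) (hW : ∀ t, |W t| ≤ 1) :
    (av a L (fun t => W t * Y t)) ^ 2 ≤ av a L (fun t => (Y t) ^ 2) := by
  have hL' : (0 : ℝ) < L := Nat.cast_pos.mpr hL
  have h1 := Finset.sum_mul_sq_le_sq_mul_sq (Finset.Ioc a (a + L)) W Y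
  have h2 : ∑ t ∈ Finset.Ioc a (a + L), (W t) ^ 2 ≤ L := by
    calc ∑ t ∈ Finset.Ioc a (a + L), (W t) ^ 2 ≤ ∑ _t ∈ Finset.Ioc a (a + L), (1 : ℝ) := by
          refine Finset.sum_le_sum fun t _ => ?_
          rw [← sq_abs]
          exact pow_le_one₀ (abs_nonneg _) (hW t)
      _ = L := by
          rw [Finset.sum_const, nsmul_eq_mul, mul_one, Int.card_Ioc]
          simp
  have h3 : 0 ≤ ∑ t ∈ Finset.Ioc a (a + L), (Y t) ^ 2 := Finset.sum_nonneg fun t _ => sq_nonneg _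
  unfold av
  rw [div_pow, div_le_div_iff₀ (by positivity) hL']
  have h4 : (∑ t ∈ Finset.Ioc a (a + L), W t * Y t) ^ 2 ≤
      L * ∑ t ∈ Finset.Ioc a (a + L), (Y t) ^ 2 :=
    h1.trans (mul_le_mul_of_nonneg_right h2 h3)
  nlinarith

/-- one coordinate -/
theorem tele_one (v W : ℤ → ℝ) (hW : ∀ t, |W t| ≤ 1) (a : ℤ) (L : ℕ) (hL : 0 < L) (z : ℤ) (X : ℕ)
    (γ : ℝ) (hγ : 0 ≤ γ) (h : ∑ c ∈ Finset.Ioc z (z + X), ∑ c' ∈ Finset.Ioc z (z + X),
      (av a L (fun t => v (t + c) * v (t + c'))) ^ 2 ≤ γ ^ 4 * (X : ℝ) ^ 2) :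
    ∑ c ∈ Finset.Ioc z (z + X), |av a L (fun t => W t * v (t + c))| ≤ γ * X := by
  set S := Finset.Ioc z (z + X) with hS
  set al : ℤ → ℝ := fun c => av a L (fun t => W t * v (t + c)) with hal
  set A : ℝ := ∑ c ∈ S, al c ^ 2 with hA
  have hA0 : 0 ≤ A := Finset.sum_nonneg fun c _ => sq_nonneg _
  have hScard : (S.card : ℝ) = X := by
    rw [hS, Int.card_Ioc]
    simp
  have h1 : A = av a L (fun t => W t * ∑ c ∈ S, al c * v (t + c)) := by
    have e1 : (fun t => W t * ∑ c ∈ S, al c * v (t + c)) =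
        fun t => ∑ c ∈ S, al c * (W t * v (t + c)) := by
      funext t
      rw [Finset.mul_sum]
      exact Finset.sum_congr rfl fun c _ => by ring
    rw [e1, av_sum', hA]
    refine Finset.sum_congr rfl fun c _ => ?_
    rw [av_smul', sq]
  have h2 : A ^ 2 ≤ av a L (fun t => (∑ c ∈ S, al c * v (t + c)) ^ 2) := by
    rw [h1]
    exact av_cs a L hL W _ hW
  have h3 : av a L (fun t => (∑ c ∈ S, al c * v (t + c)) ^ 2) =
      ∑ p ∈ S ×ˢ S, (al p.1 * al p.2) * av a L (fun t => v (t + p.1) * v (t + p.2)) := by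
    have e1 : (fun t => (∑ c ∈ S, al c * v (t + c)) ^ 2) =
        fun t => ∑ p ∈ S ×ˢ S, (al p.1 * al p.2) * (v (t + p.1) * v (t + p.2)) := by
      funext t
      rw [sq, Finset.sum_mul_sum, ← Finset.sum_product']
      exact Finset.sum_congr rfl fun p _ => by ring
    rw [e1, av_sum']
    exact Finset.sum_congr rfl fun p _ => av_smul' _ _ _ _
  have h4 : (∑ p ∈ S ×ˢ S, (al p.1 * al p.2) * av a L (fun t => v (t + p.1) * v (t + p.2))) ^ 2 ≤
      (∑ p ∈ S ×ˢ S, (al p.1 * al p.2) ^ 2) *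
        ∑ p ∈ S ×ˢ S, (av a L (fun t => v (t + p.1) * v (t + p.2))) ^ 2 :=
    Finset.sum_mul_sq_le_sq_mul_sq _ _ _
  have h5 : ∑ p ∈ S ×ˢ S, (al p.1 * al p.2) ^ 2 = A ^ 2 := by
    rw [sq A, hA, Finset.sum_mul_sum, ← Finset.sum_product']
    exact Finset.sum_congr rfl fun p _ => by ring
  have h6 : ∑ p ∈ S ×ˢ S, (av a L (fun t => v (t + p.1) * v (t + p.2))) ^ 2 ≤
      γ ^ 4 * (X : ℝ) ^ 2 := by
    rw [Finset.sum_product]
    exact h
  have h7 : (A ^ 2) ^ 2 ≤ A ^ 2 * (γ ^ 4 * (X : ℝ) ^ 2) := by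
    calc (A ^ 2) ^ 2 ≤ (∑ p ∈ S ×ˢ S,
          (al p.1 * al p.2) * av a L (fun t => v (t + p.1) * v (t + p.2))) ^ 2 := by
          rw [← h3]
          exact pow_le_pow_left₀ (sq_nonneg _) h2 2
      _ ≤ _ := h4
      _ ≤ A ^ 2 * (γ ^ 4 * (X : ℝ) ^ 2) := by
          rw [h5]
          exact mul_le_mul_of_nonneg_left h6 (sq_nonneg _)
  have h8 : A ≤ γ ^ 2 * X := by
    rcases hA0.eq_or_lt with h0 | h0
    · rw [← h0]; positivity
    · have h9 : A ^ 2 ≤ (γ ^ 2 * X) ^ 2 := by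
        have h10 : 0 < A ^ 2 := by positivity
        have h11 : A ^ 2 * A ^ 2 ≤ A ^ 2 * (γ ^ 4 * (X : ℝ) ^ 2) := by
          rw [← sq]
          exact h7
        have h12 := le_of_mul_le_mul_left h11 h10
        calc A ^ 2 ≤ γ ^ 4 * (X : ℝ) ^ 2 := h12
          _ = (γ ^ 2 * X) ^ 2 := by ring
      exact le_of_sq_le_sq h9 (by positivity)
  have h9 : (∑ c ∈ S, |al c|) ^ 2 ≤ (γ * X) ^ 2 := by
    have h10 := sq_sum_le_card_mul_sum_sq (s := S) (f := fun c => |al c|)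
    simp only [sq_abs] at h10
    rw [hScard] at h10
    calc (∑ c ∈ S, |al c|) ^ 2 ≤ X * A := h10
      _ ≤ X * (γ ^ 2 * X) := mul_le_mul_of_nonneg_left h8 (Nat.cast_nonneg _)
      _ = (γ * X) ^ 2 := by ring
  exact le_of_sq_le_sq h9 (by positivity)

theorem tele_gen (f u : ℤ → ℝ) (hf : ∀ t, |f t| ≤ 1) (hu : ∀ t, |u t| ≤ 1) (a : ℤ) (L : ℕ)
    (hL : 0 < L) (X : ℕ) (γ : ℝ) (hγ : 0 ≤ γ) (m : ℕ) : ∀ (z : Fin m → ℤ) (g : ℤ → ℝ),
    (∀ t, |g t| ≤ 1) →
    (∀ i, ∑ c ∈ Finset.Ioc (z i) (z i + X), ∑ c' ∈ Finset.Ioc (z i) (z i + X),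
      (av a L (fun t => (f (t + c) - u (t + c)) * (f (t + c') - u (t + c')))) ^ 2 ≤
        γ ^ 4 * (X : ℝ) ^ 2) →
    ∑ C ∈ cube z X, |av a L (fun t => g t * ∏ i, f (t + C i)) -
      av a L (fun t => g t * ∏ i, u (t + C i))| ≤ m * γ * (X : ℝ) ^ m := by
  have hprod : ∀ (n : ℕ) (w : ℤ → ℝ), (∀ t, |w t| ≤ 1) → ∀ (C : Fin n → ℤ) (t : ℤ),
      |∏ i, w (t + C i)| ≤ 1 := by
    intro n w hw C t
    rw [Finset.abs_prod]
    exact Finset.prod_le_one (fun _ _ => abs_nonneg _) (fun i _ => hw _)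
  induction m with
  | zero =>
    intro z g _ _
    simp
  | succ m ih =>
    intro z g hg h
    rw [sum_cube_succ]
    have hstep : ∀ C' ∈ cube (Fin.tail z) X, ∑ c ∈ Finset.Ioc (z 0) (z 0 + X),
        |av a L (fun t => g t * ∏ i, f (t + (Fin.cons c C' : Fin (m + 1) → ℤ) i)) -
          av a L (fun t => g t * ∏ i, u (t + (Fin.cons c C' : Fin (m + 1) → ℤ) i))| ≤
        ∑ c ∈ Finset.Ioc (z 0) (z 0 + X),
          |av a L (fun t => (g t * f (t + c)) * ∏ i, f (t + C' i)) -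
            av a L (fun t => (g t * f (t + c)) * ∏ i, u (t + C' i))| + γ * X := by
      intro C' _
      have h1 := tele_one (fun t => f t - u t) (fun t => g t * ∏ i, u (t + C' i)) (by
        intro t
        rw [abs_mul]
        exact mul_le_one₀ (hg t) (abs_nonneg _) (hprod m u hu C' t)) a L hL (z 0) X γ hγ (h 0)
      calc ∑ c ∈ Finset.Ioc (z 0) (z 0 + X),
          |av a L (fun t => g t * ∏ i, f (t + (Fin.cons c C' : Fin (m + 1) → ℤ) i)) -
            av a L (fun t => g t * ∏ i, u (t + (Fin.cons c C' : Fin (m + 1) → ℤ) i))| ≤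
          ∑ c ∈ Finset.Ioc (z 0) (z 0 + X),
            (|av a L (fun t => (g t * f (t + c)) * ∏ i, f (t + C' i)) -
              av a L (fun t => (g t * f (t + c)) * ∏ i, u (t + C' i))| +
            |av a L (fun t => (g t * ∏ i, u (t + C' i)) * (f (t + c) - u (t + c)))|) := by
            refine Finset.sum_le_sum fun c _ => ?_
            have e1 : av a L (fun t => g t * ∏ i, f (t + (Fin.cons c C' : Fin (m + 1) → ℤ) i)) -
                av a L (fun t => g t * ∏ i, u (t + (Fin.cons c C' : Fin (m + 1) → ℤ) i)) =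
                (av a L (fun t => (g t * f (t + c)) * ∏ i, f (t + C' i)) -
                  av a L (fun t => (g t * f (t + c)) * ∏ i, u (t + C' i))) +
                av a L (fun t => (g t * ∏ i, u (t + C' i)) * (f (t + c) - u (t + c))) := by
              rw [← av_sub', ← av_sub', ← av_add']
              congr 1
              funext t
              rw [Fin.prod_univ_succ, Fin.prod_univ_succ]
              simp only [Fin.cons_zero, Fin.cons_succ]
              ring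
            rw [e1]
            exact abs_add_le _ _
        _ = _ + _ := Finset.sum_add_distrib
        _ ≤ _ := by
            have h2 := h1
            linarith
    refine (Finset.sum_le_sum hstep).trans ?_
    rw [Finset.sum_add_distrib, Finset.sum_comm]
    have h2 : ∀ c ∈ Finset.Ioc (z 0) (z 0 + X), ∑ C' ∈ cube (Fin.tail z) X,
        |av a L (fun t => (g t * f (t + c)) * ∏ i, f (t + C' i)) -
            av a L (fun t => (g t * f (t + c)) * ∏ i, u (t + C' i))| ≤ m * γ * (X : ℝ) ^ m := by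
      intro c _
      refine ih (Fin.tail z) (fun t => g t * f (t + c)) ?_ (fun i => h i.succ)
      intro t
      rw [abs_mul]
      exact mul_le_one₀ (hg t) (abs_nonneg _) (hf _)
    have h3 : ((Finset.Ioc (z 0) (z 0 + X)).card : ℝ) = X := by
      rw [Int.card_Ioc]
      simp
    calc _ ≤ ∑ _c ∈ Finset.Ioc (z 0) (z 0 + X), (m * γ * (X : ℝ) ^ m) +
          ∑ _C' ∈ cube (Fin.tail z) X, γ * X := by
          have := Finset.sum_le_sum h2
          linarith
      _ = ((m + 1 : ℕ) : ℝ) * γ * (X : ℝ) ^ (m + 1) := by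
          rw [Finset.sum_const, Finset.sum_const, nsmul_eq_mul, nsmul_eq_mul, h3, card_cube]
          push_cast
          ring

theorem telesc {m : ℕ} (f u : ℤ → ℝ) (hf : ∀ t, |f t| ≤ 1) (hu : ∀ t, |u t| ≤ 1) (a : ℤ) (L : ℕ)
    (hL : 0 < L) (X : ℕ) (z : Fin m → ℤ) (γ : ℝ) (hγ : 0 ≤ γ)
    (h : ∀ i, ∑ c ∈ Finset.Ioc (z i) (z i + X), ∑ c' ∈ Finset.Ioc (z i) (z i + X),
      (av a L (fun t => (f (t + c) - u (t + c)) * (f (t + c') - u (t + c')))) ^ 2 ≤
        γ ^ 4 * (X : ℝ) ^ 2) :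
    ∑ C ∈ cube z X, |av a L (fun t => ∏ i, f (t + C i)) - av a L (fun t => ∏ i, u (t + C i))| ≤
      m * γ * (X : ℝ) ^ m := by
  have h1 := tele_gen f u hf hu a L hL X γ hγ m z (fun _ => 1) (fun _ => by simp) h
  simpa using h1

end Pool.Agent.H74.BT
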