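import Pool.Agent.H74.BT.Bilin

/-!
[H74 BT WIND]  Good windows.

Proof.  Let `K ≥ |b|` for all `b ∈ w.support`, `M' = M + K`.  `σ` has the property of `Pool.Agent.H92.BH.spec` (hypothesis `hσ`): apply it
with `2 M'`, `η = ε / 64` and `L₀ ≥ 64 (M' + 1) / ε`.  `u = act w (ind S)`.
* `av` of `(u(t+c) - u(t+c'))^2`: `bilin` with `p = q = shf c w - shf c' w` (norm `≤ 2`, `nrm w = 1`), and
`conj (hat p) hat p = ‖fourier c - fourier c'‖^2 ‖hat w‖^2`, `‖fourier c θ - fourier c' θ‖ = ‖fourier (c - c') θ - 1‖`.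
* `v = ind S - u = act (single 0 1 - w) (ind S)`: `bilin` with `p = shf c (single 0 1 - w)`, `q` with `c'`;
`conj (fourier c) fourier c' = fourier (c' - c)`; `nrm ≤ 2`; `hat (single 0 1 - w) = 1 - hat w`.
* `av (u (t + c)) - av (ind S)`: `u(t+c) = ∑ w b ind S (t + b + c)` and `|av (ind S (t+d)) - av (ind S t)| ≤ |d|/L`,
`∑ w b = 1`.
* `δ ≤ av a L (ind S)` is `δ L ≤ cnt S a L`.
-/

namespace Pool.Agent.H74.BT

open Finset Filter Topology MeasureTheory Pool.Agent.H92.BH

private theorem ind_nonneg' (S : Set ℤ) (n : ℤ) : 0 ≤ ind S n := by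
  unfold ind; split_ifs <;> norm_num

private theorem ind_le_one' (S : Set ℤ) (n : ℤ) : ind S n ≤ 1 := by
  unfold ind; split_ifs <;> norm_num

private theorem cnt_eq' (S : Set ℤ) (a : ℤ) (L : ℕ) :
    (cnt S a L : ℝ) = ∑ n ∈ Finset.Ioc a (a + L), ind S n := by
  classical
  unfold cnt ind
  rw [Finset.card_filter]
  push_cast
  refine Finset.sum_congr rfl fun n _ => ?_
  split_ifs <;> simp

private theorem act_sub (p q : ℤ →₀ ℝ) (f : ℤ → ℝ) (t : ℤ) :
    act (p - q) f t = act p f t - act q f t := by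
  unfold act
  exact Finsupp.sum_sub_index (fun b x y => by ring)

private theorem hat_sub (p q : ℤ →₀ ℝ) (θ : UnitAddCircle) :
    hat (p - q) θ = hat p θ - hat q θ := by
  unfold hat
  exact Finsupp.sum_sub_index (fun b x y => by push_cast; ring)

private theorem act_one (f : ℤ → ℝ) (t : ℤ) : act (Finsupp.single 0 1) f t = f t := by
  unfold act
  rw [Finsupp.sum_single_index] <;> simp

private theorem hat_one (θ : UnitAddCircle) : hat (Finsupp.single 0 1) θ = 1 := by
  unfold hat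
  rw [Finsupp.sum_single_index] <;> simp

private theorem nrm_one : nrm (Finsupp.single 0 1) = 1 := by
  unfold nrm
  rw [Finsupp.sum_single_index] <;> simp

private theorem nrm_sub (p q : ℤ →₀ ℝ) : nrm (p - q) ≤ nrm p + nrm q := by
  classical
  have h1 : nrm p = ∑ b ∈ p.support ∪ q.support, |p b| :=
    Finsupp.sum_of_support_subset _ Finset.subset_union_left _ (by simp)
  have h2 : nrm q = ∑ b ∈ p.support ∪ q.support, |q b| :=
    Finsupp.sum_of_support_subset _ Finset.subset_union_right _ (by simp)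
  have h3 : nrm (p - q) = ∑ b ∈ p.support ∪ q.support, |(p - q) b| := by
    refine Finsupp.sum_of_support_subset _ ?_ _ (by simp)
    intro b hb
    rw [Finsupp.mem_support_iff, Finsupp.sub_apply] at hb
    rw [Finset.mem_union, Finsupp.mem_support_iff, Finsupp.mem_support_iff]
    by_contra h
    push Not at h
    rw [h.1, h.2] at hb
    simp at hb
  rw [h1, h2, h3, ← Finset.sum_add_distrib]
  refine Finset.sum_le_sum fun b _ => ?_
  rw [Finsupp.sub_apply]
  exact abs_sub _ _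

private theorem nrm_nonneg (p : ℤ →₀ ℝ) : 0 ≤ nrm p :=
  Finset.sum_nonneg fun _ _ => abs_nonneg _

private theorem nrm_w (w : ℤ →₀ ℝ) (hw : ∀ b, 0 ≤ w b) (hw1 : (w.sum fun _ x => x) = 1) :
    nrm w = 1 := by
  rw [← hw1]
  unfold nrm Finsupp.sum
  exact Finset.sum_congr rfl fun b _ => abs_of_nonneg (hw b)

private theorem shift1 (g : ℤ → ℝ) (h0 : ∀ n, 0 ≤ g n) (h1 : ∀ n, g n ≤ 1) (a : ℤ) (L : ℕ)
    (i : ℤ) :
    ∑ n ∈ Finset.Ioc (a + i) (a + i + L), g n ≤ ∑ n ∈ Finset.Ioc a (a + L), g n + |(i : ℝ)| := by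
  have hsub : Finset.Ioc (a + i) (a + i + L) ⊆
      Finset.Ioc a (a + L) ∪ (Finset.Ioc (a + L) (a + L + i) ∪ Finset.Ioc (a + i) a) := by
    intro n hn
    simp only [Finset.mem_union, Finset.mem_Ioc] at hn ⊢
    omega
  have h2 : ∑ n ∈ Finset.Ioc (a + i) (a + i + L), g n ≤ ∑ n ∈ Finset.Ioc a (a + L) ∪
      (Finset.Ioc (a + L) (a + L + i) ∪ Finset.Ioc (a + i) a), g n :=
    Finset.sum_le_sum_of_subset_of_nonneg hsub fun n _ _ => h0 n
  have h3 : ∑ n ∈ Finset.Ioc a (a + L) ∪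
      (Finset.Ioc (a + L) (a + L + i) ∪ Finset.Ioc (a + i) a), g n ≤
      ∑ n ∈ Finset.Ioc a (a + L), g n + ∑ n ∈ Finset.Ioc (a + L) (a + L + i) ∪
        Finset.Ioc (a + i) a, g n := by
    rw [← Finset.sum_union_inter]
    have := Finset.sum_nonneg (s := Finset.Ioc a (a + L) ∩
      (Finset.Ioc (a + L) (a + L + i) ∪ Finset.Ioc (a + i) a)) (fun n _ => h0 n)
    linarith
  have h4 : ∑ n ∈ Finset.Ioc (a + L) (a + L + i) ∪ Finset.Ioc (a + i) a, g n ≤
      ((Finset.Ioc (a + L) (a + L + i) ∪ Finset.Ioc (a + i) a).card : ℝ) := by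
    have h5 := Finset.sum_le_sum (s := Finset.Ioc (a + L) (a + L + i) ∪ Finset.Ioc (a + i) a)
      (fun n _ => h1 n)
    rw [Finset.sum_const, nsmul_eq_mul, mul_one] at h5
    exact h5
  have h6 : ((Finset.Ioc (a + L) (a + L + i) ∪ Finset.Ioc (a + i) a).card : ℝ) ≤ |(i : ℝ)| := by
    have h7 := Finset.card_union_le (Finset.Ioc (a + L) (a + L + i)) (Finset.Ioc (a + i) a)
    rw [Int.card_Ioc, Int.card_Ioc] at h7
    have h8 : (a + L + i - (a + L)).toNat + (a - (a + i)).toNat = i.natAbs := by omega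
    rw [h8] at h7
    have h9 : ((i.natAbs : ℕ) : ℝ) = |(i : ℝ)| := by
      rw [Nat.cast_natAbs, Int.cast_abs]
    rw [← h9]
    exact_mod_cast h7
  linarith

private theorem shift2 (g : ℤ → ℝ) (h0 : ∀ n, 0 ≤ g n) (h1 : ∀ n, g n ≤ 1) (a : ℤ) (L : ℕ)
    (i : ℤ) : |∑ n ∈ Finset.Ioc (a + i) (a + i + L), g n - ∑ n ∈ Finset.Ioc a (a + L), g n| ≤
      |(i : ℝ)| := by
  rw [abs_le]
  constructor
  · have h2 := shift1 g h0 h1 (a + i) L (-i)
    have h3 : a + i + -i = a := by ring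
    rw [h3] at h2
    push_cast at h2
    rw [abs_neg] at h2
    linarith
  · have h2 := shift1 g h0 h1 a L i
    linarith

private theorem sum_shift' (g : ℤ → ℝ) (a : ℤ) (L : ℕ) (i : ℤ) :
    ∑ n ∈ Finset.Ioc a (a + L), g (n + i) = ∑ n ∈ Finset.Ioc (a + i) (a + i + L), g n := by
  have : Finset.Ioc (a + i) (a + i + L) = (Finset.Ioc a (a + L)).map (addRightEmbedding i) := by
    rw [Finset.map_add_right_Ioc]
    congr 1
    ring
  rw [this, Finset.sum_map]
  rfl

private theorem av_shift (g : ℤ → ℝ) (h0 : ∀ n, 0 ≤ g n) (h1 : ∀ n, g n ≤ 1) (a : ℤ) (L : ℕ)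
    (i : ℤ) : |av a L (fun t => g (t + i)) - av a L g| ≤ |(i : ℝ)| / L := by
  unfold av
  rw [sum_shift', ← sub_div, abs_div, abs_of_nonneg (Nat.cast_nonneg L : (0 : ℝ) ≤ L)]
  exact div_le_div_of_nonneg_right (shift2 g h0 h1 a L i) (Nat.cast_nonneg L)

private theorem nf (c : ℤ) (θ : UnitAddCircle) : ‖(fourier c θ : ℂ)‖ = 1 := by
  rw [fourier_apply]
  exact Circle.norm_coe _

private theorem f_mul (c c' : ℤ) (θ : UnitAddCircle) :
    (fourier c θ : ℂ) = fourier (c - c') θ * fourier c' θ := by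
  rw [← fourier_add]
  congr 2
  ring

private theorem f_conj (c c' : ℤ) (θ : UnitAddCircle) :
    (starRingEnd ℂ) (fourier c θ : ℂ) * fourier c' θ = fourier (c' - c) θ := by
  rw [← fourier_neg, ← fourier_add]
  congr 2
  ring

theorem window {S : Set ℤ} {δ : ℝ} (σ : Measure UnitAddCircle) [IsFiniteMeasure σ]
    (hσ : ∀ (M : ℕ) (η : ℝ), 0 < η → ∀ L₀ : ℕ, ∃ L : ℕ, L₀ ≤ L ∧ 0 < L ∧ ∃ a : ℤ,
        δ * L ≤ cnt S a L ∧ ∀ d : ℤ, |d| ≤ M →
          ‖(∫ θ, fourier d θ ∂σ) - ((corr S a L d : ℝ) : ℂ)‖ ≤ η)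
    (w : ℤ →₀ ℝ) (hw : ∀ b, 0 ≤ w b) (hw1 : (w.sum fun _ x => x) = 1) (M : ℕ) {ε : ℝ}
    (hε : 0 < ε) : ∃ (L : ℕ) (a : ℤ), 0 < L ∧ δ ≤ av a L (ind S) ∧
      (∀ c c' : ℤ, |c| ≤ M → |c'| ≤ M →
        |av a L (fun t => (act w (ind S) (t + c) - act w (ind S) (t + c')) ^ 2) -
          ∫ θ, ‖(fourier (c - c') θ : ℂ) - 1‖ ^ 2 * ‖hat w θ‖ ^ 2 ∂σ| ≤ ε) ∧
      (∀ c c' : ℤ, |c| ≤ M → |c'| ≤ M →
        ‖((av a L (fun t => (ind S (t + c) - act w (ind S) (t + c)) *
            (ind S (t + c') - act w (ind S) (t + c'))) : ℝ) : ℂ) -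
          ∫ θ, (fourier (c' - c) θ : ℂ) * ((‖1 - hat w θ‖ ^ 2 : ℝ) : ℂ) ∂σ‖ ≤ ε) ∧
      ∀ c : ℤ, |c| ≤ M → |av a L (fun t => act w (ind S) (t + c)) - av a L (ind S)| ≤ ε := by
  classical
  set K : ℕ := w.support.sup Int.natAbs with hK
  have hKb : ∀ b ∈ w.support, |b| ≤ K := by
    intro b hb
    have h1 : b.natAbs ≤ K := Finset.le_sup (f := Int.natAbs) hb
    rw [Int.abs_eq_natAbs]
    exact_mod_cast h1
  set M' : ℕ := M + K with hM'
  obtain ⟨L₀, hL₀⟩ := exists_nat_ge (64 * ((M' : ℝ) + 1) / ε)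
  obtain ⟨L, hLL, hL, a, hcnt, hcor⟩ := hσ (2 * M') (ε / 64) (by positivity) L₀
  have hL' : (0 : ℝ) < L := by exact_mod_cast hL
  have hML : (M' : ℝ) / L ≤ ε / 64 := by
    rw [div_le_iff₀ hL']
    have h1 : 64 * ((M' : ℝ) + 1) / ε ≤ L := hL₀.trans (by exact_mod_cast hLL)
    rw [div_le_iff₀ hε] at h1
    linarith
  have hcor' : ∀ d : ℤ, |d| ≤ 2 * M' →
      ‖(∫ θ, fourier d θ ∂σ) - ((corr S a L d : ℝ) : ℂ)‖ ≤ ε / 64 := by
    intro d hd
    apply hcor
    push_cast
    exact hd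
  have hwn := nrm_w w hw hw1
  have hbil : ∀ p q : ℤ →₀ ℝ, (∀ b ∈ p.support, |b| ≤ M') → (∀ b ∈ q.support, |b| ≤ M') →
      nrm p ≤ 2 → nrm q ≤ 2 →
      ‖((av a L (fun t => act p (ind S) t * act q (ind S) t) : ℝ) : ℂ) -
      ∫ θ, (starRingEnd ℂ) (hat p θ) * hat q θ ∂σ‖ ≤ ε := by
    intro p q hp hq hp2 hq2
    refine (bilin σ a L M' hL hcor' p q hp hq).trans ?_
    have h1 : nrm p * nrm q ≤ 2 * 2 := mul_le_mul hp2 hq2 (nrm_nonneg q) (by norm_num)
    have h2 : ε / 64 + (M' : ℝ) / L ≤ ε / 64 + ε / 64 := by linarith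
    have h3 : 0 ≤ ε / 64 + (M' : ℝ) / L := by positivity
    calc nrm p * nrm q * (ε / 64 + (M' : ℝ) / L) ≤ 2 * 2 * (ε / 64 + ε / 64) :=
          mul_le_mul h1 h2 h3 (by norm_num)
      _ ≤ ε := by linarith
  have hsup : ∀ c : ℤ, |c| ≤ M → ∀ b ∈ (shf c w).support, |b| ≤ M' := by
    intro c hc b hb
    have h1 := hKb _ (shf_supp c w b hb)
    rw [hM']
    push_cast
    rw [abs_le] at h1 hc ⊢
    constructor <;> omega
  refine ⟨L, a, hL, ?_, ?_, ?_, ?_⟩
  · unfold av
    rw [le_div_iff₀ hL', ← cnt_eq']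
    exact hcnt
  · intro c c' hc hc'
    have h1 := hbil (shf c w - shf c' w) (shf c w - shf c' w) ?_ ?_ ?_ ?_
    · have e1 : ∀ t, act (shf c w - shf c' w) (ind S) t * act (shf c w - shf c' w) (ind S) t =
          (act w (ind S) (t + c) - act w (ind S) (t + c')) ^ 2 := by
        intro t
        rw [act_sub, act_shf, act_shf, sq]
      have e2 : ∀ θ, (starRingEnd ℂ) (hat (shf c w - shf c' w) θ) * hat (shf c w - shf c' w) θ =
          ((‖(fourier (c - c') θ : ℂ) - 1‖ ^ 2 * ‖hat w θ‖ ^ 2 : ℝ) : ℂ) := by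
        intro θ
        have h2 : hat (shf c w - shf c' w) θ =
            (fourier (c - c') θ - 1) * fourier c' θ * hat w θ := by
          rw [hat_sub, hat_shf, hat_shf, f_mul c c' θ]
          ring
        rw [← Complex.normSq_eq_conj_mul_self, Complex.normSq_eq_norm_sq, h2, norm_mul, norm_mul,
          nf, mul_one, mul_pow]
      simp only [e1, e2] at h1
      rw [integral_complex_ofReal, ← Complex.ofReal_sub, Complex.norm_real,
        Real.norm_eq_abs] at h1
      exact h1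
    · intro b hb
      have h2 := Finsupp.support_sub hb
      rcases Finset.mem_union.mp h2 with h | h
      · exact hsup c hc b h
      · exact hsup c' hc' b h
    · intro b hb
      have h2 := Finsupp.support_sub hb
      rcases Finset.mem_union.mp h2 with h | h
      · exact hsup c hc b h
      · exact hsup c' hc' b h
    · refine (nrm_sub _ _).trans ?_
      rw [nrm_shf, nrm_shf, hwn]
      norm_num
    · refine (nrm_sub _ _).trans ?_
      rw [nrm_shf, nrm_shf, hwn]
      norm_num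
  · intro c c' hc hc'
    have hsup' : ∀ c : ℤ, |c| ≤ M → ∀ b ∈ (shf c (Finsupp.single 0 1 - w)).support,
        |b| ≤ M' := by
      intro c hc b hb
      have h1 := Finsupp.support_sub (shf_supp c _ b hb)
      rw [hM']
      push_cast
      rcases Finset.mem_union.mp h1 with h | h
      · have h2 := Finsupp.support_single_subset h
        rw [Finset.mem_singleton] at h2
        rw [abs_le] at hc ⊢
        constructor <;> omega
      · have h2 := hKb _ h
        rw [abs_le] at h2 hc ⊢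
        constructor <;> omega
    have hn : ∀ c : ℤ, nrm (shf c (Finsupp.single 0 1 - w)) ≤ 2 := by
      intro c
      rw [nrm_shf]
      refine (nrm_sub _ _).trans ?_
      rw [nrm_one, hwn]
      norm_num
    have h1 := hbil (shf c (Finsupp.single 0 1 - w)) (shf c' (Finsupp.single 0 1 - w))
      (hsup' c hc) (hsup' c' hc') (hn c) (hn c')
    have e1 : ∀ (c t : ℤ), act (shf c (Finsupp.single 0 1 - w)) (ind S) t =
        ind S (t + c) - act w (ind S) (t + c) := by
      intro c t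
      rw [act_shf, act_sub, act_one]
    have e2 : ∀ θ, (starRingEnd ℂ) (hat (shf c (Finsupp.single 0 1 - w)) θ) *
        hat (shf c' (Finsupp.single 0 1 - w)) θ =
        (fourier (c' - c) θ : ℂ) * ((‖1 - hat w θ‖ ^ 2 : ℝ) : ℂ) := by
      intro θ
      rw [hat_shf, hat_shf, hat_sub, hat_one, map_mul, ← f_conj c c' θ]
      have h2 : (((‖1 - hat w θ‖ ^ 2 : ℝ)) : ℂ) =
          (starRingEnd ℂ) (1 - hat w θ) * (1 - hat w θ) := by
        rw [← Complex.normSq_eq_conj_mul_self, Complex.normSq_eq_norm_sq]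
      rw [h2]
      ring
    simp only [e1, e2] at h1
    exact h1
  · intro c hc
    have e1 : av a L (fun t => act w (ind S) (t + c)) =
        ∑ b ∈ w.support, w b * av a L (fun t => ind S (t + (c + b))) := by
      unfold av act Finsupp.sum
      rw [Finset.sum_comm, Finset.sum_div]
      refine Finset.sum_congr rfl fun b _ => ?_
      rw [← Finset.mul_sum, mul_div_assoc]
      congr 2
      refine Finset.sum_congr rfl fun t _ => ?_
      rw [add_assoc]
    have e2 : av a L (ind S) = ∑ b ∈ w.support, w b * av a L (ind S) := by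
      rw [← Finset.sum_mul]
      have h1 : ∑ b ∈ w.support, w b = 1 := hw1
      rw [h1, one_mul]
    rw [e1]
    conv_lhs => rw [e2]
    rw [← Finset.sum_sub_distrib]
    refine (Finset.abs_sum_le_sum_abs _ _).trans ?_
    calc ∑ b ∈ w.support, |w b * av a L (fun t => ind S (t + (c + b))) - w b * av a L (ind S)|
        ≤ ∑ b ∈ w.support, w b * ε := by
          refine Finset.sum_le_sum fun b hb => ?_
          rw [← mul_sub, abs_mul, abs_of_nonneg (hw b)]
          refine mul_le_mul_of_nonneg_left ?_ (hw b)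
          refine (av_shift (ind S) (ind_nonneg' S) (ind_le_one' S) a L (c + b)).trans ?_
          have h1 : |((c + b : ℤ) : ℝ)| ≤ M' := by
            have h2 := hKb b hb
            have h3 : |c + b| ≤ M' := by
              rw [hM']
              push_cast
              rw [abs_le] at h2 hc ⊢
              constructor <;> omega
            rw [← Int.cast_abs]
            exact_mod_cast h3
          calc |((c + b : ℤ) : ℝ)| / L ≤ M' / L := by gcongr
            _ ≤ ε / 64 := hML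
            _ ≤ ε := by linarith
      _ = ε := by
          rw [← Finset.sum_mul]
          have h1 : ∑ b ∈ w.support, w b = 1 := hw1
          rw [h1, one_mul]

end Pool.Agent.H74.BT
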