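import Pool.Agent.H74.BT.Wts
import Pool.Agent.H74.BT.Wind
import Pool.Agent.H74.BT.Tele
import Pool.Agent.H74.BT.PrLow
import Pool.Agent.H92.BH.Spec
import Pool.Agent.H92.BH.Atom

/-!
[H74 BT CORR]  Multiple correlations.

Proof.  `UBDge S δ`, `δ > 0` (and `δ ≤ 1` automatically, or not needed), `σ` from `spec`, `σ {0} ≠ 0` by `atom_zero`.
`κ₁ = δ^m / (16 m)`; `J, α, ρ` from `weights` with `κ = κ₁^2`; `γ = δ^m / 8`.
Given `η`: put `g = γ η / (2 m)` (so `m g ≤ γ η / 2`), `w` from `weights` with `ε = g^4 / 4`, `X₁`.  Let `X ≥ X₁`, `z`, `𝒞` be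
given; `M = max_i |z i| + X`.  `window` with a small `ε₂ > 0` (`ε₂ ≤ κ₁^2`, `2 ε₂^2 ≤ g^4/4`,
`(δ - ε₂)^m ≥ δ^m / 2` hence also `ε₂ ≤ δ`).  `f = ind S`, `u = act w f` has values in `[0,1]`.
`telesc` with `γ := g`: `(av v v)^2 ≤ 2 ‖∫..‖^2 + 2 ε₂^2`, the double sum is `≤ 2 (g^4/4) X^2 + 2 ε₂^2 X^2 ≤ g^4 X^2`.
`prod_lower` with `κ := 2 κ₁` (`i₀ = 0`, `m ≥ 1`): `av (u(t+C i) - u(t+C i₀))^2 ≤ κ₁^2 + ε₂ ≤ 4 κ₁^2` for `C ∈ near`, so
`av ∏ u(t + C i) ≥ (δ - ε₂)^m - 2 m κ₁ ≥ δ^m/2 - δ^m/8 ≥ 3γ`.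
Sum over `𝒞 ⊆ cube z X`: `∑_{C ∈ 𝒞} av ∏ f(t + C i) ≥ 3 γ |𝒞| - m g X^m ≥ 3 γ |𝒞| - (γ/2) η X^m ≥ 2 γ |𝒞|`.  The left side is
`(1/L) ∑_{t ∈ (a,a+L]} #{C ∈ 𝒞 : ∀ i, t + C i ∈ S}`, so some `t` has `#{..} ≥ γ |𝒞|`.
-/

namespace Pool.Agent.H74.BT

open Finset Filter Topology MeasureTheory Pool.Agent.H92.BH

open Classical in
theorem corr_many {m : ℕ} (hm : 1 ≤ m) {S : Set ℤ} (hS : UBD S) :
    ∃ (J : ℕ) (α : Fin J → ℝ) (ρ γ : ℝ), 0 < ρ ∧ 0 < γ ∧ ∀ η : ℝ, 0 < η →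
      ∃ X₁ : ℕ, ∀ X : ℕ, X₁ ≤ X → ∀ (z : Fin m → ℤ) (𝒞 : Finset (Fin m → ℤ)), 𝒞 ⊆ cube z X →
        (∀ C ∈ 𝒞, C ∈ near m α ρ) → η * (X : ℝ) ^ m ≤ 𝒞.card →
        ∃ t : ℤ, γ * (𝒞.card : ℝ) ≤ ((𝒞.filter (fun C => ∀ i, t + C i ∈ S)).card : ℝ) := by
  obtain ⟨δ, hδ, hSδ⟩ := hS
  obtain ⟨σ, hσfin, -, hσ⟩ := spec hSδ
  have hat0 := atom_zero hδ σ hσ
  have h0 : σ {0} ≠ 0 := by
    intro h
    rw [h] at hat0
    have : 0 < δ ^ 2 := by positivity
    simp at hat0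
    linarith
  have hmr : (1 : ℝ) ≤ m := by exact_mod_cast hm
  have hm0 : (0 : ℝ) < m := by linarith
  set κ₁ : ℝ := δ ^ m / (16 * m) with hκ₁
  have hκ₁pos : 0 < κ₁ := by positivity
  obtain ⟨J, α, ρ, hρ, hwts⟩ := weights σ h0 (κ := κ₁ ^ 2) (by positivity)
  set γ : ℝ := δ ^ m / 8 with hγ
  have hγpos : 0 < γ := by positivity
  refine ⟨J, α, ρ, γ, hρ, hγpos, ?_⟩
  intro η hη
  set g : ℝ := γ * η / (2 * m) with hg
  have hgpos : 0 < g := by positivity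
  obtain ⟨w, hw, hw1, hwκ, X₁, hX₁⟩ := hwts (g ^ 4 / 4) (by positivity)
  refine ⟨X₁, ?_⟩
  intro X hX z 𝒞 hC hnear hcard
  set M : ℕ := (∑ i, (z i).natAbs) + X with hM
  set ε₂ : ℝ := min (min (κ₁ ^ 2) (g ^ 2 / 2)) (δ / (2 * m)) with hε₂
  have hε₂pos : 0 < ε₂ := by
    rw [hε₂]
    refine lt_min (lt_min (by positivity) (by positivity)) (by positivity)
  have hε₂a : ε₂ ≤ κ₁ ^ 2 := (min_le_left _ _).trans (min_le_left _ _)
  have hε₂b : ε₂ ≤ g ^ 2 / 2 := (min_le_left _ _).trans (min_le_right _ _)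
  have hε₂c : ε₂ ≤ δ / (2 * m) := min_le_right _ _
  obtain ⟨L, a, hL, hav, hw2, hw3, hw4⟩ := window σ hσ w hw hw1 M hε₂pos
  have hLr : (0 : ℝ) < L := by exact_mod_cast hL
  -- bounds of coordinates
  have hzi : ∀ i, ∀ c ∈ Finset.Ioc (z i) (z i + X), |c| ≤ (M : ℤ) := by
    intro i c hc
    rw [Finset.mem_Ioc] at hc
    have h1 : (z i).natAbs ≤ ∑ i, (z i).natAbs :=
      Finset.single_le_sum (f := fun i => (z i).natAbs) (fun _ _ => Nat.zero_le _)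
        (Finset.mem_univ i)
    have h2 : (z i).natAbs + X ≤ M := by rw [hM]; exact Nat.add_le_add_right h1 X
    clear_value M
    rw [abs_le]
    constructor <;> omega
  have hCi : ∀ C ∈ 𝒞, ∀ i, |C i| ≤ (M : ℤ) := by
    intro C hC' i
    have h1 := hC hC'
    unfold cube at h1
    rw [Fintype.mem_piFinset] at h1
    exact hzi i _ (h1 i)
  -- the functions
  have hf0 : ∀ t, 0 ≤ ind S t := fun t => by unfold ind; split_ifs <;> norm_num
  have hf1 : ∀ t, ind S t ≤ 1 := fun t => by unfold ind; split_ifs <;> norm_num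
  have hu0 : ∀ t, 0 ≤ act w (ind S) t := by
    intro t
    unfold act Finsupp.sum
    exact Finset.sum_nonneg fun b _ => mul_nonneg (hw b) (hf0 _)
  have hu1 : ∀ t, act w (ind S) t ≤ 1 := by
    intro t
    rw [← hw1]
    unfold act Finsupp.sum
    exact Finset.sum_le_sum fun b _ => mul_le_of_le_one_right (hw b) (hf1 _)
  -- telescoping
  have htel := telesc (m := m) (ind S) (act w (ind S))
    (fun t => by rw [abs_of_nonneg (hf0 t)]; exact hf1 t)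
    (fun t => by rw [abs_of_nonneg (hu0 t)]; exact hu1 t) a L hL X z g hgpos.le (by
      intro i
      have h1 : ∀ c ∈ Finset.Ioc (z i) (z i + X), ∀ c' ∈ Finset.Ioc (z i) (z i + X),
          (av a L (fun t => (ind S (t + c) - act w (ind S) (t + c)) *
            (ind S (t + c') - act w (ind S) (t + c')))) ^ 2 ≤
          2 * ‖∫ θ, (fourier (c' - c) θ : ℂ) * ((‖1 - hat w θ‖ ^ 2 : ℝ) : ℂ) ∂σ‖ ^ 2 +
            2 * ε₂ ^ 2 := by
        intro c hc c' hc'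
        have h2 := hw3 c c' (hzi i c hc) (hzi i c' hc')
        set x : ℝ := av a L (fun t => (ind S (t + c) - act w (ind S) (t + c)) *
            (ind S (t + c') - act w (ind S) (t + c')))
        set y : ℂ := ∫ θ, (fourier (c' - c) θ : ℂ) * ((‖1 - hat w θ‖ ^ 2 : ℝ) : ℂ) ∂σ
        have h3 : |x| ≤ ‖y‖ + ε₂ := by
          have h4 : ‖(x : ℂ)‖ ≤ ‖y‖ + ‖(x : ℂ) - y‖ := by
            have := norm_add_le y ((x : ℂ) - y)
            rwa [add_sub_cancel] at this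
          rw [Complex.norm_real, Real.norm_eq_abs] at h4
          linarith
        have h5 : x ^ 2 ≤ (‖y‖ + ε₂) ^ 2 := by
          rw [← sq_abs]
          exact pow_le_pow_left₀ (abs_nonneg x) h3 2
        nlinarith [sq_nonneg (‖y‖ - ε₂)]
      have hcardI : (Finset.Ioc (z i) (z i + (X : ℤ))).card = X := by
        rw [Int.card_Ioc]; omega
      calc ∑ c ∈ Finset.Ioc (z i) (z i + X), ∑ c' ∈ Finset.Ioc (z i) (z i + X),
            (av a L (fun t => (ind S (t + c) - act w (ind S) (t + c)) *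
              (ind S (t + c') - act w (ind S) (t + c')))) ^ 2
          ≤ ∑ c ∈ Finset.Ioc (z i) (z i + X), ∑ c' ∈ Finset.Ioc (z i) (z i + X),
            (2 * ‖∫ θ, (fourier (c' - c) θ : ℂ) * ((‖1 - hat w θ‖ ^ 2 : ℝ) : ℂ) ∂σ‖ ^ 2 +
              2 * ε₂ ^ 2) :=
            Finset.sum_le_sum fun c hc => Finset.sum_le_sum fun c' hc' => h1 c hc c' hc'
        _ = 2 * (∑ c ∈ Finset.Ioc (z i) (z i + X), ∑ c' ∈ Finset.Ioc (z i) (z i + X),
            ‖∫ θ, (fourier (c' - c) θ : ℂ) * ((‖1 - hat w θ‖ ^ 2 : ℝ) : ℂ) ∂σ‖ ^ 2) +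
              2 * ε₂ ^ 2 * (X : ℝ) ^ 2 := by
            simp_rw [Finset.sum_add_distrib, ← Finset.mul_sum, Finset.sum_const, hcardI,
              nsmul_eq_mul]
            ring
        _ ≤ 2 * (g ^ 4 / 4 * (X : ℝ) ^ 2) + 2 * ε₂ ^ 2 * (X : ℝ) ^ 2 := by
            have := hX₁ X hX (z i)
            linarith
        _ ≤ g ^ 4 * (X : ℝ) ^ 2 := by
            have h6 : ε₂ ^ 2 ≤ g ^ 4 / 4 := by
              have h7 : ε₂ ^ 2 ≤ (g ^ 2 / 2) ^ 2 := pow_le_pow_left₀ hε₂pos.le hε₂b 2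
              have h8 : (g ^ 2 / 2) ^ 2 = g ^ 4 / 4 := by ring
              rwa [h8] at h7
            have h9 : 0 ≤ (X : ℝ) ^ 2 := by positivity
            nlinarith)
  -- lower bound for each C
  have hlow : ∀ C ∈ 𝒞, 3 * γ ≤ av a L (fun t => ∏ i, act w (ind S) (t + C i)) := by
    intro C hC'
    let i₀ : Fin m := ⟨0, hm⟩
    have h1 := prod_lower (act w (ind S)) hu0 hu1 a L hL C i₀ (2 * κ₁) (by positivity) (by
      intro i
      have h2 := hw2 (C i) (C i₀) (hCi C hC' i) (hCi C hC' i₀)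
      have h3 := hwκ (C i - C i₀) (hnear C hC' i i₀)
      rw [abs_le] at h2
      nlinarith [h2.2])
    have h4 := hw4 (C i₀) (hCi C hC' i₀)
    rw [abs_le] at h4
    set A : ℝ := av a L (fun t => act w (ind S) (t + C i₀)) with hA
    have h5 : δ - ε₂ ≤ A := by linarith [h4.1]
    have hε₂δ : ε₂ * m ≤ δ / 2 := by
      rw [le_div_iff₀ (by positivity)] at hε₂c
      linarith
    have h6 : 0 ≤ δ - ε₂ := by nlinarith
    have h7 : (δ - ε₂) ^ m ≤ A ^ m := pow_le_pow_left₀ h6 h5 m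
    have h8 : δ ^ m / 2 ≤ (δ - ε₂) ^ m := by
      have h9 : (δ - ε₂) = δ * (1 + -(ε₂ / δ)) := by field_simp; ring
      rw [h9, mul_pow]
      have h11 : ε₂ / δ * m ≤ 1 / 2 := by
        rw [div_mul_eq_mul_div, div_le_iff₀ hδ]
        linarith
      have h12 : ε₂ / δ ≤ 1 / 2 := by
        have : 0 ≤ ε₂ / δ := by positivity
        nlinarith
      have h10 := one_add_mul_le_pow (a := -(ε₂ / δ)) (by linarith) m
      have h13 : (0 : ℝ) < δ ^ m := by positivity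
      have h14 : (1 : ℝ) / 2 ≤ (1 + -(ε₂ / δ)) ^ m := by linarith
      calc δ ^ m / 2 = δ ^ m * (1 / 2) := by ring
        _ ≤ δ ^ m * (1 + -(ε₂ / δ)) ^ m := mul_le_mul_of_nonneg_left h14 h13.le
    have h15 : (m : ℝ) * (2 * κ₁) = δ ^ m / 8 := by
      rw [hκ₁]
      field_simp
      norm_num
    rw [hγ]
    linarith
  -- sum over C
  have hsum : 2 * γ * (𝒞.card : ℝ) ≤ ∑ C ∈ 𝒞, av a L (fun t => ∏ i, ind S (t + C i)) := by
    have h1 : ∑ C ∈ 𝒞, |av a L (fun t => ∏ i, ind S (t + C i)) -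
        av a L (fun t => ∏ i, act w (ind S) (t + C i))| ≤ m * g * (X : ℝ) ^ m :=
      (Finset.sum_le_sum_of_subset_of_nonneg hC fun _ _ _ => abs_nonneg _).trans htel
    have h2 : ∑ C ∈ 𝒞, (3 * γ) ≤ ∑ C ∈ 𝒞, (av a L (fun t => ∏ i, ind S (t + C i)) +
        |av a L (fun t => ∏ i, ind S (t + C i)) -
        av a L (fun t => ∏ i, act w (ind S) (t + C i))|) := by
      refine Finset.sum_le_sum fun C hC' => ?_
      have h3 := hlow C hC'
      have h4 := neg_abs_le (av a L (fun t => ∏ i, ind S (t + C i)) -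
        av a L (fun t => ∏ i, act w (ind S) (t + C i)))
      linarith
    rw [Finset.sum_const, nsmul_eq_mul, Finset.sum_add_distrib] at h2
    have h5 : m * g * (X : ℝ) ^ m ≤ γ / 2 * 𝒞.card := by
      have h6 : m * g = γ / 2 * η := by
        rw [hg]
        field_simp
      rw [h6, mul_assoc]
      exact mul_le_mul_of_nonneg_left hcard (by positivity)
    have h7 : 0 ≤ γ * (𝒞.card : ℝ) := by positivity
    linarith
  -- conclusion
  by_contra hcon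
  push Not at hcon
  have hswap : ∑ C ∈ 𝒞, av a L (fun t => ∏ i, ind S (t + C i)) =
      (∑ t ∈ Finset.Ioc a (a + L), ((𝒞.filter (fun C => ∀ i, t + C i ∈ S)).card : ℝ)) / L := by
    unfold av
    rw [← Finset.sum_div, Finset.sum_comm]
    congr 1
    refine Finset.sum_congr rfl fun t _ => ?_
    rw [Finset.card_filter]
    push_cast
    refine Finset.sum_congr rfl fun C _ => ?_
    unfold ind
    by_cases h : ∀ i, t + C i ∈ S
    · rw [if_pos h]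
      refine Finset.prod_eq_one fun i _ => ?_
      rw [if_pos (h i)]
    · rw [if_neg h]
      push Not at h
      obtain ⟨i, hi⟩ := h
      refine Finset.prod_eq_zero (Finset.mem_univ i) ?_
      rw [if_neg hi]
  rw [hswap, le_div_iff₀ hLr] at hsum
  have hcardL : (Finset.Ioc a (a + (L : ℤ))).card = L := by
    rw [Int.card_Ioc]; omega
  have h1 : ∑ t ∈ Finset.Ioc a (a + (L : ℤ)),
      ((𝒞.filter (fun C => ∀ i, t + C i ∈ S)).card : ℝ) ≤
      ∑ t ∈ Finset.Ioc a (a + (L : ℤ)), γ * (𝒞.card : ℝ) :=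
    Finset.sum_le_sum fun t _ => (hcon t).le
  rw [Finset.sum_const, hcardL, nsmul_eq_mul] at h1
  have h2 : 0 < γ * (𝒞.card : ℝ) := lt_of_le_of_lt (Nat.cast_nonneg _) (hcon 0)
  nlinarith

end Pool.Agent.H74.BT
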