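import Pool.Agent.H74.BT.Defs

/-!
[H74 BT PROD]  Dense subsets of cubes contain products `Y 0 × ... × Y (m-1)` with `P (Y i)`.

Proof.  Induction on `m` (for all `ε`).  `m = 0`: `cube z X` is a one-element set, `E` is not empty
(`ε * X ^ 0 = ε ≤ E.card`), so `E` contains the unique tuple (`Subsingleton`).
Step `m → m + 1`.  Let `M` be `M₀` of the hypothesis for `ε / 4`, at least `1`, and let
`ε' = (ε / 4) / 2 ^ M`, `X₁` from the induction hypothesis for `ε'`; `X₀ = max X₁ (4 M / ε)` (a natural above).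
Write `x = Fin.cons x₀ y`.  For `y ∈ cube (Fin.tail z) X` let `E_y = {x₀ | Fin.cons x₀ y ∈ E} ⊆ (z 0, z 0 + X]`.
Cut `(z 0, z 0 + X]` into the blocks `b_q = (z 0 + q M, z 0 + (q+1) M]`, `q < X / M`, and a rest of less than
`M ≤ ε X / 4` elements.  If every block `b_q` had fewer than `(ε/4) X ^ m` of the `y` with
`(ε/4) M ≤ #(E_y ∩ b_q)`, then, summing over `q` and `y`,
`|E| ≤ X^m M + (X/M) ((ε/4) X^m M + X^m (ε/4) M) ≤ (3/4) ε X^(m+1) < ε X^(m+1)`, a contradiction (in `X^m M` the rest,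
`M ≤ (ε/4) X`; use `(X/M : ℕ) * M ≤ X`).  So for some `q` the set `G` of the `y` with
`(ε/4) M ≤ #(E_y ∩ b_q)` has at least `(ε/4) X^m` elements.  For `y ∈ G` the hypothesis (with `S = E_y`,
`a = z 0 + q M`) gives `Y₀(y) ⊆ E_y ∩ b_q` with `P`.  `Y₀(y) ∈ powerset b_q`, which has `2^M` elements; pigeonhole
(`Finset.exists_le_card_fiber_of_mul_le_card_of_maps_to` or a sum over the fibres): some `Y₀` has at
least `ε' X^m` of the `y ∈ G` with `Y₀(y) = Y₀`.  Apply the induction hypothesis to this set of `y`; the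
answer is `Fin.cons Y₀ Y'`.
-/

namespace Pool.Agent.H74.BT

open Finset Pool.Agent.H92.BH

private theorem cnt_add (S : Set ℤ) (a : ℤ) (L₁ L₂ : ℕ) :
    cnt S a (L₁ + L₂) = cnt S a L₁ + cnt S (a + L₁) L₂ := by
  classical
  unfold cnt
  have e1 : Finset.Ioc a (a + ((L₁ + L₂ : ℕ) : ℤ)) =
      Finset.Ioc a (a + L₁) ∪ Finset.Ioc (a + L₁) (a + L₁ + L₂) := by
    rw [Finset.Ioc_union_Ioc_eq_Ioc (by omega) (by omega)]
    push_cast
    rw [add_assoc]
  rw [e1, Finset.filter_union, Finset.card_union_of_disjoint]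
  refine Finset.disjoint_filter_filter ?_
  exact Finset.Ioc_disjoint_Ioc_of_le le_rfl

private theorem cnt_le (S : Set ℤ) (a : ℤ) (L : ℕ) : cnt S a L ≤ L := by
  classical
  unfold cnt
  refine (Finset.card_filter_le _ _).trans (le_of_eq ?_)
  rw [Int.card_Ioc, add_sub_cancel_left]
  exact Int.toNat_natCast L

private theorem cnt_blocks (S : Set ℤ) (a : ℤ) (M R : ℕ) : ∀ Q : ℕ,
    cnt S a (Q * M + R) ≤ ∑ q ∈ Finset.range Q, cnt S (a + ((q * M : ℕ) : ℤ)) M + R := by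
  intro Q
  rw [cnt_add]
  have h1 : ∀ Q : ℕ, cnt S a (Q * M) = ∑ q ∈ Finset.range Q, cnt S (a + ((q * M : ℕ) : ℤ)) M := by
    intro Q
    induction Q with
    | zero => simp [cnt]
    | succ Q ih => rw [Finset.sum_range_succ, ← ih, Nat.succ_mul, cnt_add]
  rw [h1]
  exact Nat.add_le_add_left (cnt_le _ _ _) _

private theorem cube_card {m : ℕ} (z : Fin m → ℤ) (X : ℕ) : (cube z X).card = X ^ m := by
  unfold cube
  rw [Fintype.card_piFinset]
  have : ∀ i : Fin m, (Finset.Ioc (z i) (z i + X)).card = X := by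
    intro i
    rw [Int.card_Ioc, add_sub_cancel_left]
    exact Int.toNat_natCast X
  simp [this]

private theorem mem_cube {m : ℕ} (z : Fin m → ℤ) (X : ℕ) (x : Fin m → ℤ) :
    x ∈ cube z X ↔ ∀ i, z i < x i ∧ x i ≤ z i + X := by
  unfold cube
  rw [Fintype.mem_piFinset]
  simp only [Finset.mem_Ioc]

private theorem card_le_cnt {m : ℕ} (z : Fin (m + 1) → ℤ) (X : ℕ) (E : Finset (Fin (m + 1) → ℤ))
    (hE : E ⊆ cube z X) :
    E.card ≤ ∑ y ∈ cube (Fin.tail z) X, cnt {x₀ : ℤ | (Fin.cons x₀ y : Fin (m + 1) → ℤ) ∈ E} (z 0) X := by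
  classical
  rw [Finset.card_eq_sum_card_fiberwise (f := Fin.tail) (t := cube (Fin.tail z) X)]
  · refine Finset.sum_le_sum fun y _ => ?_
    have key : ∀ S : Set ℤ, (∀ x₀ : ℤ, (Fin.cons x₀ y : Fin (m + 1) → ℤ) ∈ E → x₀ ∈ S) →
        (E.filter (fun x => Fin.tail x = y)).card ≤ cnt S (z 0) X := by
      intro S hS
      unfold cnt
      refine Finset.card_le_card_of_injOn (fun x => x 0) ?_ ?_
      · intro x hx
        rw [Finset.mem_coe, Finset.mem_filter] at hx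
        rw [Finset.mem_coe, Finset.mem_filter]
        have h1 := (mem_cube z X x).1 (hE hx.1) 0
        refine ⟨Finset.mem_Ioc.2 h1, ?_⟩
        refine hS _ ?_
        rw [← hx.2, Fin.cons_self_tail]
        exact hx.1
      · intro x hx x' hx' h
        rw [Finset.mem_coe, Finset.mem_filter] at hx hx'
        rw [← Fin.cons_self_tail x, ← Fin.cons_self_tail x', hx.2, hx'.2]
        have h' : x 0 = x' 0 := h
        rw [h']
    exact key _ (fun x₀ h => h)
  · intro x hx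
    rw [Finset.mem_coe] at hx ⊢
    rw [mem_cube]
    intro i
    exact (mem_cube z X x).1 (hE hx) i.succ

theorem prod {P : Finset ℤ → Prop}
    (h : ∀ ε : ℝ, 0 < ε → ∃ M₀ : ℕ, ∀ M : ℕ, M₀ ≤ M → 0 < M → ∀ (S : Set ℤ) (a : ℤ),
      ε * M ≤ cnt S a M → ∃ X : Finset ℤ, P X ∧ ∀ x ∈ X, x ∈ S ∧ a < x ∧ x ≤ a + M) (m : ℕ) :
    ∀ ε : ℝ, 0 < ε → ∃ X₀ : ℕ, ∀ X : ℕ, X₀ ≤ X → 0 < X → ∀ (z : Fin m → ℤ) (E : Finset (Fin m → ℤ)),
      E ⊆ cube z X → ε * (X : ℝ) ^ m ≤ E.card →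
      ∃ Y : Fin m → Finset ℤ, (∀ i, P (Y i)) ∧ ∀ x : Fin m → ℤ, (∀ i, x i ∈ Y i) → x ∈ E := by
  classical
  induction m with
  | zero =>
    intro ε hε
    refine ⟨0, fun X _ _ z E _ hE => ?_⟩
    have h1 : 0 < E.card := by
      have : (0 : ℝ) < E.card := by
        simp only [pow_zero, mul_one] at hE
        linarith
      exact_mod_cast this
    obtain ⟨x, hx⟩ := Finset.card_pos.1 h1
    refine ⟨fun i => i.elim0, fun i => i.elim0, fun x' _ => ?_⟩
    rw [Subsingleton.elim x' x]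
    exact hx
  | succ m ih =>
    intro ε hε
    obtain ⟨ε4, hε4⟩ : ∃ ε4 : ℝ, ε4 = ε / 4 := ⟨_, rfl⟩
    have hε4p : 0 < ε4 := by rw [hε4]; positivity
    obtain ⟨M₀, hM₀⟩ := h ε4 hε4p
    obtain ⟨M, hM⟩ : ∃ M : ℕ, M = max M₀ 1 := ⟨_, rfl⟩
    have hMM₀ : M₀ ≤ M := by rw [hM]; exact le_max_left _ _
    have hM1 : 0 < M := by rw [hM]; exact lt_of_lt_of_le Nat.one_pos (le_max_right _ _)
    have hMr : (0 : ℝ) < M := by exact_mod_cast hM1
    obtain ⟨X₁, hX₁⟩ := ih (ε4 / 2 ^ M) (by positivity)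
    refine ⟨max X₁ ⌈(M : ℝ) / ε4⌉₊, fun X hX hXp z E hEc hEcard => ?_⟩
    have hX1 : X₁ ≤ X := (le_max_left _ _).trans hX
    have hX2 : (M : ℝ) ≤ ε4 * X := by
      have h1 : (M : ℝ) / ε4 ≤ X := (Nat.le_ceil _).trans (by exact_mod_cast (le_max_right _ _).trans hX)
      rw [div_le_iff₀ hε4p] at h1
      linarith
    have hXr : (0 : ℝ) < X := by exact_mod_cast hXp
    obtain ⟨T, hT⟩ : ∃ T : Finset (Fin m → ℤ), T = cube (Fin.tail z) X := ⟨_, rfl⟩
    have hTc : (T.card : ℝ) = (X : ℝ) ^ m := by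
      rw [hT, cube_card]
      push_cast
      rfl
    obtain ⟨Ey, hEy⟩ : ∃ Ey : (Fin m → ℤ) → Set ℤ,
      Ey = fun y => {x₀ : ℤ | (Fin.cons x₀ y : Fin (m + 1) → ℤ) ∈ E} := ⟨_, rfl⟩
    obtain ⟨c, hc⟩ : ∃ c : ℕ → (Fin m → ℤ) → ℕ,
      c = fun q y => cnt (Ey y) (z 0 + ((q * M : ℕ) : ℤ)) M := ⟨_, rfl⟩
    have hcM : ∀ q y, (c q y : ℝ) ≤ M := by
      intro q y
      rw [hc]
      exact_mod_cast cnt_le _ _ _
    have hbig : ∃ q : ℕ, ε4 * (X : ℝ) ^ m ≤ ((T.filter (fun y => ε4 * M ≤ (c q y : ℝ))).card : ℝ) := by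
      by_contra hcon
      push Not at hcon
      have h1 : (E.card : ℝ) ≤ ∑ y ∈ T, ((∑ q ∈ Finset.range (X / M), (c q y : ℝ)) + M) := by
        have h2 := card_le_cnt z X E hEc
        have h3 : ∀ y : Fin m → ℤ, cnt {x₀ : ℤ | (Fin.cons x₀ y : Fin (m + 1) → ℤ) ∈ E} (z 0) X ≤
            ∑ q ∈ Finset.range (X / M), c q y + M := by
          intro y
          have h4 := cnt_blocks (Ey y) (z 0) M (X % M) (X / M)
          rw [Nat.div_add_mod' X M] at h4
          have h5 : X % M ≤ M := (Nat.mod_lt _ hM1).le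
          rw [hc]
          rw [hEy] at h4 ⊢
          exact h4.trans (Nat.add_le_add_left h5 _)
        have h4 : E.card ≤ ∑ y ∈ T, (∑ q ∈ Finset.range (X / M), c q y + M) := by
          rw [hT]
          exact h2.trans (Finset.sum_le_sum fun y _ => h3 y)
        exact_mod_cast h4
      have h2 : ∀ q : ℕ, ∑ y ∈ T, (c q y : ℝ) ≤ 2 * ε4 * (X : ℝ) ^ m * M := by
        intro q
        rw [← Finset.sum_filter_add_sum_filter_not T (fun y => ε4 * M ≤ (c q y : ℝ))]
        have h3 : ∑ y ∈ T.filter (fun y => ε4 * M ≤ (c q y : ℝ)), (c q y : ℝ) ≤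
            ε4 * (X : ℝ) ^ m * M := by
          refine (Finset.sum_le_sum fun y _ => hcM q y).trans ?_
          rw [Finset.sum_const, nsmul_eq_mul]
          exact mul_le_mul_of_nonneg_right (hcon q).le hMr.le
        have h4 : ∑ y ∈ T.filter (fun y => ¬ ε4 * M ≤ (c q y : ℝ)), (c q y : ℝ) ≤
            ε4 * (X : ℝ) ^ m * M := by
          have h5 : ∀ y ∈ T.filter (fun y => ¬ ε4 * M ≤ (c q y : ℝ)), (c q y : ℝ) ≤ ε4 * M := by
            intro y hy
            exact (not_le.1 (Finset.mem_filter.1 hy).2).le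
          refine (Finset.sum_le_sum h5).trans ?_
          rw [Finset.sum_const, nsmul_eq_mul]
          have h6 : ((T.filter (fun y => ¬ ε4 * M ≤ (c q y : ℝ))).card : ℝ) ≤ (X : ℝ) ^ m := by
            rw [← hTc]
            exact_mod_cast Finset.card_filter_le _ _
          have h7 : ((T.filter (fun y => ¬ ε4 * M ≤ (c q y : ℝ))).card : ℝ) * (ε4 * M) ≤
              (X : ℝ) ^ m * (ε4 * M) := mul_le_mul_of_nonneg_right h6 (by positivity)
          linarith
        linarith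
      have h3 : ∑ y ∈ T, ((∑ q ∈ Finset.range (X / M), (c q y : ℝ)) + M) ≤
          3 * ε4 * (X : ℝ) ^ (m + 1) := by
        rw [Finset.sum_add_distrib, Finset.sum_comm, Finset.sum_const, nsmul_eq_mul, hTc]
        have h4 : ∑ q ∈ Finset.range (X / M), ∑ y ∈ T, (c q y : ℝ) ≤
            ((X / M : ℕ) : ℝ) * (2 * ε4 * (X : ℝ) ^ m * M) := by
          refine (Finset.sum_le_sum fun q _ => h2 q).trans ?_
          rw [Finset.sum_const, nsmul_eq_mul, Finset.card_range]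
        have h5 : ((X / M : ℕ) : ℝ) * M ≤ X := by exact_mod_cast Nat.div_mul_le_self X M
        have h6 : ((X / M : ℕ) : ℝ) * (2 * ε4 * (X : ℝ) ^ m * M) ≤ 2 * ε4 * (X : ℝ) ^ m * X := by
          have : ((X / M : ℕ) : ℝ) * (2 * ε4 * (X : ℝ) ^ m * M) =
              2 * ε4 * (X : ℝ) ^ m * (((X / M : ℕ) : ℝ) * M) := by ring
          rw [this]
          exact mul_le_mul_of_nonneg_left h5 (by positivity)
        have h7 : (X : ℝ) ^ m * M ≤ (X : ℝ) ^ m * (ε4 * X) :=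
          mul_le_mul_of_nonneg_left hX2 (by positivity)
        have h8 : 3 * ε4 * (X : ℝ) ^ (m + 1) = 2 * ε4 * (X : ℝ) ^ m * X + (X : ℝ) ^ m * (ε4 * X) := by
          ring
        linarith
      have h4 : 0 < ε4 * (X : ℝ) ^ (m + 1) := by positivity
      have h5 : ε * (X : ℝ) ^ (m + 1) = 4 * (ε4 * (X : ℝ) ^ (m + 1)) := by
        rw [hε4]
        ring
      linarith
    obtain ⟨q, hq⟩ := hbig
    obtain ⟨G, hG⟩ : ∃ G : Finset (Fin m → ℤ), G = T.filter (fun y => ε4 * M ≤ (c q y : ℝ)) :=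
      ⟨_, rfl⟩
    rw [← hG] at hq
    obtain ⟨a, ha⟩ : ∃ a : ℤ, a = z 0 + ((q * M : ℕ) : ℤ) := ⟨_, rfl⟩
    have hch : ∀ y : Fin m → ℤ, ∃ Y : Finset ℤ, y ∈ G → P Y ∧ ∀ x ∈ Y, x ∈ Ey y ∧ a < x ∧ x ≤ a + M := by
      intro y
      by_cases hy : y ∈ G
      · have hy' := hy
        rw [hG, Finset.mem_filter, hc] at hy'
        obtain ⟨Y, hY⟩ := hM₀ M hMM₀ hM1 (Ey y) a (by rw [ha]; exact hy'.2)
        exact ⟨Y, fun _ => hY⟩
      · exact ⟨∅, fun h' => absurd h' hy⟩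
    choose Y₀ hY₀ using hch
    have hmaps : ∀ y ∈ G, Y₀ y ∈ (Finset.Ioc a (a + M)).powerset := by
      intro y hy
      rw [Finset.mem_powerset]
      intro x hx
      rw [Finset.mem_Ioc]
      exact ((hY₀ y hy).2 x hx).2
    have hpc : (((Finset.Ioc a (a + M)).powerset).card : ℝ) = 2 ^ M := by
      rw [Finset.card_powerset, Int.card_Ioc, add_sub_cancel_left, Int.toNat_natCast]
      push_cast
      rfl
    obtain ⟨Y, hYm, hY⟩ := Finset.exists_le_card_fiber_of_nsmul_le_card_of_maps_to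
      (s := G) (t := (Finset.Ioc a (a + M)).powerset) (f := Y₀)
      (b := ε4 / 2 ^ M * (X : ℝ) ^ m) hmaps ⟨∅, Finset.empty_mem_powerset _⟩ (by
        rw [nsmul_eq_mul, hpc]
        refine le_trans (le_of_eq ?_) hq
        field_simp)
    obtain ⟨E', hE'⟩ : ∃ E' : Finset (Fin m → ℤ), E' = G.filter (fun y => Y₀ y = Y) := ⟨_, rfl⟩
    rw [← hE'] at hY
    have hE'c : E' ⊆ cube (Fin.tail z) X := by
      rw [hE', hG, hT]
      exact (Finset.filter_subset _ _).trans (Finset.filter_subset _ _)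
    obtain ⟨Y', hY'1, hY'2⟩ := hX₁ X hX1 hXp (Fin.tail z) E' hE'c hY
    have hPY : P Y := by
      have h1 : 0 < E'.card := by
        have h2 : (0 : ℝ) < ε4 / 2 ^ M * (X : ℝ) ^ m := by positivity
        have h3 : (0 : ℝ) < E'.card := lt_of_lt_of_le h2 hY
        exact_mod_cast h3
      obtain ⟨y, hy⟩ := Finset.card_pos.1 h1
      rw [hE', Finset.mem_filter] at hy
      rw [← hy.2]
      exact (hY₀ y hy.1).1
    refine ⟨Fin.cons Y Y', ?_, ?_⟩
    · intro i
      refine Fin.cases ?_ (fun j => ?_) i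
      · rw [Fin.cons_zero]
        exact hPY
      · rw [Fin.cons_succ]
        exact hY'1 j
    · intro x hx
      have h1 : Fin.tail x ∈ E' := by
        refine hY'2 _ fun i => ?_
        have := hx i.succ
        rw [Fin.cons_succ] at this
        exact this
      rw [hE', Finset.mem_filter] at h1
      have h2 := hx 0
      rw [Fin.cons_zero, ← h1.2] at h2
      have h3 := ((hY₀ _ h1.1).2 _ h2).1
      rw [hEy] at h3
      have h4 : (Fin.cons (x 0) (Fin.tail x) : Fin (m + 1) → ℤ) ∈ E := h3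
      rw [Fin.cons_self_tail] at h4
      exact h4

end Pool.Agent.H74.BT
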