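import Pool.Agent.H74.BT.Defs

/-!
[H74 BT TREEA]  Elementary properties of `Tree`.

`tree_zero`.  `UBD S` implies that `S` has at least `s` elements (`δ L ≤ cnt S a L` with `L ≥ s / δ`); take `X`
a subset with `s` elements, `ι = Unit` (`m ^ 0 = 1`), `V = X`; the number of indices is at most `1 = (m-1)^0`.

`tree_translate`.  `V' i = (V i).image (· + t)`; for `F` use `{x | x + t ∈ F}` and the translation
invariance of `𝓑` (`h𝓑`).

`tree_step`.  Given `Tree 𝓑 s j (Y i)` for all `i`, with `(ι i, V i)`, and `m ≥ 1`, `s ≥ 1`.  Let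
`ι' = Σ i, ι i`, cardinality `∑ i, m ^ j = m * m ^ j = m ^ (j+1)` (`Fintype.card_sigma`), `V' ⟨i, l⟩ = V i l`.
Disjointness: same `i`: known.  Different `i ≠ i'`: if `x ∈ V i l ∩ V i' l'` take `z i = x`, `z i' = x` and
for the other indices an element of `Y i''` (not empty: it contains some `V i'' l''` of cardinality `≥ s ≥ 1`;
`ι i''` is not empty as `m ^ j ≥ 1`); `z ∈ 𝓑` by `hY`, but `z` is not injective: contradiction with `hinj`.
Count: let `F` have no bad tuple, `n i = #{l | V i l meets F} ≤ (m-1)^j`.  If all `n i ≥ 1` choose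
`z i ∈ V i l ∩ F ⊆ Y i ∩ F`; `z ∈ 𝓑` by `hY`: contradiction.  So some `n i = 0` and the total is at most
`(m-1) (m-1)^j = (m-1)^(j+1)`.
-/

namespace Pool.Agent.H74.BT

open Finset Pool.Agent.H92.BH

theorem tree_zero {m : ℕ} (𝓑 : Set (Fin m → ℤ)) (s : ℕ) (S : Set ℤ) (hS : UBD S) :
    ∃ X : Finset ℤ, Tree 𝓑 s 0 X ∧ ∀ x ∈ X, x ∈ S := by
  classical
  obtain ⟨δ, hδ, h⟩ := hS
  obtain ⟨L, hL, hL0, a, ha⟩ := h ⌈(s : ℝ) / δ⌉₊
  have h1 : (s : ℝ) ≤ δ * L := by
    have h2 : (s : ℝ) / δ ≤ L := (Nat.le_ceil _).trans (by exact_mod_cast hL)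
    rw [div_le_iff₀ hδ] at h2
    linarith
  have h3 : s ≤ cnt S a L := by exact_mod_cast h1.trans ha
  unfold cnt at h3
  obtain ⟨X, hX, hXc⟩ := Finset.exists_subset_card_eq h3
  refine ⟨X, ⟨Unit, inferInstance, fun _ => X, ?_, fun _ => Finset.Subset.refl X, ?_, ?_, ?_⟩, ?_⟩
  · simp
  · intro i i' hi
    exact absurd (Subsingleton.elim i i') hi
  · intro _
    exact hXc.ge
  · intro F _
    refine (Set.ncard_le_ncard (Set.subset_univ _) Set.finite_univ).trans ?_
    simp [Set.ncard_univ]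
  · intro x hx
    exact (Finset.mem_filter.1 (hX hx)).2

theorem tree_translate {m : ℕ} {𝓑 : Set (Fin m → ℤ)}
    (h𝓑 : ∀ z ∈ 𝓑, ∀ t : ℤ, (fun i => z i + t) ∈ 𝓑) (s j : ℕ) (X : Finset ℤ) (t : ℤ)
    (h : Tree 𝓑 s j X) : Tree 𝓑 s j (X.image (fun x => x + t)) := by
  classical
  obtain ⟨ι, inst, V, hc, hsub, hdis, hs, hF⟩ := h
  have hinj : Function.Injective (fun x : ℤ => x + t) := fun a b hab => by
    simpa using hab
  refine ⟨ι, inst, fun i => (V i).image (fun x => x + t), hc, ?_, ?_, ?_, ?_⟩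
  · intro i
    exact Finset.image_subset_image (hsub i)
  · intro i i' hi
    exact (Finset.disjoint_image hinj).2 (hdis i i' hi)
  · intro i
    rw [Finset.card_image_of_injective _ hinj]
    exact hs i
  · intro F hFb
    have h1 : {i | ∃ x ∈ (V i).image (fun x => x + t), x ∈ F}
        = {i | ∃ x ∈ V i, x ∈ {y : ℤ | y + t ∈ F}} := by
      ext i
      simp only [Set.mem_setOf_eq, Finset.mem_image]
      constructor
      · rintro ⟨x, ⟨y, hy, rfl⟩, hx⟩
        exact ⟨y, hy, hx⟩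
      · rintro ⟨y, hy, hx⟩
        exact ⟨y + t, ⟨y, hy, rfl⟩, hx⟩
    rw [h1]
    refine hF _ ?_
    intro z hz hzb
    exact hFb (fun i => z i + t) hz (h𝓑 z hzb t)

theorem tree_step {m : ℕ} (hm : 1 ≤ m) {𝓑 : Set (Fin m → ℤ)}
    (hinj : ∀ z ∈ 𝓑, Function.Injective z) (s j : ℕ) (hs : 1 ≤ s) (Y : Fin m → Finset ℤ)
    (hT : ∀ i, Tree 𝓑 s j (Y i)) (hY : ∀ z : Fin m → ℤ, (∀ i, z i ∈ Y i) → z ∈ 𝓑) :
    Tree 𝓑 s (j + 1) (Finset.univ.biUnion Y) := by
  classical
  choose ι inst V hc hsub hdis hsz hF using hT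
  have hne : ∀ i, ∃ x, x ∈ Y i := by
    intro i
    have h1 : 0 < Fintype.card (ι i) := by
      rw [hc i]
      exact pow_pos (by omega) j
    obtain ⟨l⟩ := Fintype.card_pos_iff.1 h1
    have h2 : 0 < (V i l).card := by
      have := hsz i l
      omega
    obtain ⟨x, hx⟩ := Finset.card_pos.1 h2
    exact ⟨x, hsub i l hx⟩
  choose y hy using hne
  refine ⟨(i : Fin m) × ι i, inferInstance, fun p => V p.1 p.2, ?_, ?_, ?_, ?_, ?_⟩
  · rw [Fintype.card_sigma, Finset.sum_congr rfl (fun i _ => hc i), Finset.sum_const,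
      Finset.card_univ, Fintype.card_fin, smul_eq_mul, pow_succ]
    ring
  · rintro ⟨i, l⟩ x hx
    exact Finset.mem_biUnion.2 ⟨i, Finset.mem_univ i, hsub i l hx⟩
  · rintro ⟨i, l⟩ ⟨i', l'⟩ hne'
    by_cases hi : i = i'
    · subst hi
      refine hdis i l l' ?_
      rintro rfl
      exact hne' rfl
    · rw [Finset.disjoint_left]
      intro x hx hx'
      have hz : (fun k => if k = i ∨ k = i' then x else y k) ∈ 𝓑 := by
        refine hY _ fun k => ?_
        by_cases hk : k = i ∨ k = i'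
        · rw [if_pos hk]
          rcases hk with rfl | rfl
          · exact hsub _ l hx
          · exact hsub _ l' hx'
        · rw [if_neg hk]
          exact hy k
      have h1 := hinj _ hz (a₁ := i) (a₂ := i') (by simp)
      exact hi h1
  · rintro ⟨i, l⟩
    exact hsz i l
  · intro F hFb
    have hex : ∃ i0, {l | ∃ x ∈ V i0 l, x ∈ F} = ∅ := by
      by_contra hcon
      push Not at hcon
      have h1 : ∀ i, ∃ x, x ∈ Y i ∧ x ∈ F := by
        intro i
        obtain ⟨l, x, hx, hxF⟩ := hcon i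
        exact ⟨x, hsub i l hx, hxF⟩
      choose z hz1 hz2 using h1
      exact hFb z hz2 (hY z hz1)
    obtain ⟨i0, hi0⟩ := hex
    have hU : {p : (i : Fin m) × ι i | ∃ x ∈ V p.1 p.2, x ∈ F}
        = ⋃ i, (fun l => (⟨i, l⟩ : (i : Fin m) × ι i)) '' {l | ∃ x ∈ V i l, x ∈ F} := by
      ext ⟨i, l⟩
      simp only [Set.mem_setOf_eq, Set.mem_iUnion, Set.mem_image]
      constructor
      · intro h
        exact ⟨i, l, h, rfl⟩
      · rintro ⟨i', l', h, he⟩
        cases he
        exact h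
    rw [hU]
    refine (Set.ncard_iUnion_le_of_fintype _).trans ?_
    have h2 : ∀ i, ((fun l => (⟨i, l⟩ : (i : Fin m) × ι i)) '' {l | ∃ x ∈ V i l, x ∈ F}).ncard
        ≤ if i = i0 then 0 else (m - 1) ^ j := by
      intro i
      have h3 : ((fun l => (⟨i, l⟩ : (i : Fin m) × ι i)) '' {l | ∃ x ∈ V i l, x ∈ F}).ncard
          ≤ {l | ∃ x ∈ V i l, x ∈ F}.ncard := Set.ncard_image_le (Set.toFinite _)
      by_cases hi : i = i0
      · rw [if_pos hi]
        subst hi
        rw [hi0] at h3 ⊢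
        simpa using h3
      · rw [if_neg hi]
        exact h3.trans (hF i F hFb)
    refine (Finset.sum_le_sum fun i _ => h2 i).trans ?_
    rw [Finset.sum_ite, Finset.sum_const_zero, zero_add, Finset.sum_const, smul_eq_mul, pow_succ]
    have h4 : (Finset.univ.filter (fun i : Fin m => ¬ i = i0)).card = m - 1 := by
      rw [Finset.filter_ne', Finset.card_erase_of_mem (Finset.mem_univ _), Finset.card_univ,
        Fintype.card_fin]
    rw [h4]
    exact le_of_eq (Nat.mul_comm _ _)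

end Pool.Agent.H74.BT
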