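import Pool.Agent.H74.BT.Comp
import Pool.Agent.H74.BT.Prod
import Pool.Agent.H74.BT.TreeA
import Pool.Agent.H74.BT.Corr

/-!
The trees of bad tuples.
-/

namespace Pool.Agent.H74.BT

open Finset Pool.Agent.H92.BH

theorem tree_nonempty {m : ℕ} (hm : 1 ≤ m) {𝓑 : Set (Fin m → ℤ)} {s j : ℕ} (hs : 1 ≤ s)
    {X : Finset ℤ} (h : Tree 𝓑 s j X) : X.Nonempty := by
  obtain ⟨ι, _, V, hc, hV, -, hVs, -⟩ := h
  have h1 : 0 < Fintype.card ι := by rw [hc]; positivity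
  obtain ⟨i⟩ := Fintype.card_pos_iff.1 h1
  have h2 : 0 < (V i).card := lt_of_lt_of_le (by omega) (hVs i)
  obtain ⟨x, hx⟩ := Finset.card_pos.1 h2
  exact ⟨x, hV i hx⟩

theorem trees {m : ℕ} (hm : 1 ≤ m) {𝓑 : Set (Fin m → ℤ)}
    (h𝓑 : ∀ z ∈ 𝓑, ∀ t : ℤ, (fun i => z i + t) ∈ 𝓑) (hinj : ∀ z ∈ 𝓑, Function.Injective z)
    (H : ∀ (J : ℕ) (α : Fin J → ℝ) (ρ : ℝ), 0 < ρ → UBDm (𝓑 ∩ near m α ρ)) (s : ℕ) (hs : 1 ≤ s)
    (j : ℕ) : ∀ S : Set ℤ, UBD S → ∃ X : Finset ℤ, Tree 𝓑 s j X ∧ ∀ x ∈ X, x ∈ S := by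
  classical
  induction j with
  | zero => exact fun S hS => tree_zero 𝓑 s S hS
  | succ j ih =>
    intro S hS
    obtain ⟨J, α, ρ, γ, hρ, hγ, hcor⟩ := corr_many hm hS
    obtain ⟨δ, hδ, hδX⟩ := H J α ρ hρ
    obtain ⟨X₁, hX₁⟩ := hcor δ hδ
    obtain ⟨X₂, hX₂⟩ := prod (P := Tree 𝓑 s j)
      (fun ε hε => comp (P := Tree 𝓑 s j) (fun X t hX => tree_translate h𝓑 s j X t hX) ih hε) m
      (γ * δ) (mul_pos hγ hδ)
    obtain ⟨X, hX, hXpos, z, hz⟩ := hδX (max X₁ X₂)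
    set 𝒞 : Finset (Fin m → ℤ) := (cube z X).filter (fun x => x ∈ 𝓑 ∩ near m α ρ) with h𝒞
    have hz' : δ * (X : ℝ) ^ m ≤ (𝒞.card : ℝ) := by
      rw [h𝒞]
      convert hz
    obtain ⟨t, ht⟩ := hX₁ X ((le_max_left _ _).trans hX) z 𝒞 (Finset.filter_subset _ _)
      (fun C hC => (Finset.mem_filter.1 hC).2.2) hz'
    set E : Finset (Fin m → ℤ) := 𝒞.filter (fun C => ∀ i, t + C i ∈ S) with hE
    have hEc : γ * δ * (X : ℝ) ^ m ≤ (E.card : ℝ) := by
      refine le_trans ?_ ht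
      rw [mul_assoc]
      exact mul_le_mul_of_nonneg_left hz' hγ.le
    obtain ⟨Y, hY, hYE⟩ := hX₂ X ((le_max_right _ _).trans hX) hXpos z E
      ((Finset.filter_subset _ _).trans (Finset.filter_subset _ _)) hEc
    have hT : Tree 𝓑 s (j + 1) (Finset.univ.biUnion Y) := by
      refine tree_step hm hinj s j hs Y hY ?_
      intro x hx
      exact (Finset.mem_filter.1 (Finset.mem_filter.1 (hYE x hx)).1).2.1
    refine ⟨(Finset.univ.biUnion Y).image (fun x => x + t),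
      tree_translate h𝓑 s (j + 1) _ t hT, ?_⟩
    intro x hx
    obtain ⟨y, hy, rfl⟩ := Finset.mem_image.1 hx
    obtain ⟨i, -, hi⟩ := Finset.mem_biUnion.1 hy
    have hne : ∀ i', (Y i').Nonempty := fun i' => tree_nonempty hm hs (hY i')
    choose q hq using hne
    have h1 := hYE (Function.update q i y) (by
      intro i'
      by_cases h : i' = i
      · subst h
        rw [Function.update_self]
        exact hi
      · rw [Function.update_of_ne h]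
        exact hq i')
    have h2 := (Finset.mem_filter.1 h1).2 i
    rw [Function.update_self, add_comm] at h2
    exact h2

end Pool.Agent.H74.BT
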