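import Pool.Agent.H74.BT.Defs

/-!
[H74 BT BILIN]  Averages of products of two linear combinations of translates of `1_S`.

Proof.  Both sides are bilinear: `av (act p (ind S) * act q (ind S)) = ∑_{b,b'} p b q b' av (ind S (t+b) ind S (t+b'))`
and `∫ conj (hat p) hat q dσ = ∑_{b,b'} p b q b' ∫ fourier (b' - b) dσ` (`fourier_add`, `fourier_neg`).  For
`|b| ≤ M`: `L * av (ind S (t+b) ind S (t+b')) = #{n ∈ (a+b, a+b+L] : n ∈ S, n + (b'-b) ∈ S}` differs from
`L * corr S a L (b' - b)` by at most `|b| ≤ M` (the windows `(a,a+L]` and `(a+b,a+b+L]` differ by `|b|`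
elements on each side), and `|b' - b| ≤ 2M`.  (See the private lemmas in `Pool/Agent/H92/BH/Atom.lean`.)
`window`: apply it to `p = single 0 1 - w` and translates: `shf c p = p.mapDomain (· + c)`,
`act (shf c p) f t = act p f (t + c)`, `hat (shf c p) θ = fourier c θ * hat p θ`, `nrm (shf c p) = nrm p`.
-/

namespace Pool.Agent.H74.BT

open Finset Filter Topology MeasureTheory Pool.Agent.H92.BH

/-- translation of the coefficients -/
noncomputable def shf (c : ℤ) (p : ℤ →₀ ℝ) : ℤ →₀ ℝ := p.mapDomain (fun b => b + c)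

theorem act_shf (c : ℤ) (p : ℤ →₀ ℝ) (f : ℤ → ℝ) (t : ℤ) : act (shf c p) f t = act p f (t + c) := by
  unfold act shf
  rw [Finsupp.sum_mapDomain_index_inj (fun x y h => add_right_cancel h)]
  refine Finsupp.sum_congr fun b _ => ?_
  rw [show t + (b + c) = t + c + b by ring]

theorem hat_shf (c : ℤ) (p : ℤ →₀ ℝ) (θ : UnitAddCircle) :
    hat (shf c p) θ = fourier c θ * hat p θ := by
  unfold hat shf
  rw [Finsupp.sum_mapDomain_index_inj (fun x y h => add_right_cancel h), Finsupp.mul_sum]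
  refine Finsupp.sum_congr fun b _ => ?_
  rw [fourier_add]
  ring

theorem nrm_shf (c : ℤ) (p : ℤ →₀ ℝ) : nrm (shf c p) = nrm p := by
  unfold nrm shf
  rw [Finsupp.sum_mapDomain_index_inj (fun x y h => add_right_cancel h)]

theorem shf_supp (c : ℤ) (p : ℤ →₀ ℝ) (b : ℤ) (hb : b ∈ (shf c p).support) :
    b - c ∈ p.support := by
  have h1 := Finsupp.mapDomain_support hb
  rw [Finset.mem_image] at h1
  obtain ⟨b', hb', rfl⟩ := h1
  rw [add_sub_cancel_right]
  exact hb'

private theorem ioc_cons (g : ℤ → ℝ) (a b c : ℤ) (hab : a ≤ b) (hbc : b ≤ c) :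
    ∑ t ∈ Finset.Ioc a b, g t + ∑ t ∈ Finset.Ioc b c, g t = ∑ t ∈ Finset.Ioc a c, g t := by
  rw [← Finset.sum_union, Finset.Ioc_union_Ioc_eq_Ioc hab hbc]
  exact Finset.Ioc_disjoint_Ioc_of_le le_rfl

private theorem ioc_bd (g : ℤ → ℝ) (h0 : ∀ n, 0 ≤ g n) (h1 : ∀ n, g n ≤ 1) (a : ℤ) (i : ℕ) :
    0 ≤ ∑ t ∈ Finset.Ioc a (a + i), g t ∧ ∑ t ∈ Finset.Ioc a (a + i), g t ≤ i := by
  refine ⟨Finset.sum_nonneg fun t _ => h0 t, ?_⟩
  refine (Finset.sum_le_sum fun t _ => h1 t).trans (le_of_eq ?_)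
  rw [Finset.sum_const, Int.card_Ioc, nsmul_eq_mul, mul_one]
  have : (a + (i : ℤ) - a).toNat = i := by
    rw [add_sub_cancel_left]
    exact Int.toNat_natCast i
  rw [this]

private theorem ioc_shift (g : ℤ → ℝ) (a : ℤ) (L : ℕ) (b : ℤ) :
    ∑ t ∈ Finset.Ioc a (a + L), g (t + b) = ∑ t ∈ Finset.Ioc (a + b) (a + b + L), g t := by
  refine Finset.sum_bij (fun t _ => t + b) ?_ ?_ ?_ ?_
  · intro t ht
    rw [Finset.mem_Ioc] at ht ⊢
    omega
  · intro t _ t' _ h
    exact add_right_cancel h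
  · intro t ht
    rw [Finset.mem_Ioc] at ht
    refine ⟨t - b, ?_, by ring⟩
    rw [Finset.mem_Ioc]
    omega
  · intro t _
    rfl

private theorem win_nat (g : ℤ → ℝ) (h0 : ∀ n, 0 ≤ g n) (h1 : ∀ n, g n ≤ 1) (a : ℤ) (L i : ℕ) :
    |∑ t ∈ Finset.Ioc (a + i) (a + i + L), g t - ∑ t ∈ Finset.Ioc a (a + L), g t| ≤ i := by
  have e1 := ioc_cons g a (a + i) (a + i + L) (by omega) (by omega)
  have e2 := ioc_cons g a (a + L) (a + i + L) (by omega) (by omega)
  have b1 := ioc_bd g h0 h1 a i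
  have b2 := ioc_bd g h0 h1 (a + L) i
  rw [show a + (L : ℤ) + (i : ℤ) = a + i + L by ring] at b2
  rw [abs_le]
  constructor <;> linarith [b1.1, b1.2, b2.1, b2.2]

private theorem win (g : ℤ → ℝ) (h0 : ∀ n, 0 ≤ g n) (h1 : ∀ n, g n ≤ 1) (a : ℤ) (L M : ℕ) (b : ℤ)
    (hb : |b| ≤ M) :
    |∑ t ∈ Finset.Ioc a (a + L), g (t + b) - ∑ t ∈ Finset.Ioc a (a + L), g t| ≤ M := by
  rw [ioc_shift]
  have hM : ((|b| : ℤ) : ℝ) ≤ M := by exact_mod_cast hb
  rcases le_total 0 b with hb0 | hb0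
  · obtain ⟨i, rfl⟩ := Int.eq_ofNat_of_zero_le hb0
    refine (win_nat g h0 h1 a L i).trans ?_
    rw [abs_of_nonneg hb0] at hM
    exact_mod_cast hM
  · obtain ⟨i, hi⟩ := Int.eq_ofNat_of_zero_le (neg_nonneg.2 hb0)
    have hb' : b = -(i : ℤ) := by
      have : -b = (i : ℤ) := hi
      omega
    have h2 := win_nat g h0 h1 (a + b) L i
    rw [show a + b + (i : ℤ) = a by rw [hb']; ring] at h2
    rw [abs_sub_comm]
    refine h2.trans ?_
    rw [abs_of_nonpos hb0, hi] at hM
    exact_mod_cast hM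

open Classical in
private theorem ind_mul (S : Set ℤ) (n m : ℤ) :
    ind S n * ind S m = if n ∈ S ∧ m ∈ S then 1 else 0 := by
  unfold ind
  by_cases h1 : n ∈ S <;> by_cases h2 : m ∈ S <;> simp [h1, h2]

private theorem av_corr (S : Set ℤ) (a : ℤ) (L M : ℕ) (hL : 0 < L) (b b' : ℤ) (hb : |b| ≤ M) :
    |av a L (fun t => ind S (t + b) * ind S (t + b')) - corr S a L (b' - b)| ≤ M / L := by
  have hL' : (0 : ℝ) < L := by exact_mod_cast hL
  have e1 : corr S a L (b' - b) =
      (∑ t ∈ Finset.Ioc a (a + L), ind S t * ind S (t + (b' - b))) / L := by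
    unfold corr
    congr 1
    rw [Finset.card_eq_sum_ones, Finset.sum_filter]
    push_cast
    refine Finset.sum_congr rfl fun t _ => ?_
    rw [ind_mul]
  have e2 : av a L (fun t => ind S (t + b) * ind S (t + b')) =
      (∑ t ∈ Finset.Ioc a (a + L), ind S (t + b) * ind S (t + b + (b' - b))) / L := by
    unfold av
    congr 1
    refine Finset.sum_congr rfl fun t _ => ?_
    rw [show t + b + (b' - b) = t + b' by ring]
  rw [e1, e2, ← sub_div, abs_div, abs_of_pos hL']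
  refine div_le_div_of_nonneg_right ?_ hL'.le
  refine win (fun t => ind S t * ind S (t + (b' - b))) ?_ ?_ a L M b hb
  · intro n
    simp only [ind_mul]
    split_ifs <;> norm_num
  · intro n
    simp only [ind_mul]
    split_ifs <;> norm_num

private theorem fourier_integrable (σ : Measure UnitAddCircle) [IsFiniteMeasure σ] (n : ℤ) :
    Integrable (fun θ : UnitAddCircle => (fourier n θ : ℂ)) σ := by
  refine Integrable.of_bound (C := 1) (Continuous.aestronglyMeasurable (by fun_prop)) ?_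
  filter_upwards with θ
  exact (ContinuousMap.norm_coe_le_norm (fourier n) θ).trans (le_of_eq (fourier_norm n))

private theorem integral_hat (σ : Measure UnitAddCircle) [IsFiniteMeasure σ] (p q : ℤ →₀ ℝ) :
    ∫ θ, (starRingEnd ℂ) (hat p θ) * hat q θ ∂σ =
      ∑ b ∈ p.support, ∑ b' ∈ q.support, ((p b : ℂ) * (q b' : ℂ)) * ∫ θ, fourier (b' - b) θ ∂σ := by
  have e1 : ∀ θ : UnitAddCircle, (starRingEnd ℂ) (hat p θ) * hat q θ =
      ∑ b ∈ p.support, ∑ b' ∈ q.support, ((p b : ℂ) * (q b' : ℂ)) * fourier (b' - b) θ := by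
    intro θ
    unfold hat Finsupp.sum
    rw [map_sum, Finset.sum_mul_sum]
    refine Finset.sum_congr rfl fun b _ => Finset.sum_congr rfl fun b' _ => ?_
    rw [map_mul, Complex.conj_ofReal, ← fourier_neg, sub_eq_add_neg, fourier_add]
    ring
  simp only [e1]
  rw [integral_finsetSum]
  · refine Finset.sum_congr rfl fun b _ => ?_
    rw [integral_finsetSum]
    · refine Finset.sum_congr rfl fun b' _ => ?_
      rw [integral_const_mul]
    · intro b' _
      exact (fourier_integrable σ _).const_mul _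
  · intro b _
    refine integrable_finsetSum _ fun b' _ => ?_
    exact (fourier_integrable σ _).const_mul _

private theorem av_act (S : Set ℤ) (a : ℤ) (L : ℕ) (p q : ℤ →₀ ℝ) :
    av a L (fun t => act p (ind S) t * act q (ind S) t) =
      ∑ b ∈ p.support, ∑ b' ∈ q.support, (p b * q b') *
        av a L (fun t => ind S (t + b) * ind S (t + b')) := by
  unfold av act Finsupp.sum
  have e1 : ∀ t : ℤ, (∑ b ∈ p.support, p b * ind S (t + b)) * (∑ b' ∈ q.support, q b' * ind S (t + b')) =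
      ∑ b ∈ p.support, ∑ b' ∈ q.support, (p b * q b') * (ind S (t + b) * ind S (t + b')) := by
    intro t
    rw [Finset.sum_mul_sum]
    refine Finset.sum_congr rfl fun b _ => Finset.sum_congr rfl fun b' _ => ?_
    ring
  simp only [e1]
  rw [Finset.sum_comm, Finset.sum_div]
  refine Finset.sum_congr rfl fun b _ => ?_
  rw [Finset.sum_comm, Finset.sum_div]
  refine Finset.sum_congr rfl fun b' _ => ?_
  rw [← Finset.mul_sum, mul_div_assoc]

theorem bilin {S : Set ℤ} (σ : Measure UnitAddCircle) [IsFiniteMeasure σ] (a : ℤ) (L M : ℕ)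
    (hL : 0 < L) {η : ℝ} (h : ∀ d : ℤ, |d| ≤ 2 * M →
      ‖(∫ θ, fourier d θ ∂σ) - ((corr S a L d : ℝ) : ℂ)‖ ≤ η) (p q : ℤ →₀ ℝ)
    (hp : ∀ b ∈ p.support, |b| ≤ M) (hq : ∀ b ∈ q.support, |b| ≤ M) :
    ‖((av a L (fun t => act p (ind S) t * act q (ind S) t) : ℝ) : ℂ) -
      ∫ θ, (starRingEnd ℂ) (hat p θ) * hat q θ ∂σ‖ ≤ nrm p * nrm q * (η + M / L) := by
  rw [av_act, integral_hat]
  push_cast
  rw [← Finset.sum_sub_distrib]
  have e2 : nrm p * nrm q * (η + M / L) =
      ∑ b ∈ p.support, ∑ b' ∈ q.support, (|p b| * |q b'|) * (η + M / L) := by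
    unfold nrm Finsupp.sum
    rw [Finset.sum_mul_sum, Finset.sum_mul]
    refine Finset.sum_congr rfl fun b _ => ?_
    rw [Finset.sum_mul]
  rw [e2]
  refine (norm_sum_le _ _).trans (Finset.sum_le_sum fun b hb => ?_)
  rw [← Finset.sum_sub_distrib]
  refine (norm_sum_le _ _).trans (Finset.sum_le_sum fun b' hb' => ?_)
  rw [← mul_sub, norm_mul, norm_mul, Complex.norm_real, Complex.norm_real, Real.norm_eq_abs,
    Real.norm_eq_abs]
  refine mul_le_mul_of_nonneg_left ?_ (by positivity)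
  have hd : |b' - b| ≤ 2 * (M : ℤ) := by
    have h1 := hp b hb
    have h2 := hq b' hb'
    rw [abs_le] at h1 h2 ⊢
    constructor <;> omega
  have h3 := h (b' - b) hd
  have h4 := av_corr S a L M hL b b' (hp b hb)
  have h5 : ‖((av a L (fun t => ind S (t + b) * ind S (t + b')) : ℝ) : ℂ) -
      ((corr S a L (b' - b) : ℝ) : ℂ)‖ ≤ M / L := by
    rw [← Complex.ofReal_sub, Complex.norm_real, Real.norm_eq_abs]
    exact h4
  have h6 : ((av a L (fun t => ind S (t + b) * ind S (t + b')) : ℝ) : ℂ) -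
      ∫ θ, fourier (b' - b) θ ∂σ = (((av a L (fun t => ind S (t + b) * ind S (t + b')) : ℝ) : ℂ) -
      ((corr S a L (b' - b) : ℝ) : ℂ)) -
      ((∫ θ, fourier (b' - b) θ ∂σ) - ((corr S a L (b' - b) : ℝ) : ℂ)) := by ring
  rw [h6]
  refine (norm_sub_le _ _).trans ?_
  linarith

end Pool.Agent.H74.BT
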