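import Pool.Agent.H74.BT.Defs
import Pool.Agent.H21.MT.Sieve

/-!
[H74 BT BLOCK]  The block property of the primes.

Proof.  `c₀ = 10^(-20) / (200 (r + 1))`.  Given `k ≥ 1`: `l = 10 k`, `s = 2 ^ l`, `W = (k s)!`.  Given `V`, replace every `V j` by a subset with exactly
`s` elements.  Let `I = Σ j, V j` (or `ι × Fin s`), `|I| = k s`, and let `x i ∈ ℤ` be the element of `i ∈ I`; the `x i` are distinct
(disjointness) and divisible by `W`; let `x₀` be the minimum, `h i = (x i - x₀).toNat`: an injective family of naturals divisible by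
`W`.  Admissible (hypothesis of `Pool.Agent.H21.MT.sieve`): for a prime `p ≤ k s` all `h i` are divisible by `p`, take `a = 1`; for a prime
`p > k s` the classes `-h i` do not cover `ℤ/p` (see `Pool/Agent/H92/BH/Pair.lean`, `good_pair`/`no_clique`, for both parts).
`tau = 1/(10 k s (l+1))`, `l i = l`; `2^l tau = 1/(10 k (l+1)) ≤ 1/2`, `∑ (l+1) tau = 1/10`.  `θ = tau (l+2)^2`,
`s θ = (l+2)^2/(10 k (l+1)) ≥ 1`.  For every `N0` the sieve gives `T`, `μ`; for `j : ι` let `Y_j N = #{i in block j : N + h i prime}`.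
`∑ μ Y_j ≥ s 10^(-10) θ`, and `∑ μ Y_j^2 = ∑_{i,i'} μ(both prime) ≤ 32 s θ + 32 * 4 (s θ)^2 ≤ 160 (s θ)^2` (singletons and pairs).
Cauchy-Schwarz: `(∑ μ Y_j)^2 ≤ μ(Y_j ≥ 1) ∑ μ Y_j^2`, so `μ(Y_j ≥ 1) ≥ 10^(-20)/160`.  Sum over `j`: some `N ∈ T`, `N > N0`, has at least
`k 10^(-20)/160` blocks with a prime `N + h i`.  By pigeonhole over the colours (`r ≥ 1` since `c 0 : Fin r`) one colour `i₁` has primes of
this colour in at least `k 10^(-20)/(160 r)` blocks.  Let `N0 → ∞`: there are finitely many pairs (colour, set of the `i ∈ I` with `N + h i`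
a prime of this colour), so one pair occurs for infinitely many `N`; `F = {x i}` for this set.  `N + h i = N' + x i` with
`N' = N - x₀ : ℤ` (the set of the `N' ≥ 0` is infinite, too).
-/

namespace Pool.Agent.H74.BT

open Finset Pool.Agent.H92.BH

/-- all `N + x`, `x ∈ F`, are primes of colour `i`, for infinitely many `N` -/
def GoodS {r : ℕ} (c : ℕ → Fin r) (i : Fin r) (F : Set ℤ) : Prop :=
  {N : ℕ | ∀ x ∈ F, ((N : ℤ) + x).toNat.Prime ∧ c ((N : ℤ) + x).toNat = i}.Infinite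

/-- second moment method in every block -/
private theorem blk_sieve {ι : Type} [Fintype ι] [DecidableEq ι] (k : ℕ) (hk : 1 ≤ k)
    (hι : Fintype.card ι = k) (l : ℕ) (hl : l = 10 * k) (h : ι × Fin (2 ^ l) → ℕ)
    (hinj : Function.Injective h)
    (hadm : ∀ p : ℕ, p.Prime → ∃ a : ℕ, ∀ i, ¬ p ∣ a + h i) (N0 : ℕ) :
    ∃ N, N0 < N ∧ (k : ℝ) * (1 / (160 * 10 ^ 20)) ≤
      ((univ.filter (fun j : ι => ∃ a, (N + h (j, a)).Prime)).card : ℝ) := by
  classical
  have hk0 : (1 : ℝ) ≤ k := by exact_mod_cast hk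
  have hs0 : (0 : ℝ) < (2 : ℝ) ^ l := by positivity
  have hl0 : (0 : ℝ) < (l : ℝ) + 1 := by positivity
  have hlk : (l : ℝ) = 10 * k := by rw [hl]; push_cast; ring
  set τ : ℝ := 1 / (10 * k * 2 ^ l * ((l : ℝ) + 1)) with hτ
  have hτ0 : 0 < τ := by positivity
  have e1 : (k : ℝ) * 2 ^ l * (((l : ℝ) + 1) * τ) = 1 / 10 := by
    rw [hτ]
    field_simp
  have hne : Nonempty (ι × Fin (2 ^ l)) := by
    have h1 : 0 < Fintype.card ι := by omega
    obtain ⟨j⟩ := Fintype.card_pos_iff.1 h1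
    exact ⟨(j, ⟨0, by positivity⟩)⟩
  have h2 : (2 : ℝ) ^ l * τ ≤ 1 / 2 := by
    have h3 : (2 : ℝ) ^ l * τ * 1 ≤ (2 : ℝ) ^ l * τ * (k * ((l : ℝ) + 1)) := by
      refine mul_le_mul_of_nonneg_left ?_ (by positivity)
      have : (0 : ℝ) ≤ l := Nat.cast_nonneg l
      nlinarith
    have h4 : (2 : ℝ) ^ l * τ * (k * ((l : ℝ) + 1)) = 1 / 10 := by rw [← e1]; ring
    linarith
  obtain ⟨T, μ, hT, hμ, hsum, hm, hS⟩ := Pool.Agent.H21.MT.sieve h hinj hadm (fun _ => τ)
    (fun _ => l) (fun _ => hτ0) (fun _ => h2) (by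
      rw [Finset.sum_const, Finset.card_univ, Fintype.card_prod, Fintype.card_fin, hι,
        nsmul_eq_mul]
      push_cast
      rw [e1]) N0
  set θ : ℝ := τ * ((l : ℝ) + 2) ^ 2 with hθ
  have hθ0 : 0 < θ := by positivity
  set L : ℝ := 2 ^ l * θ with hL
  have hL1 : 1 ≤ L := by
    have h3 : L * (10 * k * ((l : ℝ) + 1)) = ((l : ℝ) + 2) ^ 2 := by
      rw [hL, hθ, hτ]
      field_simp
    have h4 : (0 : ℝ) < 10 * k * ((l : ℝ) + 1) := by positivity
    have h5 : 10 * k * ((l : ℝ) + 1) ≤ ((l : ℝ) + 2) ^ 2 := by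
      rw [← hlk]
      have : (0 : ℝ) ≤ l := Nat.cast_nonneg l
      nlinarith
    by_contra hcon
    push Not at hcon
    have h6 := mul_lt_mul_of_pos_right hcon h4
    linarith
  have hL0 : 0 < L := by linarith
  -- indicators
  set f : ι → Fin (2 ^ l) → ℕ → ℝ := fun j a N => if (N + h (j, a)).Prime then 1 else 0 with hf
  set Y : ι → ℕ → ℝ := fun j N => ∑ a, f j a N with hY
  set g : ι → ℕ → ℝ := fun j N => if ∃ a, (N + h (j, a)).Prime then 1 else 0 with hg
  -- first moment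
  have m1 : ∀ j, (1 / 10 ^ 10) * L ≤ ∑ N ∈ T, μ N * Y j N := by
    intro j
    have h3 : ∑ N ∈ T, μ N * Y j N = ∑ a, ∑ N ∈ T.filter (fun N => (N + h (j, a)).Prime), μ N := by
      have h4 : ∀ N ∈ T, μ N * Y j N = ∑ a, (if (N + h (j, a)).Prime then μ N else 0) := by
        intro N _
        simp only [hY, hf]
        rw [mul_sum]
        refine sum_congr rfl fun a _ => ?_
        split_ifs
        · rw [mul_one]
        · rw [mul_zero]
      rw [sum_congr rfl h4, sum_comm]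
      refine sum_congr rfl fun a _ => ?_
      rw [sum_filter]
    rw [h3]
    have h5 : ∑ a : Fin (2 ^ l), (1 / 10 ^ 10) * θ ≤
        ∑ a, ∑ N ∈ T.filter (fun N => (N + h (j, a)).Prime), μ N :=
      sum_le_sum fun a _ => hm (j, a)
    rw [sum_const, card_univ, Fintype.card_fin, nsmul_eq_mul] at h5
    push_cast at h5
    refine le_trans (le_of_eq ?_) h5
    rw [hL]
    ring
  -- second moment
  have m2 : ∀ j, ∑ N ∈ T, μ N * (Y j N) ^ 2 ≤ 160 * L ^ 2 := by
    intro j
    have h3 : ∑ N ∈ T, μ N * (Y j N) ^ 2 = ∑ a, ∑ a', ∑ N ∈ T, μ N * (f j a N * f j a' N) := by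
      have h4 : ∀ N ∈ T, μ N * (Y j N) ^ 2 = ∑ a, ∑ a', μ N * (f j a N * f j a' N) := by
        intro N _
        simp only [hY]
        rw [sq, sum_mul_sum, mul_sum]
        refine sum_congr rfl fun a _ => ?_
        rw [mul_sum]
      rw [sum_congr rfl h4, sum_comm]
      refine sum_congr rfl fun a _ => ?_
      rw [sum_comm]
    rw [h3]
    have h5 : ∀ a a' : Fin (2 ^ l), ∑ N ∈ T, μ N * (f j a N * f j a' N) ≤
        128 * θ ^ 2 + (if a = a' then 32 * θ else 0) := by
      intro a a'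
      have h6 : ∑ N ∈ T, μ N * (f j a N * f j a' N) =
          ∑ N ∈ T.filter (fun N => ∀ i ∈ ({(j, a), (j, a')} : Finset (ι × Fin (2 ^ l))),
            (N + h i).Prime), μ N := by
        rw [sum_filter]
        refine sum_congr rfl fun N _ => ?_
        simp only [hf, mem_insert, mem_singleton, forall_eq_or_imp, forall_eq]
        by_cases c1 : (N + h (j, a)).Prime <;> by_cases c2 : (N + h (j, a')).Prime <;>
          simp [c1, c2]
      rw [h6]
      refine (hS _ ⟨(j, a), by simp⟩).trans ?_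
      by_cases haa : a = a'
      · subst haa
        rw [if_pos rfl]
        simp only [pair_eq_singleton, card_singleton, prod_singleton, Nat.cast_one, one_mul]
        have : 0 ≤ θ ^ 2 := sq_nonneg θ
        linarith
      · rw [if_neg haa]
        have hne' : (j, a) ≠ (j, a') := fun he => haa (Prod.ext_iff.1 he).2
        rw [prod_pair hne', card_pair hne']
        push_cast
        have h7 : (32 : ℝ) * (2 * (τ * ((l : ℝ) + 2) ^ 2) * (2 * (τ * ((l : ℝ) + 2) ^ 2))) =
            128 * θ ^ 2 := by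
          rw [hθ]
          ring
        rw [h7, add_zero]
    have h6 : ∑ a : Fin (2 ^ l), ∑ a' : Fin (2 ^ l),
        (128 * θ ^ 2 + (if a = a' then 32 * θ else 0)) = 128 * L ^ 2 + 32 * L := by
      simp only [sum_add_distrib, sum_const, card_univ, Fintype.card_fin, nsmul_eq_mul,
        sum_ite_eq, mem_univ, if_true]
      push_cast
      rw [hL]
      ring
    refine (sum_le_sum fun a _ => sum_le_sum fun a' _ => h5 a a').trans ?_
    rw [h6]
    nlinarith
  -- probability that a block contains a prime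
  have m3 : ∀ j, 1 / (160 * 10 ^ 20) ≤ ∑ N ∈ T, μ N * g j N := by
    intro j
    set t : ℝ := 1 / (160 * 10 ^ 10 * L) with ht
    have ht0 : 0 < t := by positivity
    have h3 : ∀ N ∈ T, μ N * (2 * t * Y j N - t ^ 2 * (Y j N) ^ 2) ≤ μ N * g j N := by
      intro N _
      refine mul_le_mul_of_nonneg_left ?_ (hμ N)
      by_cases hex : ∃ a, (N + h (j, a)).Prime
      · simp only [hg]
        rw [if_pos hex]
        nlinarith [sq_nonneg (1 - t * Y j N)]
      · simp only [hg]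
        rw [if_neg hex]
        have : Y j N = 0 := by
          simp only [hY, hf]
          refine sum_eq_zero fun a _ => ?_
          rw [if_neg]
          exact fun hp => hex ⟨a, hp⟩
        rw [this]
        simp
    refine le_trans ?_ (sum_le_sum h3)
    have h4 : ∑ N ∈ T, μ N * (2 * t * Y j N - t ^ 2 * (Y j N) ^ 2) =
        2 * t * ∑ N ∈ T, μ N * Y j N - t ^ 2 * ∑ N ∈ T, μ N * (Y j N) ^ 2 := by
      rw [mul_sum, mul_sum, ← sum_sub_distrib]
      refine sum_congr rfl fun N _ => ?_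
      ring
    rw [h4]
    have h5 : 2 * t * ((1 / 10 ^ 10) * L) ≤ 2 * t * ∑ N ∈ T, μ N * Y j N :=
      mul_le_mul_of_nonneg_left (m1 j) (by positivity)
    have h6 : t ^ 2 * ∑ N ∈ T, μ N * (Y j N) ^ 2 ≤ t ^ 2 * (160 * L ^ 2) :=
      mul_le_mul_of_nonneg_left (m2 j) (by positivity)
    have h7 : 2 * t * ((1 / 10 ^ 10) * L) - t ^ 2 * (160 * L ^ 2) = 1 / (160 * 10 ^ 20) := by
      rw [ht]
      field_simp
      norm_num
    linarith
  -- sum over the blocks
  by_contra hcon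
  push Not at hcon
  have hgs : ∀ N, ∑ j, g j N =
      ((univ.filter (fun j : ι => ∃ a, (N + h (j, a)).Prime)).card : ℝ) := by
    intro N
    simp only [hg]
    rw [card_filter]
    push_cast
    rfl
  have h3 : (k : ℝ) * (1 / (160 * 10 ^ 20)) ≤ ∑ N ∈ T, μ N *
      ((univ.filter (fun j : ι => ∃ a, (N + h (j, a)).Prime)).card : ℝ) := by
    have h4 : ∑ j : ι, (1 / (160 * 10 ^ 20) : ℝ) ≤ ∑ j, ∑ N ∈ T, μ N * g j N :=
      sum_le_sum fun j _ => m3 j
    rw [sum_const, card_univ, hι, nsmul_eq_mul, sum_comm] at h4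
    refine h4.trans (le_of_eq ?_)
    refine sum_congr rfl fun N _ => ?_
    rw [← mul_sum, hgs]
  obtain ⟨N₁, hN₁, hN₁'⟩ : ∃ N ∈ T, μ N ≠ 0 := by
    refine exists_ne_zero_of_sum_ne_zero ?_
    rw [hsum]
    exact one_ne_zero
  have hN₁p : 0 < μ N₁ := lt_of_le_of_ne (hμ N₁) (Ne.symm hN₁')
  have h5 : ∑ N ∈ T, μ N * ((univ.filter (fun j : ι => ∃ a, (N + h (j, a)).Prime)).card : ℝ) <
      ∑ N ∈ T, μ N * ((k : ℝ) * (1 / (160 * 10 ^ 20))) := by
    refine sum_lt_sum (fun N hN => ?_) ⟨N₁, hN₁, ?_⟩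
    · exact mul_le_mul_of_nonneg_left (hcon N (hT N hN)).le (hμ N)
    · exact mul_lt_mul_of_pos_left (hcon N₁ (hT N₁ hN₁)) hN₁p
  rw [← sum_mul, hsum, one_mul] at h5
  linarith

theorem block (r : ℕ) : ∃ c₀ : ℝ, 0 < c₀ ∧ ∀ k : ℕ, 1 ≤ k → ∃ s W : ℕ, 1 ≤ s ∧ 0 < W ∧
    ∀ (c : ℕ → Fin r) (ι : Type) (_ : Fintype ι) (V : ι → Finset ℤ), Fintype.card ι = k →
      (∀ j j', j ≠ j' → Disjoint (V j) (V j')) → (∀ j, s ≤ (V j).card) →
      (∀ j, ∀ x ∈ V j, (W : ℤ) ∣ x) →
      ∃ (i : Fin r) (F : Finset ℤ), GoodS c i F ∧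
        c₀ * k ≤ (({j | ∃ x ∈ V j, x ∈ F}.ncard : ℕ) : ℝ) := by
  classical
  refine ⟨1 / (160 * 10 ^ 20 * (r + 1)), by positivity, fun k hk => ?_⟩
  refine ⟨2 ^ (10 * k), (k * 2 ^ (10 * k)).factorial, Nat.one_le_two_pow, Nat.factorial_pos _, ?_⟩
  intro c ι hfin V hcard hdisj hs hW
  set l : ℕ := 10 * k with hl
  set W : ℕ := (k * 2 ^ l).factorial with hWd
  have hWpos : 1 ≤ W := Nat.factorial_pos _
  -- subsets with exactly `2 ^ l` elements
  have hV' : ∀ j, ∃ U : Finset ℤ, U ⊆ V j ∧ U.card = 2 ^ l := fun j =>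
    exists_subset_card_eq (hs j)
  choose U hUV hUc using hV'
  let e : ∀ j, Fin (2 ^ l) ≃ U j := fun j => ((U j).equivFinOfCardEq (hUc j)).symm
  let x : ι × Fin (2 ^ l) → ℤ := fun i => ((e i.1 i.2 : U i.1) : ℤ)
  have hxU : ∀ i, x i ∈ U i.1 := fun i => (e i.1 i.2).2
  have hxV : ∀ i, x i ∈ V i.1 := fun i => hUV _ (hxU i)
  have hxinj : Function.Injective x := by
    rintro ⟨j, a⟩ ⟨j', a'⟩ hxx
    have hj : j = j' := by
      by_contra hne
      have h1 := hxV (j, a)
      have h2 := hxV (j', a')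
      rw [← hxx] at h2
      exact Finset.disjoint_left.1 (hdisj j j' hne) h1 h2
    subst hj
    have h3 : e j a = e j a' := Subtype.ext hxx
    rw [(e j).injective h3]
  -- shift to natural numbers
  set B : ℕ := ∑ i, (x i).natAbs with hB
  have hBle : ∀ i, -(B : ℤ) ≤ x i := by
    intro i
    have h1 : (x i).natAbs ≤ B := single_le_sum (f := fun i => (x i).natAbs)
      (fun _ _ => Nat.zero_le _) (mem_univ i)
    omega
  let h : ι × Fin (2 ^ l) → ℕ := fun i => (x i + (B * W : ℕ)).toNat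
  have hh : ∀ i, (h i : ℤ) = x i + (B * W : ℕ) := by
    intro i
    refine Int.toNat_of_nonneg ?_
    have h1 := hBle i
    have h2 : B ≤ B * W := Nat.le_mul_of_pos_right _ hWpos
    have h3 : (B : ℤ) ≤ ((B * W : ℕ) : ℤ) := by exact_mod_cast h2
    omega
  have hinj : Function.Injective h := by
    intro a b hab
    apply hxinj
    have h1 := hh a
    have h2 := hh b
    rw [hab] at h1
    omega
  have hWh : ∀ i, W ∣ h i := by
    intro i
    have h1 : ((W : ℕ) : ℤ) ∣ (h i : ℤ) := by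
      rw [hh i]
      refine dvd_add (hW i.1 _ (hxV i)) ?_
      push_cast
      exact dvd_mul_left _ _
    exact_mod_cast h1
  have hadm : ∀ p : ℕ, p.Prime → ∃ a : ℕ, ∀ i, ¬ p ∣ a + h i := by
    intro p hp
    by_cases hpk : p ≤ k * 2 ^ l
    · refine ⟨1, fun i hdvd => ?_⟩
      have h1 : p ∣ h i := (hp.dvd_factorial.mpr hpk).trans (hWh i)
      have h2 : p ∣ 1 := (Nat.dvd_add_left h1).mp hdvd
      exact hp.one_lt.ne' (Nat.dvd_one.mp h2)
    · have : Fact p.Prime := ⟨hp⟩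
      have hns : ¬ Function.Surjective
          (fun i : ι × Fin (2 ^ l) => -((h i : ℕ) : ZMod p)) := by
        intro hs
        have := Fintype.card_le_of_surjective _ hs
        rw [Fintype.card_prod, Fintype.card_fin, ZMod.card, hcard] at this
        omega
      rw [Function.Surjective] at hns
      push Not at hns
      obtain ⟨c', hc'⟩ := hns
      refine ⟨c'.val, fun i hdvd => ?_⟩
      apply hc' i
      have h1 : ((c'.val + h i : ℕ) : ZMod p) = 0 := (ZMod.natCast_eq_zero_iff _ _).mpr hdvd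
      rw [Nat.cast_add, ZMod.natCast_zmod_val] at h1
      exact (eq_neg_of_add_eq_zero_left h1).symm
  -- one colour
  have hr : 0 < r := lt_of_le_of_lt (Nat.zero_le _) (c 0).2
  have key : ∀ N0 : ℕ, ∃ N, N0 < N ∧ ∃ i : Fin r,
      1 / (160 * 10 ^ 20 * ((r : ℝ) + 1)) * k ≤
        ((univ.filter (fun j : ι => ∃ a, (N + h (j, a)).Prime ∧ c (N + h (j, a)) = i)).card : ℝ) := by
    intro N0
    obtain ⟨N, hN, hN'⟩ := blk_sieve k hk hcard l hl h hinj hadm N0
    refine ⟨N, hN, ?_⟩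
    by_contra hcon
    push Not at hcon
    have h1 : univ.filter (fun j : ι => ∃ a, (N + h (j, a)).Prime) ⊆
        (univ : Finset (Fin r)).biUnion (fun i => univ.filter (fun j : ι =>
          ∃ a, (N + h (j, a)).Prime ∧ c (N + h (j, a)) = i)) := by
      intro j hj
      rw [mem_filter] at hj
      obtain ⟨_, a, ha⟩ := hj
      rw [mem_biUnion]
      refine ⟨c (N + h (j, a)), mem_univ _, ?_⟩
      rw [mem_filter]
      exact ⟨mem_univ _, a, ha, rfl⟩
    have h2 : ((univ.filter (fun j : ι => ∃ a, (N + h (j, a)).Prime)).card : ℝ) ≤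
        ∑ i : Fin r, ((univ.filter (fun j : ι =>
          ∃ a, (N + h (j, a)).Prime ∧ c (N + h (j, a)) = i)).card : ℝ) := by
      exact_mod_cast (card_le_card h1).trans card_biUnion_le
    have h3 : ∑ i : Fin r, ((univ.filter (fun j : ι =>
          ∃ a, (N + h (j, a)).Prime ∧ c (N + h (j, a)) = i)).card : ℝ) ≤
        ∑ _i : Fin r, 1 / (160 * 10 ^ 20 * ((r : ℝ) + 1)) * k :=
      sum_le_sum fun i _ => (hcon i).le
    rw [sum_const, card_univ, Fintype.card_fin, nsmul_eq_mul] at h3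
    have h4 : (r : ℝ) * (1 / (160 * 10 ^ 20 * ((r : ℝ) + 1)) * k) <
        (k : ℝ) * (1 / (160 * 10 ^ 20)) := by
      have hk0 : (0 : ℝ) < k := by exact_mod_cast hk
      have hr0 : (0 : ℝ) < (r : ℝ) + 1 := by positivity
      have h5 : (r : ℝ) * (1 / (160 * 10 ^ 20 * ((r : ℝ) + 1)) * k) =
          (k : ℝ) * (1 / (160 * 10 ^ 20)) * (r / ((r : ℝ) + 1)) := by
        field_simp
      rw [h5]
      have h6 : (r : ℝ) / ((r : ℝ) + 1) < 1 := by
        rw [div_lt_one hr0]
        linarith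
      have h7 : (0 : ℝ) < (k : ℝ) * (1 / (160 * 10 ^ 20)) := by positivity
      calc _ < (k : ℝ) * (1 / (160 * 10 ^ 20)) * 1 := mul_lt_mul_of_pos_left h6 h7
        _ = _ := mul_one _
    linarith
  -- one colour and one set for infinitely many `N`
  obtain ⟨i, G, hGc, hGinf⟩ : ∃ (i : Fin r) (G : Finset (ι × Fin (2 ^ l))),
      1 / (160 * 10 ^ 20 * ((r : ℝ) + 1)) * k ≤ ((G.image Prod.fst).card : ℝ) ∧
      {N : ℕ | ∀ y ∈ G, (N + h y).Prime ∧ c (N + h y) = i}.Infinite := by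
    by_contra hcon
    push Not at hcon
    have hfinite : (⋃ i : Fin r, ⋃ G : Finset (ι × Fin (2 ^ l)),
        {N : ℕ | 1 / (160 * 10 ^ 20 * ((r : ℝ) + 1)) * k ≤ ((G.image Prod.fst).card : ℝ) ∧
          ∀ y ∈ G, (N + h y).Prime ∧ c (N + h y) = i}).Finite := by
      refine Set.finite_iUnion fun i => Set.finite_iUnion fun G => ?_
      by_cases hG : 1 / (160 * 10 ^ 20 * ((r : ℝ) + 1)) * k ≤ ((G.image Prod.fst).card : ℝ)
      · have h1 := hcon i G hG
        refine Set.Finite.subset h1 fun N hN => hN.2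
      · refine Set.Finite.subset Set.finite_empty fun N hN => (hG hN.1).elim
    obtain ⟨N0, hN0⟩ := hfinite.bddAbove
    obtain ⟨N, hN, i, hNi⟩ := key N0
    have hmem : N ∈ ⋃ i : Fin r, ⋃ G : Finset (ι × Fin (2 ^ l)),
        {N : ℕ | 1 / (160 * 10 ^ 20 * ((r : ℝ) + 1)) * k ≤ ((G.image Prod.fst).card : ℝ) ∧
          ∀ y ∈ G, (N + h y).Prime ∧ c (N + h y) = i} := by
      rw [Set.mem_iUnion]
      refine ⟨i, ?_⟩
      rw [Set.mem_iUnion]
      refine ⟨univ.filter (fun y => (N + h y).Prime ∧ c (N + h y) = i), ?_, ?_⟩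
      · refine hNi.trans (le_of_eq ?_)
        congr 2
        ext j
        rw [mem_filter, mem_image]
        constructor
        · rintro ⟨_, a, ha⟩
          refine ⟨(j, a), ?_, rfl⟩
          rw [mem_filter]
          exact ⟨mem_univ _, ha⟩
        · rintro ⟨y, hy, rfl⟩
          rw [mem_filter] at hy
          exact ⟨mem_univ _, y.2, hy.2⟩
      · intro y hy
        rw [mem_filter] at hy
        exact hy.2
    have := hN0 hmem
    omega
  refine ⟨i, G.image x, ?_, ?_⟩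
  · unfold GoodS
    have hinj2 : Set.InjOn (fun N : ℕ => N + B * W)
        {N : ℕ | ∀ y ∈ G, (N + h y).Prime ∧ c (N + h y) = i} := fun a _ b _ hab => by
      simpa using hab
    refine (hGinf.image hinj2).mono ?_
    rintro _ ⟨N, hN, rfl⟩
    intro z hz
    rw [mem_coe, mem_image] at hz
    obtain ⟨y, hy, rfl⟩ := hz
    have h1 : (((N + B * W : ℕ) : ℤ) + x y).toNat = N + h y := by
      have h2 := hh y
      have h3 : ((N + B * W : ℕ) : ℤ) + x y = ((N + h y : ℕ) : ℤ) := by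
        push_cast at h2 ⊢
        linarith
      rw [h3, Int.toNat_natCast]
    simp only
    rw [h1]
    exact hN y hy
  · refine hGc.trans ?_
    have h1 : ((G.image Prod.fst : Finset ι) : Set ι) ⊆ {j | ∃ z ∈ V j, z ∈ G.image x} := by
      intro j hj
      rw [mem_coe, mem_image] at hj
      obtain ⟨y, hy, rfl⟩ := hj
      exact ⟨x y, hxV y, mem_image_of_mem x hy⟩
    have h2 := Set.ncard_le_ncard h1 (Set.toFinite _)
    rw [Set.ncard_coe_finset] at h2
    exact_mod_cast h2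

end Pool.Agent.H74.BT
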