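import Pool.Agent.H74.BT.Van

/-!
[H74 BT CONC]  Concentration of the weights `psi Λ b ^ n` on a Bohr set.

Proof.  `0 ≤ (1 + Re fourier b θ)/2 ≤ 1`, so `0 ≤ psi Λ b ≤ 1`, and each factor is `≥ psi Λ b`: if
`psi Λ b ≥ 1 - e` then `1 - Re fourier b θ ≤ 2 e` for all `θ ∈ Λ`.
(1) Density.  For every `e > 0` there is `p₀ > 0` with `p₀ Y ≤ #{b < Y : psi Λ b ≥ 1 - e}` for all `Y ≥ 1`:
by continuity at `0` (`psi Λ b` is a continuous function of `(b • θ)_{θ ∈ Λ}`, value `1` at `0`) there is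
`r > 0` such that `‖b • θ‖ < r` for all `θ ∈ Λ` implies `psi Λ b ≥ 1 - e` (`fourier b θ = fourier 1 (b • θ)`).  The
compact space `Λ → UnitAddCircle` is covered by `K` balls of radius `r/2` (`finite_cover_balls_of_compact`,
`isCompact_univ`); by pigeonhole one ball contains `(b • θ)_θ` for at least `Y / K` of the `b < Y`;
subtract the smallest such `b₀`: `b - b₀ < Y` and `‖(b - b₀) • θ‖ < r`.  So `p₀ = 1/K` (`K ≥ 1`).
(2) Given `ε`, put `e = ε / 8` (and `≤ 1/2`), `p₀` for `e/2`.  On `{psi ≥ 1 - e}`: `1 - Re fourier b θ ≤ 2e ≤ ε/4`,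
so this part of the left side is `≤ (ε/4) ∑ psi^n`.  The rest is `≤ 2 (1-e)^n Y`, and
`∑ psi^n ≥ (1 - e/2)^n p₀ Y`, so it is `≤ (2/p₀) ((1-e)/(1-e/2))^n ∑ psi^n ≤ (ε/2) ∑ psi^n` for `n` large.
`p₁ = (1-e/2)^n p₀`.
-/

namespace Pool.Agent.H74.BT

open Finset Filter Topology MeasureTheory Pool.Agent.H92.BH

theorem conc_re (b : ℤ) (θ : UnitAddCircle) :
    -1 ≤ (fourier b θ : ℂ).re ∧ (fourier b θ : ℂ).re ≤ 1 := by
  have h : ‖(fourier b θ : ℂ)‖ = 1 := by
    rw [fourier_apply]
    exact Circle.norm_coe _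
  have h2 := Complex.abs_re_le_norm (fourier b θ : ℂ)
  rw [h] at h2
  exact abs_le.1 h2

theorem psi_nonneg (Λ : Finset UnitAddCircle) (b : ℕ) : 0 ≤ psi Λ b := by
  unfold psi
  refine Finset.prod_nonneg (fun θ _ => ?_)
  have := conc_re (b : ℤ) θ
  linarith [this.1]

theorem psi_le_one (Λ : Finset UnitAddCircle) (b : ℕ) : psi Λ b ≤ 1 := by
  unfold psi
  refine Finset.prod_le_one (fun θ _ => ?_) (fun θ _ => ?_)
  · have := conc_re (b : ℤ) θ
    linarith [this.1]
  · have := conc_re (b : ℤ) θ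
    linarith [this.2]

theorem psi_le_factor (Λ : Finset UnitAddCircle) (b : ℕ) {θ : UnitAddCircle} (hθ : θ ∈ Λ) :
    psi Λ b ≤ (1 + (fourier (b : ℤ) θ : ℂ).re) / 2 := by
  classical
  unfold psi
  rw [← Finset.mul_prod_erase Λ _ hθ]
  refine mul_le_of_le_one_right ?_ (Finset.prod_le_one (fun θ' _ => ?_) (fun θ' _ => ?_))
  · have := conc_re (b : ℤ) θ
    linarith [this.1]
  · have := conc_re (b : ℤ) θ'
    linarith [this.1]
  · have := conc_re (b : ℤ) θ'
    linarith [this.2]

open Classical in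
theorem conc_dens (Λ : Finset UnitAddCircle) {e : ℝ} (he : 0 < e) :
    ∃ K : ℕ, ∀ Y : ℕ, Y ≤ K * ((Finset.range Y).filter (fun b => 1 - e ≤ psi Λ b)).card := by
  set Ψ : (Λ → UnitAddCircle) → ℝ := fun x => ∏ θ : Λ, ((1 + (fourier 1 (x θ) : ℂ).re) / 2)
    with hΨ
  have hΨc : Continuous Ψ := by
    refine continuous_finsetProd _ (fun θ _ => ?_)
    exact ((continuous_const.add (Complex.continuous_re.comp
      ((fourier 1).continuous.comp (continuous_apply θ)))).div_const 2)
  have hΨ0 : Ψ 0 = 1 := by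
    simp only [hΨ, Pi.zero_apply, fourier_eval_zero, Complex.one_re]
    norm_num
  set P : ℕ → (Λ → UnitAddCircle) := fun b θ => (b : ℤ) • (θ : UnitAddCircle) with hP
  have hpsi : ∀ b : ℕ, psi Λ b = Ψ (P b) := by
    intro b
    unfold psi
    simp only [hΨ, hP]
    rw [← Finset.prod_coe_sort Λ]
    refine Finset.prod_congr rfl (fun θ _ => ?_)
    rw [fourier_apply, fourier_apply, one_smul]
  obtain ⟨r, hr, hrΨ⟩ := Metric.continuousAt_iff.1 (hΨc.continuousAt (x := 0)) e he
  obtain ⟨t, -, hfin, hcov⟩ := finite_cover_balls_of_compact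
    (isCompact_univ : IsCompact (Set.univ : Set (Λ → UnitAddCircle))) (half_pos hr)
  have hc : ∀ x : Λ → UnitAddCircle, ∃ y ∈ t, dist x y < r / 2 := by
    intro x
    have := hcov (Set.mem_univ x)
    simpa only [Set.mem_iUnion, Metric.mem_ball, exists_prop] using this
  choose c hct hcd using hc
  refine ⟨hfin.toFinset.card, fun Y => ?_⟩
  have hsum : Y = ∑ y ∈ hfin.toFinset, ((Finset.range Y).filter (fun b => c (P b) = y)).card := by
    rw [← Finset.card_eq_sum_card_fiberwise (f := fun b => c (P b))]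
    · simp
    · intro b _
      simpa using hct (P b)
  have hfib : ∀ y ∈ hfin.toFinset, ((Finset.range Y).filter (fun b => c (P b) = y)).card ≤
      ((Finset.range Y).filter (fun b => 1 - e ≤ psi Λ b)).card := by
    intro y _
    rcases ((Finset.range Y).filter (fun b => c (P b) = y)).eq_empty_or_nonempty with h | h
    · rw [h]
      simp
    · obtain ⟨b0, hb0, hmin⟩ := Finset.exists_min_image _ id h
      rw [Finset.mem_filter, Finset.mem_range] at hb0
      refine Finset.card_le_card_of_injOn (fun b => b - b0) ?_ ?_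
      · intro b hb
        have hb' := hb
        rw [Finset.mem_coe, Finset.mem_filter, Finset.mem_range] at hb'
        have hle : b0 ≤ b := hmin b hb
        rw [Finset.mem_coe, Finset.mem_filter, Finset.mem_range]
        have hlt : b < Y := hb'.1
        refine ⟨show b - b0 < Y by omega, ?_⟩
        have h1 : P (b - b0) = P b - P b0 := by
          funext θ
          simp only [hP, Pi.sub_apply]
          rw [Nat.cast_sub hle, sub_smul]
        have h2 : dist (P (b - b0)) 0 < r := by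
          rw [h1, dist_zero_right, ← dist_eq_norm]
          calc dist (P b) (P b0) ≤ dist (P b) y + dist y (P b0) := dist_triangle _ _ _
            _ < r / 2 + r / 2 := by
              refine add_lt_add ?_ ?_
              · have := hcd (P b)
                rwa [hb'.2] at this
              · have := hcd (P b0)
                rw [hb0.2] at this
                rwa [dist_comm]
            _ = r := by ring
        have h3 := hrΨ h2
        rw [hΨ0, ← hpsi, Real.dist_eq] at h3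
        have := (abs_lt.1 h3).1
        linarith
      · intro b hb b' hb' hbb
        rw [Finset.mem_coe] at hb hb'
        have h1 : b0 ≤ b := hmin b hb
        have h2 : b0 ≤ b' := hmin b' hb'
        simp only at hbb
        omega
  calc Y = ∑ y ∈ hfin.toFinset, ((Finset.range Y).filter (fun b => c (P b) = y)).card := hsum
    _ ≤ ∑ y ∈ hfin.toFinset, ((Finset.range Y).filter (fun b => 1 - e ≤ psi Λ b)).card :=
        Finset.sum_le_sum hfib
    _ = _ := by rw [Finset.sum_const, smul_eq_mul]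

theorem conc (Λ : Finset UnitAddCircle) {ε : ℝ} (hε : 0 < ε) :
    ∃ n : ℕ, (∃ p₁ : ℝ, 0 < p₁ ∧ ∀ Y : ℕ, p₁ * Y ≤ ∑ b ∈ Finset.range Y, psi Λ b ^ n) ∧
      ∀ Y : ℕ, ∀ θ ∈ Λ, ∑ b ∈ Finset.range Y, psi Λ b ^ n * (1 - (fourier (b : ℤ) θ : ℂ).re) ≤
        ε * ∑ b ∈ Finset.range Y, psi Λ b ^ n := by
  classical
  set e : ℝ := min (ε / 8) (1 / 2) with he
  have he0 : 0 < e := lt_min (by positivity) (by norm_num)
  have he1 : e ≤ ε / 8 := min_le_left _ _
  have he2 : e ≤ 1 / 2 := min_le_right _ _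
  obtain ⟨K, hK⟩ := conc_dens Λ (half_pos he0)
  set p₀ : ℝ := 1 / ((K : ℝ) + 1) with hp₀
  have hp0 : 0 < p₀ := by positivity
  have hdens : ∀ Y : ℕ, p₀ * Y ≤
      (((Finset.range Y).filter (fun b => 1 - e / 2 ≤ psi Λ b)).card : ℝ) := by
    intro Y
    have h1 : (Y : ℝ) ≤ (K : ℝ) *
        (((Finset.range Y).filter (fun b => 1 - e / 2 ≤ psi Λ b)).card : ℝ) := by
      exact_mod_cast hK Y
    rw [hp₀, one_div, inv_mul_le_iff₀ (by positivity)]
    have h2 : (0 : ℝ) ≤ (((Finset.range Y).filter (fun b => 1 - e / 2 ≤ psi Λ b)).card : ℝ) :=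
      Nat.cast_nonneg _
    linarith
  have hq0 : 0 ≤ (1 - e) / (1 - e / 2) := div_nonneg (by linarith) (by linarith)
  have hq1 : (1 - e) / (1 - e / 2) < 1 := by
    rw [div_lt_one (by linarith)]
    linarith
  obtain ⟨n, hn⟩ := exists_pow_lt_of_lt_one (show 0 < ε * p₀ / 4 by positivity) hq1
  have hn' : 2 * (1 - e) ^ n ≤ (ε / 2) * (p₀ * (1 - e / 2) ^ n) := by
    rw [div_pow, div_lt_iff₀ (by have : 0 < 1 - e / 2 := by linarith
                                 positivity)] at hn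
    linarith
  have hlow : ∀ Y : ℕ, p₀ * (1 - e / 2) ^ n * Y ≤ ∑ b ∈ Finset.range Y, psi Λ b ^ n := by
    intro Y
    have h3 : 0 ≤ (1 - e / 2) ^ n := pow_nonneg (by linarith) n
    calc p₀ * (1 - e / 2) ^ n * Y = (p₀ * Y) * (1 - e / 2) ^ n := by ring
      _ ≤ (((Finset.range Y).filter (fun b => 1 - e / 2 ≤ psi Λ b)).card : ℝ) *
            (1 - e / 2) ^ n := mul_le_mul_of_nonneg_right (hdens Y) h3
      _ = ∑ b ∈ (Finset.range Y).filter (fun b => 1 - e / 2 ≤ psi Λ b), (1 - e / 2) ^ n := by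
          rw [Finset.sum_const, nsmul_eq_mul]
      _ ≤ ∑ b ∈ (Finset.range Y).filter (fun b => 1 - e / 2 ≤ psi Λ b), psi Λ b ^ n := by
          refine Finset.sum_le_sum (fun b hb => ?_)
          exact pow_le_pow_left₀ (by linarith) (Finset.mem_filter.1 hb).2 n
      _ ≤ ∑ b ∈ Finset.range Y, psi Λ b ^ n := by
          refine Finset.sum_le_sum_of_subset_of_nonneg (Finset.filter_subset _ _) ?_
          intro b _ _
          exact pow_nonneg (psi_nonneg Λ b) n
  refine ⟨n, ⟨p₀ * (1 - e / 2) ^ n, ?_, fun Y => hlow Y⟩, ?_⟩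
  · have : 0 < 1 - e / 2 := by linarith
    positivity
  · intro Y θ hθ
    have h5 : ∀ b ∈ Finset.range Y, psi Λ b ^ n * (1 - (fourier (b : ℤ) θ : ℂ).re) ≤
        (ε / 4) * psi Λ b ^ n + 2 * (1 - e) ^ n := by
      intro b _
      have hf := conc_re (b : ℤ) θ
      have hp := psi_nonneg Λ b
      have hpn : 0 ≤ psi Λ b ^ n := pow_nonneg hp n
      have h1e : 0 ≤ (1 - e) ^ n := pow_nonneg (by linarith) n
      rcases le_or_gt (1 - e) (psi Λ b) with hb | hb
      · have h6 := psi_le_factor Λ b hθ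
        have h7 : 1 - (fourier (b : ℤ) θ : ℂ).re ≤ ε / 4 := by linarith
        calc _ ≤ psi Λ b ^ n * (ε / 4) := mul_le_mul_of_nonneg_left h7 hpn
          _ ≤ _ := by linarith
      · have h8 : psi Λ b ^ n ≤ (1 - e) ^ n := pow_le_pow_left₀ hp hb.le n
        have h9 : 1 - (fourier (b : ℤ) θ : ℂ).re ≤ 2 := by linarith [hf.1]
        have h10 : 0 ≤ 1 - (fourier (b : ℤ) θ : ℂ).re := by linarith [hf.2]
        calc psi Λ b ^ n * (1 - (fourier (b : ℤ) θ : ℂ).re)
            ≤ (1 - e) ^ n * 2 := mul_le_mul h8 h9 h10 h1e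
          _ ≤ _ := by
            have : 0 ≤ (ε / 4) * psi Λ b ^ n := by positivity
            linarith
    have hS : 0 ≤ ∑ b ∈ Finset.range Y, psi Λ b ^ n :=
      Finset.sum_nonneg (fun b _ => pow_nonneg (psi_nonneg Λ b) n)
    calc ∑ b ∈ Finset.range Y, psi Λ b ^ n * (1 - (fourier (b : ℤ) θ : ℂ).re)
        ≤ ∑ b ∈ Finset.range Y, ((ε / 4) * psi Λ b ^ n + 2 * (1 - e) ^ n) :=
          Finset.sum_le_sum h5
      _ = (ε / 4) * ∑ b ∈ Finset.range Y, psi Λ b ^ n + Y * (2 * (1 - e) ^ n) := by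
          rw [Finset.sum_add_distrib, ← Finset.mul_sum, Finset.sum_const, Finset.card_range,
            nsmul_eq_mul]
      _ ≤ (ε / 4) * ∑ b ∈ Finset.range Y, psi Λ b ^ n +
            (ε / 2) * ∑ b ∈ Finset.range Y, psi Λ b ^ n := by
          have h11 : (Y : ℝ) * (2 * (1 - e) ^ n) ≤ Y * ((ε / 2) * (p₀ * (1 - e / 2) ^ n)) :=
            mul_le_mul_of_nonneg_left hn' (Nat.cast_nonneg Y)
          have h12 := mul_le_mul_of_nonneg_left (hlow Y) (show 0 ≤ ε / 2 by positivity)
          linarith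
      _ ≤ ε * ∑ b ∈ Finset.range Y, psi Λ b ^ n := by
          have : 0 ≤ (ε / 4) * ∑ b ∈ Finset.range Y, psi Λ b ^ n := by positivity
          linarith

end Pool.Agent.H74.BT
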