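import Pool.Agent.H92.BH.Defs

/-!
MP_8923e7_nt, theorem BohrTuples (proofs 264): definitions.

Plan.  `𝓑` is a set of bad `m`-tuples of integers, invariant under translation.  If `𝓑` has positive upper
Banach density in `ℤ^m` near the diagonal with respect to every Bohr neighbourhood of `0`, then every set of
positive upper Banach density contains `m`-ary trees of bad tuples, of every depth and with leaf clusters of
every size.
-/

namespace Pool.Agent.H74.BT

open Finset Pool.Agent.H92.BH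

/-- the cube of side `X` with corner `z` -/
noncomputable def cube {m : ℕ} (z : Fin m → ℤ) (X : ℕ) : Finset (Fin m → ℤ) :=
  Fintype.piFinset (fun i => Finset.Ioc (z i) (z i + X))

open Classical in
/-- positive upper Banach density in `ℤ^m` -/
def UBDm {m : ℕ} (E : Set (Fin m → ℤ)) : Prop :=
  ∃ δ : ℝ, 0 < δ ∧ ∀ X₀ : ℕ, ∃ X : ℕ, X₀ ≤ X ∧ 0 < X ∧ ∃ z : Fin m → ℤ,
    δ * (X : ℝ) ^ m ≤ (((cube z X).filter (fun x => x ∈ E)).card : ℝ)

/-- tuples near the diagonal -/
def near (m : ℕ) {J : ℕ} (α : Fin J → ℝ) (ρ : ℝ) : Set (Fin m → ℤ) :=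
  {z | ∀ i j, z i - z j ∈ Boh α ρ}

/-- the set `X` contains the leaf clusters, of size at least `s`, of an `m`-ary tree of depth `j` of bad
tuples; only the consequence that is used is recorded: a set `F` without bad tuples meets at most
`(m - 1) ^ j` of the `m ^ j` leaf clusters. -/
def Tree {m : ℕ} (𝓑 : Set (Fin m → ℤ)) (s j : ℕ) (X : Finset ℤ) : Prop :=
  ∃ (ι : Type) (_ : Fintype ι) (V : ι → Finset ℤ), Fintype.card ι = m ^ j ∧ (∀ i, V i ⊆ X) ∧
    (∀ i i', i ≠ i' → Disjoint (V i) (V i')) ∧ (∀ i, s ≤ (V i).card) ∧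
    ∀ F : Set ℤ, (∀ z : Fin m → ℤ, (∀ i, z i ∈ F) → z ∉ 𝓑) →
      {i | ∃ x ∈ V i, x ∈ F}.ncard ≤ (m - 1) ^ j

open Classical in
/-- the indicator function of `S` -/
noncomputable def ind (S : Set ℤ) (n : ℤ) : ℝ := if n ∈ S then 1 else 0

/-- average over the window `(a, a + L]` -/
noncomputable def av (a : ℤ) (L : ℕ) (f : ℤ → ℝ) : ℝ := (∑ t ∈ Finset.Ioc a (a + L), f t) / L

open MeasureTheory

/-- trigonometric polynomial with coefficients `p` -/
noncomputable def hat (p : ℤ →₀ ℝ) (θ : UnitAddCircle) : ℂ :=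
  p.sum (fun b x => (x : ℂ) * fourier b θ)

/-- `∑ p(b) f(t + b)` -/
noncomputable def act (p : ℤ →₀ ℝ) (f : ℤ → ℝ) (t : ℤ) : ℝ := p.sum (fun b x => x * f (t + b))

/-- `ℓ¹` norm -/
noncomputable def nrm (p : ℤ →₀ ℝ) : ℝ := p.sum (fun _ x => |x|)

end Pool.Agent.H74.BT
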