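import Pool.Agent.H74.BT.Trees
import Pool.Agent.H74.BT.Block
import Pool.Agent.H74.BT.Shear

/-!
The prime `(k+1)`-tuples conjecture for almost all `k`-tuples of elements of a Bohr neighbourhood of `0`.
-/

namespace Pool.Agent.H74.BT

open Finset Pool.Agent.H92.BH

/-- `N, N + a_1, ..., N + a_k` are primes of colour `i` for infinitely many `N` -/
def GoodT {r k : ℕ} (c : ℕ → Fin r) (i : Fin r) (a : Fin k → ℤ) : Prop :=
  {N : ℕ | N.Prime ∧ c N = i ∧ ∀ j, ((N : ℤ) + a j).toNat.Prime ∧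
    c ((N : ℤ) + a j).toNat = i}.Infinite

theorem goodS_mono {r : ℕ} (c : ℕ → Fin r) (i : Fin r) {F F' : Set ℤ} (hF : F' ⊆ F)
    (h : GoodS c i F) : GoodS c i F' :=
  Set.Infinite.mono (s := {N : ℕ | ∀ x ∈ F, ((N : ℤ) + x).toNat.Prime ∧
    c ((N : ℤ) + x).toNat = i}) (fun _ hN x hx => hN x (hF hx)) h

theorem goodS_translate {r : ℕ} (c : ℕ → Fin r) (i : Fin r) {F F' : Set ℤ} (t : ℤ)
    (hF : ∀ x ∈ F', x + t ∈ F) (h : GoodS c i F) : GoodS c i F' := by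
  unfold GoodS at h ⊢
  intro hfin
  apply h
  have h1 : ((fun N : ℕ => ((N : ℤ) - t).toNat) '' {N : ℕ | ∀ x ∈ F', ((N : ℤ) + x).toNat.Prime ∧
      c ((N : ℤ) + x).toNat = i}).Finite := hfin.image _
  refine (h1.union (Set.finite_Iic ((-t).toNat + t.toNat))).subset ?_
  intro N hN
  by_cases hNt : N ≤ (-t).toNat + t.toNat
  · exact Or.inr hNt
  · left
    refine ⟨((N : ℤ) + t).toNat, ?_, ?_⟩
    · intro x hx
      have h2 := hN (x + t) (hF x hx)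
      have h3 : ((((N : ℤ) + t).toNat : ℕ) : ℤ) = (N : ℤ) + t := by omega
      rw [h3]
      have h4 : (N : ℤ) + t + x = (N : ℤ) + (x + t) := by ring
      rw [h4]
      exact h2
    · show ((((N : ℤ) + t).toNat : ℤ) - t).toNat = N
      omega

theorem ubd_multiples (W : ℕ) (hW : 0 < W) : UBD {x : ℤ | (W : ℤ) ∣ x} := by
  classical
  have hWR : (0 : ℝ) < W := by exact_mod_cast hW
  refine ⟨1 / W, by positivity, fun L₀ => ⟨W * (L₀ + 1), ?_, by positivity, 0, ?_⟩⟩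
  · have : 1 * (L₀ + 1) ≤ W * (L₀ + 1) := Nat.mul_le_mul_right _ hW
    omega
  · have h1 : (L₀ + 1) ≤ cnt {x : ℤ | (W : ℤ) ∣ x} 0 (W * (L₀ + 1)) := by
      unfold cnt
      have h2 : (Finset.range (L₀ + 1)).card ≤ ((Finset.Ioc (0 : ℤ) (0 + ((W * (L₀ + 1) : ℕ) : ℤ))).filter
          (fun n => n ∈ {x : ℤ | (W : ℤ) ∣ x})).card := by
        refine Finset.card_le_card_of_injOn (fun q : ℕ => (W : ℤ) * (q + 1)) ?_ ?_
        · intro q hq
          have hq' : q < L₀ + 1 := Finset.mem_range.1 hq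
          rw [Finset.mem_coe, Finset.mem_filter, Finset.mem_Ioc]
          have hWz : (0 : ℤ) < W := by exact_mod_cast hW
          refine ⟨⟨by positivity, ?_⟩, ?_⟩
          · push_cast
            have : (q : ℤ) + 1 ≤ L₀ + 1 := by omega
            nlinarith
          · exact Dvd.intro _ rfl
        · intro q _ q' _ hqq
          have hWz : (W : ℤ) ≠ 0 := by exact_mod_cast hW.ne'
          have := mul_left_cancel₀ hWz hqq
          omega
      rw [Finset.card_range] at h2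
      convert h2
    have h3 : ((L₀ + 1 : ℕ) : ℝ) ≤ (cnt {x : ℤ | (W : ℤ) ∣ x} 0 (W * (L₀ + 1)) : ℝ) := by
      exact_mod_cast h1
    refine le_trans (le_of_eq ?_) h3
    push_cast
    field_simp

theorem boh_neg {J : ℕ} {α : Fin J → ℝ} {ρ : ℝ} {h : ℤ} (hh : h ∈ Boh α ρ) : -h ∈ Boh α ρ := by
  intro i
  obtain ⟨m, hm⟩ := hh i
  refine ⟨-m, ?_⟩
  push_cast
  rw [show -(h : ℝ) * α i - -(m : ℝ) = -((h : ℝ) * α i - m) by ring, abs_neg]
  exact hm

theorem boh_add {J : ℕ} {α : Fin J → ℝ} {ρ : ℝ} {h h' : ℤ} (hh : h ∈ Boh α (ρ / 2))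
    (hh' : h' ∈ Boh α (ρ / 2)) : h + h' ∈ Boh α ρ := by
  intro i
  obtain ⟨m, hm⟩ := hh i
  obtain ⟨m', hm'⟩ := hh' i
  refine ⟨m + m', ?_⟩
  push_cast
  calc |((h : ℝ) + h') * α i - (m + m')| = |((h : ℝ) * α i - m) + ((h' : ℝ) * α i - m')| := by
        congr 1; ring
    _ ≤ |(h : ℝ) * α i - m| + |(h' : ℝ) * α i - m'| := abs_add_le _ _
    _ < ρ := by linarith

theorem boh_zero {J : ℕ} {α : Fin J → ℝ} {ρ : ℝ} (hρ : 0 < ρ) : (0 : ℤ) ∈ Boh α ρ := by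
  intro i
  exact ⟨0, by simpa using hρ⟩

/-- bad tuples -/
def Bad {r : ℕ} (c : ℕ → Fin r) (m : ℕ) : Set (Fin m → ℤ) :=
  {z | Function.Injective z ∧ ¬ ∃ i, GoodS c i (Set.range z)}

theorem bad_translate {r : ℕ} (c : ℕ → Fin r) (m : ℕ) (z : Fin m → ℤ) (hz : z ∈ Bad c m) (t : ℤ) :
    (fun i => z i + t) ∈ Bad c m := by
  obtain ⟨h1, h2⟩ := hz
  refine ⟨fun i j hij => h1 (by simpa using hij), ?_⟩
  rintro ⟨i, hi⟩
  refine h2 ⟨i, goodS_translate c i t ?_ hi⟩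
  rintro x ⟨j, rfl⟩
  exact ⟨j, rfl⟩

/-- there are no deep trees of bad tuples in the multiples of `W` -/
theorem no_tree (r m : ℕ) (hm : 1 ≤ m) : ∃ s J W : ℕ, 1 ≤ s ∧ 0 < W ∧ ∀ (c : ℕ → Fin r) (X : Finset ℤ),
    Tree (Bad c m) s J X → ¬ ∀ x ∈ X, (W : ℤ) ∣ x := by
  classical
  obtain ⟨c₀, hc₀, hblock⟩ := block r
  have hmR : (0 : ℝ) < m := by exact_mod_cast hm
  obtain ⟨J, hJ⟩ : ∃ J : ℕ, ((m - 1 : ℕ) : ℝ) ^ J < c₀ * (m : ℝ) ^ J := by
    have h1 : ((m - 1 : ℕ) : ℝ) / m < 1 := by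
      rw [div_lt_one hmR]
      have : m - 1 < m := by omega
      exact_mod_cast this
    have h0 : (0 : ℝ) ≤ ((m - 1 : ℕ) : ℝ) / m := by positivity
    obtain ⟨J, hJ⟩ := exists_pow_lt_of_lt_one hc₀ h1
    refine ⟨J, ?_⟩
    rw [div_pow, div_lt_iff₀ (by positivity)] at hJ
    exact hJ
  obtain ⟨s, W, hs, hW, hb⟩ := hblock (m ^ J) (Nat.one_le_pow _ _ hm)
  refine ⟨s, J, W, hs, hW, fun c X hT hX => ?_⟩
  obtain ⟨ι, hι, V, hcard, hVX, hdis, hVs, hcount⟩ := hT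
  obtain ⟨i, F, hF, hFc⟩ := hb c ι hι V hcard hdis hVs (fun j x hx => hX x (hVX j hx))
  have h1 := hcount (F : Set ℤ) (by
    intro z hz hbad
    refine hbad.2 ⟨i, goodS_mono c i ?_ hF⟩
    rintro x ⟨l, rfl⟩
    exact hz l)
  have h2 : (({j | ∃ x ∈ V j, x ∈ F}.ncard : ℕ) : ℝ) ≤ (((m - 1) ^ J : ℕ) : ℝ) := by
    exact_mod_cast h1
  push_cast at hFc h2
  linarith

open Classical in
theorem bohr_tuples {r : ℕ} (c : ℕ → Fin r) (k : ℕ) :
    ∃ (J : ℕ) (α : Fin J → ℝ) (ρ : ℝ), 0 < ρ ∧ ∀ ε : ℝ, 0 < ε → ∃ X₀ : ℕ, ∀ X : ℕ, X₀ ≤ X →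
      ∀ z : Fin k → ℤ, (((cube z X).filter (fun a =>
        (∀ j, a j ∈ Boh α ρ) ∧ ¬ ∃ i, GoodT c i a)).card : ℝ) ≤ ε * (X : ℝ) ^ k := by
  by_contra hcon
  push Not at hcon
  obtain ⟨s, J, W, hs, hW, hno⟩ := no_tree r (k + 1) (by omega)
  have H : ∀ (J : ℕ) (α : Fin J → ℝ) (ρ : ℝ), 0 < ρ →
      UBDm (Bad c (k + 1) ∩ near (k + 1) α ρ) := by
    intro J α ρ hρ
    obtain ⟨ε, hε, hX⟩ := hcon J α (ρ / 2) (by positivity)
    refine shear {a | (∀ j, a j ∈ Boh α (ρ / 2)) ∧ ¬ ∃ i, GoodT c i a} _ ?_ ?_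
    · refine ⟨ε, hε, fun X₀ => ?_⟩
      obtain ⟨X, hX0, z, hz⟩ := hX (max X₀ 1)
      refine ⟨X, (le_max_left _ _).trans hX0, lt_of_lt_of_le one_pos ((le_max_right _ _).trans hX0),
        z, ?_⟩
      refine le_trans hz.le (Nat.cast_le.2 (le_of_eq ?_))
      refine congrArg Finset.card ?_
      ext x
      simp only [Finset.mem_filter, Set.mem_ofPred_eq, not_exists]
    · intro a ha t hinj
      refine ⟨⟨hinj, ?_⟩, ?_⟩
      · rintro ⟨i, hi⟩
        refine ha.2 ⟨i, ?_⟩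
        have h1 : GoodS c i (Set.range (Fin.cons 0 a : Fin (k + 1) → ℤ)) := by
          refine goodS_translate c i t ?_ hi
          rintro x ⟨j, rfl⟩
          refine ⟨j, ?_⟩
          refine Fin.cases ?_ (fun j => ?_) j
          · simp
          · simp [add_comm]
        refine Set.Infinite.mono ?_ h1
        intro N hN
        have h2 := hN 0 ⟨0, by simp⟩
        rw [add_zero, Int.toNat_natCast] at h2
        exact ⟨h2.1, h2.2, fun j => hN (a j) ⟨j.succ, by simp⟩⟩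
      · intro i j
        have key : ∀ i : Fin (k + 1), ∃ h : ℤ, h ∈ Boh α (ρ / 2) ∧
            (Fin.cons t (fun i => t + a i) : Fin (k + 1) → ℤ) i = t + h := by
          intro i
          refine Fin.cases ⟨0, boh_zero (by positivity), by simp⟩ (fun i => ⟨a i, ha.1 i, by simp⟩) i
        obtain ⟨h, hh, hi⟩ := key i
        obtain ⟨h', hh', hj⟩ := key j
        rw [hi, hj]
        have h3 : t + h - (t + h') = h + -h' := by ring
        rw [h3]
        exact boh_add hh (boh_neg hh')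
  obtain ⟨X, hT, hX⟩ := trees (by omega) (fun z hz t => bad_translate c (k + 1) z hz t)
    (fun z hz => hz.1) H s hs J {x : ℤ | (W : ℤ) ∣ x} (ubd_multiples W hW)
  exact hno c X hT hX

end Pool.Agent.H74.BT
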