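import Pool.Agent.H74.BT.Box
import Pool.Agent.H74.BT.Block2

/-!
[H74 BT LIN]  For almost all admissible `k`-tuples a positive proportion of the `N + a_j` are primes
simultaneously.

Proof.  `c₀` from `block_exact`.  Given `k ≥ 1`, `l = l₀`, `s = 2 ^ l`, `W = (k s)!` (positive, divisible by all primes `≤ k s`); `δ, C` from
`box s k` (`δ ≤ 1`).  Let `B` be the set of `a ∈ piFinset A`, injective, admissible and not `Many`.  To `a ∈ B` attach its colour
`κ(a) = (fun j => a j mod W, {(i, E') | {N | ∀ j, (..) ↔ j ∈ E'}.Infinite})`, an element of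
`(Fin k → ZMod W) × Finset (Fin r × Finset (Fin k))` (finite: `Q = W^k 2^(r 2^k)` values).  Claim: for every value `κ` the set
`B_κ` has at most `C n^(k-δ)` elements.  Otherwise `box` gives `V` with `|V j| = s` and `piFinset V ⊆ B_κ`.
* Disjoint: `x ∈ V j ∩ V j'`, `j ≠ j'`: there is `a ∈ piFinset V` with `a j = a j' = x`, not injective.
* Admissible: `p > k s`: `∪ V j` has at most `k s < p` elements, so some class is missed.  `p ≤ k s`: `p ∣ W`; all elements of `V j`
are congruent mod `W`, so mod `p`, to `a j` for a fixed `a ∈ piFinset V`, and `a` is admissible.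
* `block_exact` gives `i`, `F`.  Let `E = {j | ∃ x ∈ V j, x ∈ F}`, `|E| ≥ c₀ k`.  For `E' ⊆ E` choose `a j ∈ V j ∩ F` for `j ∈ E'` and
`a j ∈ V j \ F` for `j ∉ E'`.  Then `a ∈ piFinset V` and `{N | ∀ j, (..) ↔ j ∈ E'}` contains the infinite set of `block_exact`.  So `(i, E')` is in the
second component of `κ(a) = κ`.  So for a fixed `a ∈ piFinset V` all `(i, E')`, `E' ⊆ E`, are attained, and `a` is `Many`: contradiction.
Non-injective `a ∈ piFinset A`: at most `k^2 n^(k-1) ≤ k^2 n^(k-δ)` (for each pair `j ≠ j'`).  Total `≤ (Q C + k^2) n^(k-δ)`.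
-/

namespace Pool.Agent.H74.BT

open Finset Pool.Agent.H92.BH

/-- admissible tuple -/
def Adm {k : ℕ} (a : Fin k → ℤ) : Prop := ∀ p : ℕ, p.Prime → ∃ b : ℤ, ∀ j, ¬ (p : ℤ) ∣ b + a j

/-- there are a colour `i` and at least `q` indices, all whose subsets `E'` are exact patterns: for infinitely
many `N` the `j` such that `N + a_j` is a prime of colour `i` are the elements of `E'` -/
def Many {r k : ℕ} (q : ℝ) (c : ℕ → Fin r) (a : Fin k → ℤ) : Prop :=
  ∃ (i : Fin r) (E : Finset (Fin k)), q ≤ E.card ∧ ∀ E' : Finset (Fin k), E' ⊆ E →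
    {N : ℕ | ∀ j, (((N : ℤ) + a j).toNat.Prime ∧ c ((N : ℤ) + a j).toNat = i) ↔ j ∈ E'}.Infinite

/-- the set of the exact patterns of a tuple -/
private def pat {r k : ℕ} (c : ℕ → Fin r) (a : Fin k → ℤ) : Set (Fin r × Finset (Fin k)) :=
  {q | {N : ℕ | ∀ j, (((N : ℤ) + a j).toNat.Prime ∧ c ((N : ℤ) + a j).toNat = q.1) ↔
    j ∈ q.2}.Infinite}

private theorem core {r k l W : ℕ} {c₀ : ℝ} (hW : ∀ p : ℕ, p.Prime → p ≤ k * 2 ^ l → p ∣ W)
    (c : ℕ → Fin r)
    (hbl : ∀ V : Fin k → Finset ℤ,
      (∀ j j', j ≠ j' → Disjoint (V j) (V j')) → (∀ j, (V j).card = 2 ^ l) →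
      (∀ p : ℕ, p.Prime → ∃ b : ℤ, ∀ j, ∀ x ∈ V j, ¬ (p : ℤ) ∣ b + x) →
      ∃ (i : Fin r) (F : Finset ℤ),
        {N : ℕ | ∀ j, ∀ x ∈ V j, (((N : ℤ) + x).toNat.Prime ∧ c ((N : ℤ) + x).toNat = i) ↔
          x ∈ F}.Infinite ∧
        c₀ * k ≤ (({j | ∃ x ∈ V j, x ∈ F}.ncard : ℕ) : ℝ) ∧ ∀ j, ∃ x ∈ V j, x ∉ F)
    (V : Fin k → Finset ℤ) (hVc : ∀ j, (V j).card = 2 ^ l)
    (hinj : ∀ a ∈ Fintype.piFinset V, Function.Injective a)
    (hadm : ∀ a ∈ Fintype.piFinset V, Adm a)
    (hmany : ∀ a ∈ Fintype.piFinset V, ¬ Many (c₀ * k) c a)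
    (hmod : ∀ a ∈ Fintype.piFinset V, ∀ a' ∈ Fintype.piFinset V, ∀ j,
      ((a j : ℤ) : ZMod W) = ((a' j : ℤ) : ZMod W))
    (hpat : ∀ a ∈ Fintype.piFinset V, ∀ a' ∈ Fintype.piFinset V, pat c a = pat c a') : False := by
  classical
  have hne : ∀ j, ∃ x, x ∈ V j := by
    intro j
    have : 0 < (V j).card := by rw [hVc]; positivity
    exact Finset.card_pos.mp this
  choose a₀ ha₀ using hne
  have ha₀' : a₀ ∈ Fintype.piFinset V := Fintype.mem_piFinset.mpr ha₀
  have hup : ∀ (a : Fin k → ℤ), a ∈ Fintype.piFinset V → ∀ j, ∀ x ∈ V j,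
      Function.update a j x ∈ Fintype.piFinset V := by
    intro a ha j x hx
    rw [Fintype.mem_piFinset] at ha ⊢
    intro i
    by_cases h : i = j
    · subst h
      rw [Function.update_self]
      exact hx
    · rw [Function.update_of_ne h]
      exact ha i
  have hdis : ∀ j j', j ≠ j' → Disjoint (V j) (V j') := by
    intro j j' hjj
    rw [Finset.disjoint_left]
    intro x hx hx'
    have h1 := hup _ (hup a₀ ha₀' j x hx) j' x hx'
    have h2 := hinj _ h1
    apply hjj
    apply h2
    rw [Function.update_self, Function.update_of_ne hjj, Function.update_self]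
  have hadV : ∀ p : ℕ, p.Prime → ∃ b : ℤ, ∀ j, ∀ x ∈ V j, ¬ (p : ℤ) ∣ b + x := by
    intro p hp
    by_cases hpk : p ≤ k * 2 ^ l
    · obtain ⟨b, hb⟩ := hadm a₀ ha₀' p hp
      refine ⟨b, fun j x hx hdvd => hb j ?_⟩
      have h1 := hmod _ (hup a₀ ha₀' j x hx) _ ha₀' j
      rw [Function.update_self] at h1
      have h2 : (W : ℤ) ∣ a₀ j - x := (ZMod.intCast_eq_intCast_iff_dvd_sub _ _ _).mp h1
      have h3 : (p : ℤ) ∣ a₀ j - x := (Int.natCast_dvd_natCast.mpr (hW p hp hpk)).trans h2
      have h4 : b + a₀ j = (b + x) + (a₀ j - x) := by ring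
      rw [h4]
      exact dvd_add hdvd h3
    · push Not at hpk
      have : NeZero p := ⟨hp.pos.ne'⟩
      set U : Finset (ZMod p) :=
        ((Finset.univ : Finset (Fin k)).biUnion V).image (fun x : ℤ => (x : ZMod p)) with hU
      have hUc : U.card < Fintype.card (ZMod p) := by
        rw [ZMod.card]
        refine lt_of_le_of_lt ?_ hpk
        refine Finset.card_image_le.trans ?_
        refine Finset.card_biUnion_le.trans ?_
        rw [Finset.sum_congr rfl (fun j _ => hVc j)]
        simp
      obtain ⟨y, hy⟩ : ∃ y, y ∉ U := by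
        by_contra h
        push Not at h
        have : U = Finset.univ := Finset.eq_univ_iff_forall.mpr h
        rw [this, Finset.card_univ] at hUc
        exact lt_irrefl _ hUc
      refine ⟨-(y.val : ℤ), fun j x hx hdvd => hy ?_⟩
      rw [hU, Finset.mem_image]
      refine ⟨x, Finset.mem_biUnion.mpr ⟨j, Finset.mem_univ _, hx⟩, ?_⟩
      have h1 : ((-(y.val : ℤ) + x : ℤ) : ZMod p) = 0 :=
        (ZMod.intCast_zmod_eq_zero_iff_dvd _ _).mpr hdvd
      push_cast at h1
      rw [ZMod.natCast_zmod_val] at h1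
      rw [neg_add_eq_zero] at h1
      exact h1.symm
  obtain ⟨i, F, hinf, hE, hnf⟩ := hbl V hdis hVc hadV
  apply hmany a₀ ha₀'
  refine ⟨i, Finset.univ.filter (fun j => ∃ x ∈ V j, x ∈ F), ?_, ?_⟩
  · refine hE.trans (le_of_eq ?_)
    congr 1
    rw [Set.ncard_eq_toFinset_card']
    congr 1
    ext j
    simp
  · intro E' hE'
    have hex : ∀ j, ∃ x ∈ V j, (x ∈ F ↔ j ∈ E') := by
      intro j
      by_cases hj : j ∈ E'
      · have h1 := hE' hj
        rw [Finset.mem_filter] at h1
        obtain ⟨x, hx, hxF⟩ := h1.2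
        exact ⟨x, hx, by simp [hxF, hj]⟩
      · obtain ⟨x, hx, hxF⟩ := hnf j
        exact ⟨x, hx, by simp [hxF, hj]⟩
    choose a ha haF using hex
    have ha' : a ∈ Fintype.piFinset V := Fintype.mem_piFinset.mpr ha
    have h1 : (i, E') ∈ pat c a := by
      refine hinf.mono ?_
      intro N hN j
      rw [← haF j]
      exact hN j (a j) (ha j)
    rw [hpat a ha' a₀ ha₀'] at h1
    exact h1

/-- few tuples are not injective -/
private theorem noninj {k n : ℕ} (hk : 1 ≤ k) (A : Fin k → Finset ℤ)
    (hA : ∀ j, (A j).card ≤ n) [DecidablePred fun a : Fin k → ℤ => ¬ Function.Injective a] :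
    ((Fintype.piFinset A).filter (fun a => ¬ Function.Injective a)).card ≤
      k ^ 2 * n ^ (k - 1) := by
  classical
  have hsub : (Fintype.piFinset A).filter (fun a => ¬ Function.Injective a) ⊆
      (Finset.univ : Finset (Fin k × Fin k)).biUnion (fun p =>
        (Fintype.piFinset A).filter (fun a => p.1 ≠ p.2 ∧ a p.1 = a p.2)) := by
    intro a ha
    rw [Finset.mem_filter] at ha
    obtain ⟨ha1, ha2⟩ := ha
    unfold Function.Injective at ha2
    push Not at ha2
    obtain ⟨j, j', h1, h2⟩ := ha2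
    exact Finset.mem_biUnion.mpr ⟨(j, j'), Finset.mem_univ _,
      Finset.mem_filter.mpr ⟨ha1, h2, h1⟩⟩
  refine (Finset.card_le_card hsub).trans ?_
  refine (Finset.card_biUnion_le_card_mul _ _ (n ^ (k - 1)) ?_).trans (le_of_eq ?_)
  · rintro ⟨j, j'⟩ _
    by_cases hjj : j = j'
    · rw [Finset.filter_false_of_mem]
      · simp
      · intro a _ h
        exact h.1 hjj
    · have hmap : ((Fintype.piFinset A).filter (fun a => j ≠ j' ∧ a j = a j')).card ≤
          (Fintype.piFinset (Function.update A j {0})).card := by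
        apply Finset.card_le_card_of_injOn (fun a => Function.update a j 0)
        · intro a ha
          have ha := (Finset.mem_filter.mp (Finset.mem_coe.mp ha)).1
          apply Finset.mem_coe.mpr
          rw [Fintype.mem_piFinset] at ha ⊢
          intro i
          show Function.update a j 0 i ∈ Function.update A j {0} i
          by_cases h : i = j
          · subst h
            rw [Function.update_self, Function.update_self]
            exact Finset.mem_singleton_self _
          · rw [Function.update_of_ne h, Function.update_of_ne h]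
            exact ha i
        · intro a ha b hb hab
          have ha := (Finset.mem_filter.mp (Finset.mem_coe.mp ha)).2.2
          have hb := (Finset.mem_filter.mp (Finset.mem_coe.mp hb)).2.2
          have hne : ∀ i, i ≠ j → a i = b i := by
            intro i hi
            have h1 := congrFun hab i
            simp only at h1
            rwa [Function.update_of_ne hi, Function.update_of_ne hi] at h1
          funext i
          by_cases h : i = j
          · subst h
            have hj' : j' ≠ i := fun h => hjj h.symm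
            rw [ha, hb]
            exact hne j' hj'
          · exact hne i h
      refine hmap.trans ?_
      rw [Fintype.card_piFinset, ← Finset.mul_prod_erase _ _ (Finset.mem_univ j),
        Function.update_self, Finset.card_singleton, one_mul]
      calc ∏ x ∈ Finset.univ.erase j, (Function.update A j {0} x).card
          ≤ ∏ x ∈ Finset.univ.erase j, n := by
            apply Finset.prod_le_prod
            · intro i _
              exact Nat.zero_le _
            · intro i hi
              rw [Function.update_of_ne (Finset.ne_of_mem_erase hi)]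
              exact hA i
        _ = n ^ (k - 1) := by
            rw [Finset.prod_const, Finset.card_erase_of_mem (Finset.mem_univ _), Finset.card_univ,
              Fintype.card_fin]
  · rw [Finset.card_univ, Fintype.card_prod, Fintype.card_fin]
    ring

open Classical in
theorem linear (r : ℕ) : ∃ c₀ : ℝ, 0 < c₀ ∧ ∀ k : ℕ, 1 ≤ k → ∃ δ C : ℝ, 0 < δ ∧
    ∀ (c : ℕ → Fin r) (n : ℕ) (A : Fin k → Finset ℤ), 1 ≤ n → (∀ j, (A j).card ≤ n) →
      (((Fintype.piFinset A).filter (fun a => Adm a ∧ ¬ Many (c₀ * k) c a)).card : ℝ) ≤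
        C * (n : ℝ) ^ ((k : ℝ) - δ) := by
  obtain ⟨c₀, hc₀, hbl⟩ := block_exact r
  refine ⟨c₀, hc₀, fun k hk => ?_⟩
  obtain ⟨l, hl⟩ := hbl k hk
  have hbl' := hl l le_rfl
  obtain ⟨δ, C, hδ, hδ1, hC, hbox⟩ := box (2 ^ l) Nat.one_le_two_pow k
  set W : ℕ := (k * 2 ^ l).factorial with hW
  have : NeZero W := ⟨Nat.factorial_ne_zero _⟩
  have hWp : ∀ p : ℕ, p.Prime → p ≤ k * 2 ^ l → p ∣ W := by
    intro p hp hpk
    exact (Nat.Prime.dvd_factorial hp).mpr hpk
  set Q : ℕ := Fintype.card ((Fin k → ZMod W) × Finset (Fin r × Finset (Fin k))) with hQ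
  refine ⟨δ, Q * C + k ^ 2, hδ, ?_⟩
  intro c n A hn hA
  have hn' : (1 : ℝ) ≤ n := by exact_mod_cast hn
  set col : (Fin k → ℤ) → (Fin k → ZMod W) × Finset (Fin r × Finset (Fin k)) :=
    fun a => (fun j => ((a j : ℤ) : ZMod W), Finset.univ.filter (fun q => q ∈ pat c a)) with hcol
  set B : Finset (Fin k → ℤ) := (Fintype.piFinset A).filter
    (fun a => Function.Injective a ∧ Adm a ∧ ¬ Many (c₀ * k) c a) with hB
  have hfib : ∀ κ, ((B.filter (fun a => col a = κ)).card : ℝ) ≤ C * (n : ℝ) ^ ((k : ℝ) - δ) := by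
    intro κ
    by_contra hlt
    push Not at hlt
    obtain ⟨V, hVc, hVB⟩ := hbox n A hn hA (B.filter (fun a => col a = κ))
      ((Finset.filter_subset _ _).trans (Finset.filter_subset _ _)) hlt
    have hmem : ∀ a ∈ Fintype.piFinset V, (Function.Injective a ∧ Adm a ∧
        ¬ Many (c₀ * k) c a) ∧ col a = κ := by
      intro a ha
      have h1 := Finset.mem_filter.mp (hVB ha)
      exact ⟨(Finset.mem_filter.mp h1.1).2, h1.2⟩
    refine core hWp c (fun V h1 h2 h3 => hbl' c V h1 h2 h3) V hVc (fun a ha => (hmem a ha).1.1)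
      (fun a ha => (hmem a ha).1.2.1) (fun a ha => (hmem a ha).1.2.2) ?_ ?_
    · intro a ha a' ha' j
      have h1 : col a = col a' := (hmem a ha).2.trans (hmem a' ha').2.symm
      exact congrFun (congrArg Prod.fst h1) j
    · intro a ha a' ha'
      have h1 : col a = col a' := (hmem a ha).2.trans (hmem a' ha').2.symm
      have h2 := congrArg Prod.snd h1
      ext q
      have h3 := Finset.ext_iff.mp h2 q
      simp only [hcol, Finset.mem_filter, Finset.mem_univ, true_and] at h3
      exact h3
  have hBc : (B.card : ℝ) ≤ Q * (C * (n : ℝ) ^ ((k : ℝ) - δ)) := by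
    have h1 : B.card = ∑ κ : (Fin k → ZMod W) × Finset (Fin r × Finset (Fin k)),
        (B.filter (fun a => col a = κ)).card :=
      Finset.card_eq_sum_card_fiberwise (fun a _ => Finset.mem_coe.mpr (Finset.mem_univ _))
    rw [h1]
    push_cast
    refine (Finset.sum_le_sum fun κ _ => hfib κ).trans (le_of_eq ?_)
    rw [Finset.sum_const, nsmul_eq_mul, Finset.card_univ]
  have hN : (((Fintype.piFinset A).filter (fun a => ¬ Function.Injective a)).card : ℝ) ≤
      k ^ 2 * (n : ℝ) ^ ((k : ℝ) - δ) := by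
    have h1 := noninj hk A hA
    have h2 : (((Fintype.piFinset A).filter (fun a => ¬ Function.Injective a)).card : ℝ) ≤
        (k : ℝ) ^ 2 * (n : ℝ) ^ (k - 1) := by exact_mod_cast h1
    refine h2.trans ?_
    refine mul_le_mul_of_nonneg_left ?_ (by positivity)
    rw [← Real.rpow_natCast]
    apply Real.rpow_le_rpow_of_exponent_le hn'
    rw [Nat.cast_sub hk]
    push_cast
    linarith
  have hsub : (Fintype.piFinset A).filter (fun a => Adm a ∧ ¬ Many (c₀ * k) c a) ⊆
      B ∪ (Fintype.piFinset A).filter (fun a => ¬ Function.Injective a) := by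
    intro a ha
    rw [Finset.mem_filter] at ha
    rw [Finset.mem_union]
    by_cases h : Function.Injective a
    · left
      exact Finset.mem_filter.mpr ⟨ha.1, h, ha.2⟩
    · right
      exact Finset.mem_filter.mpr ⟨ha.1, h⟩
  have hfin : (((Fintype.piFinset A).filter (fun a => Adm a ∧ ¬ Many (c₀ * k) c a)).card : ℝ) ≤
      (B.card : ℝ) + (((Fintype.piFinset A).filter (fun a => ¬ Function.Injective a)).card : ℝ) := by
    exact_mod_cast (Finset.card_le_card hsub).trans (Finset.card_union_le _ _)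
  linarith

end Pool.Agent.H74.BT
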