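import Pool.Agent.H74.BT.Defs

/-!
Bohr neighbourhoods of `0` have positive density in all long intervals.
-/

namespace Pool.Agent.H74.BT

open Finset Pool.Agent.H92.BH

theorem syn {J : ℕ} (α : Fin J → ℝ) {ρ : ℝ} (hρ : 0 < ρ) :
    ∃ T : ℕ, 0 < T ∧ ∀ z : ℤ, ∃ h ∈ Boh α ρ, z < h ∧ h ≤ z + T := by
  classical
  obtain ⟨K, hK⟩ := exists_nat_gt (1 / ρ)
  have hKR : (0 : ℝ) < K := lt_trans (by positivity) hK
  have hKρ : 1 / (K : ℝ) < ρ := by
    rw [div_lt_iff₀ hKR]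
    rw [div_lt_iff₀ hρ] at hK
    linarith
  set cell : ℤ → (Fin J → ℤ) := fun h i => ⌊(K : ℝ) * Int.fract ((h : ℝ) * α i)⌋ with hcell
  have hfin : (Set.range cell).Finite := by
    refine Set.Finite.subset (Finset.finite_toSet (Fintype.piFinset (fun _ : Fin J =>
      Finset.Icc (0 : ℤ) K))) ?_
    rintro _ ⟨h, rfl⟩
    rw [Finset.mem_coe, Fintype.mem_piFinset]
    intro i
    rw [Finset.mem_Icc]
    constructor
    · exact Int.floor_nonneg.2 (mul_nonneg hKR.le (Int.fract_nonneg _))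
    · rw [← Int.cast_le (R := ℝ)]
      refine (Int.floor_le _).trans ?_
      push_cast
      have := (Int.fract_lt_one ((h : ℝ) * α i)).le
      nlinarith
  have hg : ∀ v : Fin J → ℤ, ∃ n : ℤ, v ∈ Set.range cell → cell n = v := by
    intro v
    by_cases hv : v ∈ Set.range cell
    · obtain ⟨n, hn⟩ := hv
      exact ⟨n, fun _ => hn⟩
    · exact ⟨0, fun h => absurd h hv⟩
  choose g hg using hg
  set N₀ : ℕ := (∑ v ∈ hfin.toFinset, (g v).natAbs) + 1 with hN₀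
  refine ⟨2 * N₀, by omega, fun z => ?_⟩
  set v := cell (z + N₀) with hv
  have hvr : v ∈ Set.range cell := ⟨_, rfl⟩
  have hgv := hg v hvr
  have hle : (g v).natAbs + 1 ≤ N₀ := by
    rw [hN₀]
    have := Finset.single_le_sum (f := fun v => (g v).natAbs) (fun _ _ => Nat.zero_le _)
      (hfin.mem_toFinset.2 hvr)
    omega
  refine ⟨z + N₀ - g v, ?_, by omega, by push_cast; omega⟩
  intro i
  refine ⟨⌊((z + N₀ : ℤ) : ℝ) * α i⌋ - ⌊((g v : ℤ) : ℝ) * α i⌋, ?_⟩
  have h1 : cell (g v) i = cell (z + N₀) i := by rw [hgv]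
  simp only [hcell] at h1
  have h2 := Int.abs_sub_lt_one_of_floor_eq_floor h1
  have h3 : ((z + N₀ - g v : ℤ) : ℝ) * α i - ((⌊((z + N₀ : ℤ) : ℝ) * α i⌋ - ⌊((g v : ℤ) : ℝ) * α i⌋ : ℤ) : ℝ) =
      Int.fract (((z + N₀ : ℤ) : ℝ) * α i) - Int.fract (((g v : ℤ) : ℝ) * α i) := by
    unfold Int.fract
    push_cast
    ring
  rw [h3, abs_sub_comm]
  rw [← mul_sub, abs_mul, abs_of_pos hKR] at h2
  have h4 : |Int.fract (((g v : ℤ) : ℝ) * α i) - Int.fract (((z + N₀ : ℤ) : ℝ) * α i)| < 1 / K := by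
    rw [lt_div_iff₀ hKR, mul_comm]
    exact h2
  exact h4.trans hKρ

open Classical in
theorem boh_density {J : ℕ} (α : Fin J → ℝ) {ρ : ℝ} (hρ : 0 < ρ) :
    ∃ p : ℝ, 0 < p ∧ ∃ X₁ : ℕ, ∀ X : ℕ, X₁ ≤ X → ∀ z : ℤ,
      p * X ≤ (((Finset.Ioc z (z + X)).filter (fun h => h ∈ Boh α ρ)).card : ℝ) := by
  obtain ⟨T, hT, hsyn⟩ := syn α hρ
  have hTR : (0 : ℝ) < T := by exact_mod_cast hT
  refine ⟨1 / (2 * T), by positivity, T, fun X hX z => ?_⟩
  choose f hf using hsyn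
  have h1 : X / T ≤ ((Finset.Ioc z (z + X)).filter (fun h => h ∈ Boh α ρ)).card := by
    have h2 : (Finset.range (X / T)).card ≤
        ((Finset.Ioc z (z + X)).filter (fun h => h ∈ Boh α ρ)).card := by
      refine Finset.card_le_card_of_injOn (fun q : ℕ => f (z + q * T)) ?_ ?_
      · intro q hq
        have hq' : q < X / T := Finset.mem_range.1 hq
        obtain ⟨h3, h4, h5⟩ := hf (z + q * T)
        have h6 : (q + 1) * T ≤ X := (Nat.mul_le_mul_right T hq').trans (Nat.div_mul_le_self X T)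
        have h7 : ((q : ℤ) + 1) * T ≤ X := by exact_mod_cast h6
        have h8 : (0 : ℤ) ≤ (q : ℤ) * T := by positivity
        rw [Finset.mem_coe, Finset.mem_filter, Finset.mem_Ioc]
        refine ⟨⟨by linarith, by linarith⟩, h3⟩
      · intro q _ q' _ hqq
        have hqq' : f (z + q * T) = f (z + q' * T) := hqq
        obtain ⟨-, h4, h5⟩ := hf (z + q * T)
        obtain ⟨-, h4', h5'⟩ := hf (z + q' * T)
        rw [hqq'] at h4 h5
        have hTz : (0 : ℤ) < T := by exact_mod_cast hT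
        have h6 : (q : ℤ) * T < (q' + 1) * T := by linarith
        have h7 : (q' : ℤ) * T < (q + 1) * T := by linarith
        have h8 := lt_of_mul_lt_mul_right h6 hTz.le
        have h9 := lt_of_mul_lt_mul_right h7 hTz.le
        omega
    rwa [Finset.card_range] at h2
  have h2 : (X : ℝ) < ((X / T : ℕ) + 1) * T := by
    have h3 : X < (X / T + 1) * T := by
      have := Nat.lt_mul_div_succ X hT
      rw [mul_comm] at this
      exact this
    exact_mod_cast h3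
  have h3 : (T : ℝ) ≤ X := by exact_mod_cast hX
  have h4 : (1 : ℝ) ≤ ((X / T : ℕ) : ℝ) := by
    have : 1 ≤ X / T := (Nat.one_le_div_iff hT).2 hX
    exact_mod_cast this
  have h5 : ((X / T : ℕ) : ℝ) ≤
      (((Finset.Ioc z (z + X)).filter (fun h => h ∈ Boh α ρ)).card : ℝ) := by exact_mod_cast h1
  refine le_trans ?_ h5
  rw [div_mul_eq_mul_div, one_mul, div_le_iff₀ (by positivity)]
  nlinarith

open Classical in
theorem boh_density_pow {J : ℕ} (α : Fin J → ℝ) {ρ : ℝ} (hρ : 0 < ρ) (k : ℕ) :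
    ∃ p : ℝ, 0 < p ∧ ∃ X₁ : ℕ, ∀ X : ℕ, X₁ ≤ X → ∀ z : Fin k → ℤ,
      p * (X : ℝ) ^ k ≤ (((cube z X).filter (fun a => ∀ j, a j ∈ Boh α ρ)).card : ℝ) := by
  obtain ⟨p, hp, X₁, h⟩ := boh_density α hρ
  refine ⟨p ^ k, by positivity, X₁, fun X hX z => ?_⟩
  have h1 : (cube z X).filter (fun a => ∀ j, a j ∈ Boh α ρ) =
      Fintype.piFinset (fun j => (Finset.Ioc (z j) (z j + X)).filter (fun h => h ∈ Boh α ρ)) := by
    ext a
    simp only [cube, Finset.mem_filter, Fintype.mem_piFinset]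
    exact ⟨fun h j => ⟨h.1 j, h.2 j⟩, fun h => ⟨fun j => (h j).1, fun j => (h j).2⟩⟩
  rw [h1, Fintype.card_piFinset, ← mul_pow]
  push_cast
  calc (p * (X : ℝ)) ^ k = ∏ _j : Fin k, (p * (X : ℝ)) := by simp
    _ ≤ _ := Finset.prod_le_prod (fun _ _ => by positivity) (fun j _ => h X hX (z j))

end Pool.Agent.H74.BT
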