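import Pool.Agent.H74.BT.Defs
import Pool.Agent.H92.BH.Wien

/-!
[H74 BT VAN]  Trigonometric polynomials: the averages against a character vanish outside a countable set.

Proof.  `Van φ` says that for all `θ` outside a countable set `(1/Y) ∑_{b < Y} φ b * fourier b θ → 0`.
`φ = 1`: outside `{0}` (geometric sum, `Pool.Agent.H92.BH.wD_tendsto`, with `fourier b θ = (fourier 1 θ)^b`,
`Pool.Agent.H92.BH.wn_pow`).  If `Van φ` with the countable set `Z` then `Van (φ * (1 + Re fourier b θ₀)/2)` with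
`Z ∪ (Z - θ₀) ∪ (Z + θ₀)`: `Re fourier b θ₀ = (fourier b θ₀ + fourier b (-θ₀)) / 2` and
`fourier b θ * fourier b θ₀ = fourier b (θ + θ₀)` (`fourier_apply`, `smul_add`, `AddCircle.toCircle_add`).
Then products over `Λ` and powers: `φ * (1+..)/2 * ... `; induction on the list/finset and on `n`.
-/

namespace Pool.Agent.H74.BT

open Finset Filter Topology MeasureTheory Pool.Agent.H92.BH

/-- `∏_{θ ∈ Λ} (1 + cos 2π b θ)/2` -/
noncomputable def psi (Λ : Finset UnitAddCircle) (b : ℕ) : ℝ :=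
  ∏ θ ∈ Λ, ((1 + (fourier (b : ℤ) θ : ℂ).re) / 2)

/-- the averages against a character vanish outside a countable set -/
def Van (φ : ℕ → ℝ) : Prop :=
  ∃ Z : Set UnitAddCircle, Z.Countable ∧ ∀ θ ∉ Z,
    Tendsto (fun Y : ℕ => (∑ b ∈ Finset.range Y, (φ b : ℂ) * fourier (b : ℤ) θ) / Y) atTop (𝓝 0)

private theorem van_one : Van (fun _ => 1) := by
  refine ⟨{0}, Set.countable_singleton 0, fun θ hθ => ?_⟩
  have h := wD_tendsto (t := θ) (by simpa using hθ)
  rw [tendsto_zero_iff_norm_tendsto_zero]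
  refine h.congr (fun Y => ?_)
  rw [norm_div, Complex.norm_natCast]
  congr 2
  unfold wD
  apply Finset.sum_congr rfl
  intro b _
  rw [wn_pow]
  simp

private theorem van_mul {φ : ℕ → ℝ} (h : Van φ) (θ₀ : UnitAddCircle) :
    Van (fun b => φ b * ((1 + (fourier (b : ℤ) θ₀ : ℂ).re) / 2)) := by
  obtain ⟨Z, hZ, hZ'⟩ := h
  refine ⟨Z ∪ ((fun θ => θ - θ₀) '' Z ∪ (fun θ => θ + θ₀) '' Z),
    hZ.union ((hZ.image _).union (hZ.image _)), fun θ hθ => ?_⟩
  simp only [Set.mem_union, Set.mem_image, not_or, not_exists, not_and] at hθ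
  obtain ⟨h1, h2, h3⟩ := hθ
  have k1 := hZ' θ h1
  have k2 := hZ' (θ + θ₀) (fun hc => h2 _ hc (by simp))
  have k3 := hZ' (θ - θ₀) (fun hc => h3 _ hc (by simp))
  have k4 := ((k1.const_mul (1 / 2)).add (k2.const_mul (1 / 4))).add (k3.const_mul (1 / 4))
  simp only [mul_zero, add_zero] at k4
  refine k4.congr (fun Y => ?_)
  rw [← mul_div_assoc, ← mul_div_assoc, ← mul_div_assoc, ← add_div, ← add_div]
  congr 1
  rw [Finset.mul_sum, Finset.mul_sum, Finset.mul_sum, ← Finset.sum_add_distrib,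
    ← Finset.sum_add_distrib]
  apply Finset.sum_congr rfl
  intro b _
  have e1 : (fourier (b : ℤ) (θ + θ₀) : ℂ) = fourier (b : ℤ) θ * fourier (b : ℤ) θ₀ := by
    rw [fourier_apply, fourier_apply, fourier_apply, smul_add, AddCircle.toCircle_add,
      Circle.coe_mul]
  have e2 : (fourier (b : ℤ) (θ - θ₀) : ℂ) = fourier (b : ℤ) θ *
      (starRingEnd ℂ) (fourier (b : ℤ) θ₀) := by
    rw [← fourier_neg, fourier_apply, fourier_apply, fourier_apply, ← Circle.coe_mul,
      ← AddCircle.toCircle_add]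
    congr 2
    rw [zsmul_sub, neg_zsmul]
    abel
  have e3 : (((fourier (b : ℤ) θ₀ : ℂ).re : ℝ) : ℂ) =
      (fourier (b : ℤ) θ₀ + (starRingEnd ℂ) (fourier (b : ℤ) θ₀)) / 2 := by
    rw [Complex.add_conj]
    push_cast
    ring
  rw [e1, e2]
  push_cast
  rw [e3]
  ring

private theorem van_mul_psi {φ : ℕ → ℝ} (h : Van φ) (Λ : Finset UnitAddCircle) :
    Van (fun b => φ b * psi Λ b) := by
  classical
  induction Λ using Finset.induction_on generalizing φ with
  | empty => simpa [psi] using h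
  | insert θ Λ hθ ih =>
    have h1 := ih (van_mul h θ)
    have h2 : (fun b => φ b * psi (insert θ Λ) b) =
        fun b => φ b * ((1 + (fourier (b : ℤ) θ : ℂ).re) / 2) * psi Λ b := by
      funext b
      unfold psi
      rw [Finset.prod_insert hθ, mul_assoc]
    rw [h2]
    exact h1

theorem van_psi (Λ : Finset UnitAddCircle) (n : ℕ) : Van (fun b => psi Λ b ^ n) := by
  induction n with
  | zero => simpa using van_one
  | succ n ih =>
    simp only [pow_succ]
    exact van_mul_psi ih Λ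

end Pool.Agent.H74.BT
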