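import Pool.Agent.H74.BT.Conc

/-!
[H74 BT WTEX]  Existence of the weights.

Proof.  `n` from `conc` for `Λ` and `ε' = ε ^ 2 / 2` or smaller, `φ b = psi Λ b ^ n`, `Z` the countable set of
`van_psi`.  For `Y ≥ 1` let `T = ∑_{b<Y} φ b ≥ p₁ Y > 0` and `w_Y = ∑_{b < Y} Finsupp.single (b : ℤ) (φ b / T)`; so
`hat w_Y θ = (1/T) ∑_{b<Y} φ b fourier b θ`, `‖hat w_Y θ‖ ≤ 1`.
* `‖1 - hat w_Y θ‖ ≤ (1/T) ∑ φ b ‖1 - fourier b θ‖`, so by Cauchy-Schwarz (or Jensen)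
`‖1 - hat w_Y θ‖^2 ≤ (1/T) ∑ φ b ‖1 - fourier b θ‖^2 = (2/T) ∑ φ b (1 - Re fourier b θ) ≤ 2 ε'`.
* Let `N = {θ | σ {θ} = 0}` (its complement is countable: see `split_finite_atoms` in
`Pool/Agent/H92/BH/Split.lean`, so `N` is measurable).  For `θ ∉ Z`
`‖hat w_Y θ‖ ≤ ‖(1/Y) ∑ φ b fourier b θ‖ / p₁ → 0`, and `Z` is a null set for `σ.restrict N` (countable set
of points of measure `0`: `(σ.restrict N) {θ} = 0` for every `θ`; `Set.Countable.measure_zero` needs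
`NoAtoms`, or use `measure_biUnion_null_iff`).  Dominated convergence (bound `1`):
`∫_N ‖hat w_Y‖^2 dσ → 0`; take `Y` large.
-/

namespace Pool.Agent.H74.BT

open Finset Filter Topology MeasureTheory Pool.Agent.H92.BH

/-- the normalised weight with values `φ b / T` on `b < Y` -/
private noncomputable def ww (φ : ℕ → ℝ) (Y : ℕ) : ℤ →₀ ℝ :=
  ∑ b ∈ Finset.range Y, Finsupp.single (b : ℤ) (φ b / ∑ c ∈ Finset.range Y, φ c)

private lemma ww_sum {M : Type*} [AddCommMonoid M] (φ : ℕ → ℝ) (Y : ℕ) (h : ℤ → ℝ → M)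
    (h0 : ∀ a, h a 0 = 0) (hadd : ∀ a x y, h a (x + y) = h a x + h a y) :
    (ww φ Y).sum h = ∑ b ∈ Finset.range Y, h (b : ℤ) (φ b / ∑ c ∈ Finset.range Y, φ c) := by
  classical
  unfold ww
  rw [← Finsupp.sum_finset_sum_index h0 hadd]
  apply Finset.sum_congr rfl
  intro b _
  rw [Finsupp.sum_single_index (h0 _)]

private lemma ww_nonneg (φ : ℕ → ℝ) (hφ : ∀ b, 0 ≤ φ b) (Y : ℕ) (b : ℤ) : 0 ≤ ww φ Y b := by
  classical
  unfold ww
  rw [Finsupp.finset_sum_apply]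
  apply Finset.sum_nonneg
  intro c _
  rw [Finsupp.single_apply]
  split_ifs
  · exact div_nonneg (hφ c) (Finset.sum_nonneg fun i _ => hφ i)
  · exact le_refl 0

private lemma ww_total (φ : ℕ → ℝ) (Y : ℕ) (hT : ∑ c ∈ Finset.range Y, φ c ≠ 0) :
    ((ww φ Y).sum fun _ x => x) = 1 := by
  rw [ww_sum φ Y (fun _ x => x) (fun _ => rfl) (fun _ _ _ => rfl), ← Finset.sum_div,
    div_self hT]

private lemma ww_hat (φ : ℕ → ℝ) (Y : ℕ) (θ : UnitAddCircle) :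
    hat (ww φ Y) θ = ∑ b ∈ Finset.range Y,
      ((φ b / ∑ c ∈ Finset.range Y, φ c : ℝ) : ℂ) * fourier (b : ℤ) θ := by
  unfold hat
  rw [ww_sum φ Y (fun b x => (x : ℂ) * fourier b θ) (fun _ => by simp)
    (fun _ _ _ => by push_cast; ring)]

private lemma norm_fourier (b : ℤ) (θ : UnitAddCircle) : ‖(fourier b θ : ℂ)‖ = 1 := by
  rw [fourier_apply]
  exact Circle.norm_coe _

private lemma norm_one_sub_sq (z : ℂ) (hz : ‖z‖ = 1) : ‖1 - z‖ ^ 2 = 2 * (1 - z.re) := by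
  have h1 : ‖1 - z‖ ^ 2 = Complex.normSq (1 - z) := (Complex.normSq_eq_norm_sq _).symm
  have h2 : Complex.normSq z = 1 := by rw [Complex.normSq_eq_norm_sq, hz]; norm_num
  rw [h1, Complex.normSq_sub, h2]
  simp
  ring

private lemma ww_norm_le (φ : ℕ → ℝ) (hφ : ∀ b, 0 ≤ φ b) (Y : ℕ)
    (hT : 0 < ∑ c ∈ Finset.range Y, φ c) (θ : UnitAddCircle) : ‖hat (ww φ Y) θ‖ ≤ 1 := by
  rw [ww_hat]
  calc ‖∑ b ∈ Finset.range Y, ((φ b / ∑ c ∈ Finset.range Y, φ c : ℝ) : ℂ) * fourier (b : ℤ) θ‖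
      ≤ ∑ b ∈ Finset.range Y,
        ‖((φ b / ∑ c ∈ Finset.range Y, φ c : ℝ) : ℂ) * fourier (b : ℤ) θ‖ := norm_sum_le _ _
    _ = ∑ b ∈ Finset.range Y, φ b / ∑ c ∈ Finset.range Y, φ c := by
        apply Finset.sum_congr rfl
        intro b _
        rw [norm_mul, norm_fourier, mul_one, Complex.norm_real, Real.norm_eq_abs, abs_of_nonneg]
        exact div_nonneg (hφ b) hT.le
    _ = 1 := by rw [← Finset.sum_div, div_self hT.ne']

private lemma ww_one_sub (φ : ℕ → ℝ) (hφ : ∀ b, 0 ≤ φ b) (Y : ℕ)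
    (hT : 0 < ∑ c ∈ Finset.range Y, φ c) (θ : UnitAddCircle) {ε : ℝ}
    (h : ∑ b ∈ Finset.range Y, φ b * (1 - (fourier (b : ℤ) θ : ℂ).re) ≤
      ε * ∑ b ∈ Finset.range Y, φ b) : ‖1 - hat (ww φ Y) θ‖ ^ 2 ≤ 2 * ε := by
  set T := ∑ c ∈ Finset.range Y, φ c with hTdef
  have h1 : (1 : ℂ) - hat (ww φ Y) θ = ∑ b ∈ Finset.range Y,
      ((φ b / T : ℝ) : ℂ) * (1 - fourier (b : ℤ) θ) := by
    rw [ww_hat]
    simp only [mul_sub, mul_one, Finset.sum_sub_distrib]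
    congr 1
    rw [← Complex.ofReal_sum, ← Finset.sum_div, ← hTdef, div_self hT.ne', Complex.ofReal_one]
  have h2 : ‖(1 : ℂ) - hat (ww φ Y) θ‖ ≤ ∑ b ∈ Finset.range Y,
      (φ b / T) * ‖1 - (fourier (b : ℤ) θ : ℂ)‖ := by
    rw [h1]
    refine (norm_sum_le _ _).trans (le_of_eq ?_)
    apply Finset.sum_congr rfl
    intro b _
    rw [norm_mul, Complex.norm_real, Real.norm_eq_abs, abs_of_nonneg (div_nonneg (hφ b) hT.le)]
  have h3 : (∑ b ∈ Finset.range Y, (φ b / T) * ‖1 - (fourier (b : ℤ) θ : ℂ)‖) ^ 2 ≤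
      (∑ b ∈ Finset.range Y, φ b / T) *
        ∑ b ∈ Finset.range Y, (φ b / T) * ‖1 - (fourier (b : ℤ) θ : ℂ)‖ ^ 2 := by
    apply Finset.sum_sq_le_sum_mul_sum_of_sq_eq_mul
    · intro b _; exact div_nonneg (hφ b) hT.le
    · intro b _; exact mul_nonneg (div_nonneg (hφ b) hT.le) (sq_nonneg _)
    · intro b _; ring
  have h4 : ∑ b ∈ Finset.range Y, φ b / T = 1 := by rw [← Finset.sum_div, div_self hT.ne']
  have h5 : ∑ b ∈ Finset.range Y, (φ b / T) * ‖1 - (fourier (b : ℤ) θ : ℂ)‖ ^ 2 =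
      2 / T * ∑ b ∈ Finset.range Y, φ b * (1 - (fourier (b : ℤ) θ : ℂ).re) := by
    rw [Finset.mul_sum]
    apply Finset.sum_congr rfl
    intro b _
    rw [norm_one_sub_sq _ (norm_fourier _ _)]
    field_simp
  calc ‖1 - hat (ww φ Y) θ‖ ^ 2
      ≤ (∑ b ∈ Finset.range Y, (φ b / T) * ‖1 - (fourier (b : ℤ) θ : ℂ)‖) ^ 2 := by
        gcongr
    _ ≤ 2 / T * ∑ b ∈ Finset.range Y, φ b * (1 - (fourier (b : ℤ) θ : ℂ).re) := by
        rw [← h5]; rw [h4, one_mul] at h3; exact h3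
    _ ≤ 2 / T * (ε * T) := by gcongr
    _ = 2 * ε := by field_simp

private lemma hat_continuous (p : ℤ →₀ ℝ) : Continuous (fun θ : UnitAddCircle => hat p θ) := by
  unfold hat Finsupp.sum
  apply continuous_finset_sum
  intro b _
  exact continuous_const.mul (fourier b).continuous

private lemma tendsto_hat (φ : ℕ → ℝ) (p₁ : ℝ) (hp₁ : 0 < p₁)
    (hT : ∀ Y : ℕ, p₁ * Y ≤ ∑ b ∈ Finset.range Y, φ b) (θ : UnitAddCircle)
    (h : Tendsto (fun Y : ℕ => (∑ b ∈ Finset.range Y, (φ b : ℂ) * fourier (b : ℤ) θ) / Y) atTop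
      (𝓝 0)) : Tendsto (fun Y : ℕ => ‖hat (ww φ Y) θ‖ ^ 2) atTop (𝓝 0) := by
  have h1 : Tendsto (fun Y : ℕ => ‖hat (ww φ Y) θ‖) atTop (𝓝 0) := by
    have h2 : Tendsto (fun Y : ℕ =>
        ‖(∑ b ∈ Finset.range Y, (φ b : ℂ) * fourier (b : ℤ) θ) / Y‖ * (1 / p₁)) atTop (𝓝 0) := by
      have := (h.norm).mul_const (1 / p₁)
      simpa using this
    refine squeeze_zero' (Eventually.of_forall fun Y => norm_nonneg _) ?_ h2
    filter_upwards [eventually_ge_atTop 1] with Y hY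
    have hY0 : (0 : ℝ) < Y := by exact_mod_cast hY
    have hTp : 0 < ∑ b ∈ Finset.range Y, φ b := lt_of_lt_of_le (by positivity) (hT Y)
    rw [ww_hat]
    have h3 : ∑ b ∈ Finset.range Y, ((φ b / ∑ c ∈ Finset.range Y, φ c : ℝ) : ℂ) *
        fourier (b : ℤ) θ = ((∑ b ∈ Finset.range Y, (φ b : ℂ) * fourier (b : ℤ) θ) / Y) *
          ((Y / ∑ c ∈ Finset.range Y, φ c : ℝ) : ℂ) := by
      rw [Finset.sum_div, Finset.sum_mul]
      apply Finset.sum_congr rfl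
      intro b _
      have hYc : (Y : ℂ) ≠ 0 := by exact_mod_cast hY0.ne'
      have hTc : ((∑ c ∈ Finset.range Y, φ c : ℝ) : ℂ) ≠ 0 := by exact_mod_cast hTp.ne'
      rw [Complex.ofReal_div, Complex.ofReal_div, Complex.ofReal_natCast]
      field_simp
    rw [h3, norm_mul]
    gcongr
    rw [Complex.norm_real, Real.norm_eq_abs, abs_of_nonneg (by positivity),
      div_le_div_iff₀ hTp hp₁]
    linarith [hT Y]
  simpa using h1.pow 2

theorem wt_exists (σ : Measure UnitAddCircle) [IsFiniteMeasure σ] (Λ : Finset UnitAddCircle) {ε : ℝ}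
    (hε : 0 < ε) : ∃ w : ℤ →₀ ℝ, (∀ b, 0 ≤ w b) ∧ (w.sum fun _ x => x) = 1 ∧
      (∀ θ ∈ Λ, ‖1 - hat w θ‖ ^ 2 ≤ ε) ∧
      ∫ θ in {θ : UnitAddCircle | σ {θ} = 0}, ‖hat w θ‖ ^ 2 ∂σ ≤ ε := by
  classical
  obtain ⟨n, ⟨p₁, hp₁, hT⟩, hconc⟩ := conc Λ (ε := ε / 2) (by positivity)
  obtain ⟨Z, hZc, hZ⟩ := van_psi Λ n
  set φ : ℕ → ℝ := fun b => psi Λ b ^ n with hφdef
  have hφ : ∀ b, 0 ≤ φ b := fun b => pow_nonneg (psi_nonneg Λ b) n
  have hTp : ∀ Y : ℕ, 1 ≤ Y → 0 < ∑ b ∈ Finset.range Y, φ b := by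
    intro Y hY
    have hY0 : (0 : ℝ) < Y := by exact_mod_cast hY
    exact lt_of_lt_of_le (by positivity) (hT Y)
  set N : Set UnitAddCircle := {θ : UnitAddCircle | σ {θ} = 0} with hN
  have hZ0 : (σ.restrict N) Z = 0 := by
    rw [← Set.biUnion_of_singleton Z, measure_biUnion_null_iff hZc]
    intro z _
    rw [Measure.restrict_apply (measurableSet_singleton z)]
    by_cases hz : z ∈ N
    · exact measure_mono_null Set.inter_subset_left hz
    · have : ({z} : Set UnitAddCircle) ∩ N = ∅ := by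
        ext x
        simp only [Set.mem_inter_iff, Set.mem_singleton_iff, Set.mem_empty_iff_false, iff_false,
          not_and]
        rintro rfl
        exact hz
      rw [this, measure_empty]
  have hlim : Tendsto (fun Y : ℕ => ∫ θ in N, ‖hat (ww φ (Y + 1)) θ‖ ^ 2 ∂σ) atTop (𝓝 0) := by
    have h0 : (0 : ℝ) = ∫ θ in N, (0 : ℝ) ∂σ := by simp
    rw [h0]
    apply tendsto_integral_of_dominated_convergence (fun _ => (1 : ℝ))
    · intro Y
      exact ((hat_continuous _).norm.pow 2).aestronglyMeasurable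
    · exact integrable_const 1
    · intro Y
      refine Eventually.of_forall fun θ => ?_
      rw [Real.norm_eq_abs, abs_of_nonneg (by positivity)]
      exact pow_le_one₀ (norm_nonneg _) (ww_norm_le φ hφ (Y + 1) (hTp _ (by omega)) θ)
    · have hae : ∀ᵐ θ ∂(σ.restrict N), θ ∉ Z := by
        rw [ae_iff]
        simpa using hZ0
      filter_upwards [hae] with θ hθ
      exact (tendsto_hat φ p₁ hp₁ hT θ (hZ θ hθ)).comp (tendsto_add_atTop_nat 1)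
  obtain ⟨Y, hY⟩ := (hlim.eventually (ge_mem_nhds hε)).exists
  refine ⟨ww φ (Y + 1), ww_nonneg φ hφ _, ww_total φ _ (hTp _ (by omega)).ne', ?_, hY⟩
  intro θ hθ
  have := ww_one_sub φ hφ (Y + 1) (hTp _ (by omega)) θ (hconc (Y + 1) θ hθ)
  linarith

end Pool.Agent.H74.BT
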