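import Pool.Agent.H74.BT.WtEx
import Pool.Agent.H92.BH.Split

/-!
[H74 BT WTS]  Weights adapted to a finite measure on the circle.

Proof.  `At = {θ | σ {θ} ≠ 0}` is countable.  `split_finite_atoms` (`Pool/Agent/H92/BH/Split.lean`) with `κ/16`
gives a finite `Λ ⊆ At` with `σ(At \ Λ) ≤ κ/16`.  Index `Λ` by `Fin J`, `Λ = {(α j : UnitAddCircle)}`
(`QuotientAddGroup.mk_surjective`), `ρ > 0` with `(2π ρ)^2 (σ univ) ≤ κ/4`: for `c ∈ Boh α ρ`, `θ ∈ Λ`: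
`‖fourier c θ - 1‖ ≤ 2π ρ` (`fourier c θ = exp(2πi (cα - m))`, see `fourier_re_ge` in `Split.lean`;
e.g. `‖z - 1‖^2 = 2 - 2 Re z` for `‖z‖ = 1`).  Given `ε`, take (again `split_finite_atoms`) `Λ' ⊇ Λ` (union) with
`σ(At \ Λ') ≤ ε''`, and `w` from `wt_exists` for `Λ'` and `ε''' = min (κ/16) ...`; `‖hat w θ‖ ≤ 1` since `w ≥ 0` has sum
`1`, so `‖1 - hat w θ‖ ≤ 2`.
(1) `∫ ‖fourier c - 1‖^2 ‖hat w‖^2 dσ ≤ (2πρ)^2 σ(Λ) + 4 σ(At \ Λ) + 4 ∫_{Atᶜ} ‖hat w‖^2 ≤ κ/4 + κ/4 + κ/4`.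
(2) `τ = ‖1 - hat w‖^2 σ` (`withDensity`), `τ = τ|At + τ|Atᶜ`; `τ(At) ≤ ε''' σ(Λ') + 4 σ(At \ Λ') =: e₁`;
`‖∫ fourier d dτ‖ ≤ e₁ + ‖∫ fourier d dν‖`, `ν = τ|Atᶜ` has no atoms.  `‖x + y‖^2 ≤ 2‖x‖^2 + 2‖y‖^2`; for fixed `c`
the sum over `c' ∈ (A, A+X]` of `‖∫ fourier (c' - c) dν‖^2` is a sum over the window `(A - c, A - c + X]`, at most
`(ε/8) X` by `wiener` for `X ≥ X₁`.  Total `≤ 2 e₁^2 X^2 + (ε/4) X^2 ≤ ε X^2` if `2 e₁^2 ≤ ε/2`.
-/

namespace Pool.Agent.H74.BT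

open Finset Filter Topology MeasureTheory Pool.Agent.H92.BH

private theorem hat_cont (w : ℤ →₀ ℝ) : Continuous (hat w) := by
  unfold hat Finsupp.sum
  fun_prop

private theorem hat_le {w : ℤ →₀ ℝ} (h0 : ∀ b, 0 ≤ w b) (h1 : (w.sum fun _ x => x) = 1)
    (θ : UnitAddCircle) : ‖hat w θ‖ ≤ 1 := by
  refine le_trans ?_ h1.le
  unfold hat Finsupp.sum
  refine (norm_sum_le _ _).trans (le_of_eq ?_)
  apply Finset.sum_congr rfl
  intro b _
  rw [norm_mul, wn_norm, mul_one, Complex.norm_real, Real.norm_eq_abs, abs_of_nonneg (h0 b)]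

private theorem sq_norm_sub_one (c : ℤ) (θ : UnitAddCircle) :
    ‖(fourier c θ : ℂ) - 1‖ ^ 2 = 2 - 2 * (fourier c θ : ℂ).re := by
  have h1 := wn_norm c θ
  have h2 : (fourier c θ : ℂ).re ^ 2 + (fourier c θ : ℂ).im ^ 2 = 1 := by
    have h3 := Complex.sq_norm (fourier c θ : ℂ)
    rw [Complex.normSq_apply, h1] at h3
    nlinarith
  rw [Complex.sq_norm, Complex.normSq_apply]
  simp only [Complex.sub_re, Complex.sub_im, Complex.one_re, Complex.one_im]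
  nlinarith

private theorem sum_window (ν : Measure UnitAddCircle) (c A : ℤ) (X : ℕ) :
    ∑ c' ∈ Finset.Ioc A (A + X), ‖∫ θ, (fourier (c' - c) θ : ℂ) ∂ν‖ ^ 2 =
      ∑ d ∈ Finset.Ioc (A - c) (A - c + X), ‖∫ θ, (fourier d θ : ℂ) ∂ν‖ ^ 2 := by
  rw [wn_sum_Ioc (fun c' => ‖∫ θ, (fourier (c' - c) θ : ℂ) ∂ν‖ ^ 2),
    wn_sum_Ioc (fun d => ‖∫ θ, (fourier d θ : ℂ) ∂ν‖ ^ 2)]
  apply Finset.sum_congr rfl
  intro k _
  have e : A + 1 + (k : ℤ) - c = A - c + 1 + k := by ring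
  rw [e]

theorem weights (σ : Measure UnitAddCircle) [IsFiniteMeasure σ] (h0 : σ {0} ≠ 0) {κ : ℝ}
    (hκ : 0 < κ) : ∃ (J : ℕ) (α : Fin J → ℝ) (ρ : ℝ), 0 < ρ ∧ ∀ ε : ℝ, 0 < ε →
      ∃ w : ℤ →₀ ℝ, (∀ b, 0 ≤ w b) ∧ (w.sum fun _ x => x) = 1 ∧
        (∀ c ∈ Boh α ρ, ∫ θ, ‖(fourier c θ : ℂ) - 1‖ ^ 2 * ‖hat w θ‖ ^ 2 ∂σ ≤ κ) ∧
        ∃ X₁ : ℕ, ∀ X : ℕ, X₁ ≤ X → ∀ A : ℤ,
          ∑ c ∈ Finset.Ioc A (A + X), ∑ c' ∈ Finset.Ioc A (A + X),
            ‖∫ θ, (fourier (c' - c) θ : ℂ) * ((‖1 - hat w θ‖ ^ 2 : ℝ) : ℂ) ∂σ‖ ^ 2 ≤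
              ε * (X : ℝ) ^ 2 := by
  classical
  obtain ⟨Θ, hΘ0, hΘat, hcount, hΘ⟩ := split_finite_atoms σ (δ := κ / 16) (by positivity) h0
  set At : Set UnitAddCircle := {θ : UnitAddCircle | σ {θ} ≠ 0} with hAt
  have hAtm : MeasurableSet At := hcount.measurableSet
  have hAtc : {θ : UnitAddCircle | σ {θ} = 0} = Atᶜ := by
    ext θ; simp [hAt]
  have hmpos : 0 < σ.real Set.univ := by
    rw [measureReal_def, ENNReal.toReal_pos_iff]
    refine ⟨?_, measure_lt_top _ _⟩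
    exact lt_of_lt_of_le (pos_iff_ne_zero.2 h0) (measure_mono (Set.subset_univ _))
  have hlift : ∀ θ : UnitAddCircle, ∃ r : ℝ, ((r : ℝ) : UnitAddCircle) = θ := fun θ =>
    QuotientAddGroup.mk_surjective θ
  choose r hr using hlift
  set ρ : ℝ := Real.sqrt (κ / (160 * σ.real Set.univ)) with hρdef
  have hρ : 0 < ρ := Real.sqrt_pos.2 (by positivity)
  have hρ2 : ρ ^ 2 = κ / (160 * σ.real Set.univ) := Real.sq_sqrt (by positivity)
  have hρ3 : 40 * ρ ^ 2 * σ.real Set.univ = κ / 4 := by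
    rw [hρ2]; field_simp; norm_num
  refine ⟨Θ.card, fun i => r (Θ.equivFin.symm i : UnitAddCircle), ρ, hρ, fun ε hε => ?_⟩
  set e₁ : ℝ := Real.sqrt ε / 2 with he₁
  have he₁pos : 0 < e₁ := by rw [he₁]; have := Real.sqrt_pos.2 hε; positivity
  have he₁sq : 2 * e₁ ^ 2 = ε / 2 := by
    rw [he₁, div_pow, Real.sq_sqrt hε.le]; ring
  obtain ⟨Θ', hΘ'0, hΘ'at, -, hΘ'⟩ := split_finite_atoms σ (δ := e₁ / 8) (by positivity) h0
  set ε₃ : ℝ := min (κ / 16) (e₁ / (2 * σ.real Set.univ)) with hε₃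
  have hε₃pos : 0 < ε₃ := lt_min (by positivity) (by positivity)
  obtain ⟨w, hw0, hw1, hw2, hw3⟩ := wt_exists σ Θ' hε₃pos
  rw [hAtc] at hw3
  have hhat : ∀ θ, ‖hat w θ‖ ≤ 1 := hat_le hw0 hw1
  have hhat2 : ∀ θ, ‖hat w θ‖ ^ 2 ≤ 1 := fun θ => pow_le_one₀ (norm_nonneg _) (hhat θ)
  have hcont := hat_cont w
  have hfle : ∀ (c : ℤ) (θ : UnitAddCircle), ‖(fourier c θ : ℂ) - 1‖ ^ 2 ≤ 4 := by
    intro c θ
    rw [sq_norm_sub_one]
    have h1 := Complex.abs_re_le_norm (fourier c θ : ℂ)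
    rw [wn_norm] at h1
    have := (abs_le.1 h1).1
    linarith
  have hg4 : ∀ θ, ‖1 - hat w θ‖ ^ 2 ≤ 4 := by
    intro θ
    have h1 : ‖1 - hat w θ‖ ≤ 2 := by
      calc ‖1 - hat w θ‖ ≤ ‖(1 : ℂ)‖ + ‖hat w θ‖ := norm_sub_le _ _
        _ ≤ 1 + 1 := by rw [norm_one]; gcongr; exact hhat θ
        _ = 2 := by norm_num
    calc ‖1 - hat w θ‖ ^ 2 ≤ 2 ^ 2 := pow_le_pow_left₀ (norm_nonneg _) h1 2
      _ = 4 := by norm_num
  have hcI : ∀ f : UnitAddCircle → ℝ, Continuous f → Integrable f σ := by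
    intro f hf
    exact hf.integrable_of_hasCompactSupport (HasCompactSupport.of_compactSpace _)
  have hcIC : ∀ f : UnitAddCircle → ℂ, Continuous f → Integrable f σ := by
    intro f hf
    exact hf.integrable_of_hasCompactSupport (HasCompactSupport.of_compactSpace _)
  have hsub : ∀ Λ : Finset UnitAddCircle, (∀ θ ∈ Λ, σ {θ} ≠ 0) → (Λ : Set UnitAddCircle) ⊆ At :=
    fun Λ hΛ θ hθ => hΛ θ hθ
  have hsplit : ∀ (Λ : Finset UnitAddCircle), (∀ θ ∈ Λ, σ {θ} ≠ 0) → ∀ f : UnitAddCircle → ℝ,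
      Continuous f → ∫ θ in At, f θ ∂σ = (∫ θ in (Λ : Set UnitAddCircle), f θ ∂σ) +
        ∫ θ in At \ (Λ : Set UnitAddCircle), f θ ∂σ := by
    intro Λ hΛ f hf
    rw [← setIntegral_union Set.disjoint_sdiff_right (hAtm.diff Λ.measurableSet)
      (hcI f hf).integrableOn (hcI f hf).integrableOn, Set.union_sdiff_cancel (hsub Λ hΛ)]
  have hbd : ∀ (S : Set UnitAddCircle) (f : UnitAddCircle → ℝ) (C : ℝ), MeasurableSet S →
      Continuous f → (∀ θ ∈ S, f θ ≤ C) → ∫ θ in S, f θ ∂σ ≤ C * σ.real S := by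
    intro S f C hS hf hC
    calc ∫ θ in S, f θ ∂σ ≤ ∫ θ in S, C ∂σ :=
          setIntegral_mono_on (hcI f hf).integrableOn (integrable_const C).integrableOn hS hC
      _ = C * σ.real S := by rw [setIntegral_const, smul_eq_mul, mul_comm]
  have hle : ∀ S : Set UnitAddCircle, σ.real S ≤ σ.real Set.univ := fun S =>
    measureReal_mono (Set.subset_univ _) (measure_ne_top _ _)
  refine ⟨w, hw0, hw1, ?_, ?_⟩
  · intro c hc
    set f : UnitAddCircle → ℝ := fun θ => ‖(fourier c θ : ℂ) - 1‖ ^ 2 * ‖hat w θ‖ ^ 2 with hf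
    have hfc : Continuous f := by rw [hf]; fun_prop
    have e1 : ∫ θ, f θ ∂σ = (∫ θ in At, f θ ∂σ) + ∫ θ in Atᶜ, f θ ∂σ :=
      (integral_add_compl hAtm (hcI f hfc)).symm
    have b1 : ∫ θ in (Θ : Set UnitAddCircle), f θ ∂σ ≤ 40 * ρ ^ 2 * σ.real (Θ : Set UnitAddCircle) := by
      refine hbd _ f _ Θ.measurableSet hfc (fun θ hθ => ?_)
      have hθ' : θ ∈ Θ := hθ
      obtain ⟨m, hm'⟩ := hc (Θ.equivFin ⟨θ, hθ'⟩)
      simp only [Equiv.symm_apply_apply] at hm'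
      have h1 := fourier_re_ge c (r θ) ρ m hm'
      rw [hr θ] at h1
      have h2 : ‖(fourier c θ : ℂ) - 1‖ ^ 2 ≤ 40 * ρ ^ 2 := by
        rw [sq_norm_sub_one]; linarith
      calc f θ ≤ 40 * ρ ^ 2 * 1 := by
            rw [hf]
            exact mul_le_mul h2 (hhat2 θ) (by positivity) (by positivity)
        _ = 40 * ρ ^ 2 := mul_one _
    have b2 : ∫ θ in At \ (Θ : Set UnitAddCircle), f θ ∂σ ≤ 4 * σ.real (At \ (Θ : Set UnitAddCircle)) := by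
      refine hbd _ f _ (hAtm.diff Θ.measurableSet) hfc (fun θ _ => ?_)
      calc f θ ≤ 4 * 1 := by
            rw [hf]
            exact mul_le_mul (hfle c θ) (hhat2 θ) (by positivity) (by positivity)
        _ = 4 := mul_one _
    have b3 : ∫ θ in Atᶜ, f θ ∂σ ≤ 4 * ∫ θ in Atᶜ, ‖hat w θ‖ ^ 2 ∂σ := by
      rw [← integral_const_mul]
      refine setIntegral_mono_on (hcI f hfc).integrableOn
        (hcI _ (by fun_prop)).integrableOn hAtm.compl (fun θ _ => ?_)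
      rw [hf]
      exact mul_le_mul_of_nonneg_right (hfle c θ) (by positivity)
    have b4 : 40 * ρ ^ 2 * σ.real (Θ : Set UnitAddCircle) ≤ κ / 4 := by
      rw [← hρ3]
      exact mul_le_mul_of_nonneg_left (hle _) (by positivity)
    have b5 : ε₃ ≤ κ / 16 := min_le_left _ _
    have e2 := hsplit Θ hΘat f hfc
    have e3 : ∫ θ, ‖(fourier c θ : ℂ) - 1‖ ^ 2 * ‖hat w θ‖ ^ 2 ∂σ = ∫ θ, f θ ∂σ := rfl
    rw [e3, e1, e2]
    linarith
  · set g : UnitAddCircle → ℝ := fun θ => ‖1 - hat w θ‖ ^ 2 with hg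
    have hgc : Continuous g := by rw [hg]; fun_prop
    have hg0 : ∀ θ, 0 ≤ g θ := fun θ => by rw [hg]; positivity
    have htau : ∫ θ in At, g θ ∂σ ≤ e₁ := by
      rw [hsplit Θ' hΘ'at g hgc]
      have b1 : ∫ θ in (Θ' : Set UnitAddCircle), g θ ∂σ ≤ ε₃ * σ.real (Θ' : Set UnitAddCircle) :=
        hbd _ g _ Θ'.measurableSet hgc (fun θ hθ => hw2 θ hθ)
      have b2 : ∫ θ in At \ (Θ' : Set UnitAddCircle), g θ ∂σ ≤
          4 * σ.real (At \ (Θ' : Set UnitAddCircle)) :=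
        hbd _ g _ (hAtm.diff Θ'.measurableSet) hgc (fun θ _ => hg4 θ)
      have b3 : ε₃ * σ.real (Θ' : Set UnitAddCircle) ≤ e₁ / 2 := by
        calc ε₃ * σ.real (Θ' : Set UnitAddCircle) ≤
            e₁ / (2 * σ.real Set.univ) * σ.real Set.univ :=
              mul_le_mul (min_le_right _ _) (hle _) measureReal_nonneg (by positivity)
          _ = e₁ / 2 := by field_simp
      linarith
    set ν : Measure UnitAddCircle := (σ.restrict Atᶜ).withDensity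
      (fun θ => ((g θ).toNNReal : ENNReal)) with hν
    have hgm : Measurable (fun θ => (g θ).toNNReal) := hgc.measurable.real_toNNReal
    have hνfin : IsFiniteMeasure ν := by
      refine isFiniteMeasure_withDensity ?_
      have h1 : ∫⁻ θ, ((g θ).toNNReal : ENNReal) ∂(σ.restrict Atᶜ) ≤
          ∫⁻ _, 4 ∂(σ.restrict Atᶜ) := by
        apply lintegral_mono
        intro θ
        show ((g θ).toNNReal : ENNReal) ≤ 4
        have h2 : (g θ).toNNReal ≤ 4 := by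
          rw [Real.toNNReal_le_iff_le_coe]
          exact hg4 θ
        exact_mod_cast h2
      refine ne_top_of_le_ne_top ?_ h1
      rw [lintegral_const]
      exact ENNReal.mul_ne_top (by norm_num) (measure_ne_top _ _)
    have hνat : ∀ θ, ν {θ} = 0 := by
      intro θ
      refine withDensity_absolutelyContinuous _ _ ?_
      rw [Measure.restrict_apply (measurableSet_singleton θ)]
      by_cases hθ : θ ∈ At
      · have : ({θ} : Set UnitAddCircle) ∩ Atᶜ = ∅ := by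
          rw [Set.eq_empty_iff_forall_notMem]
          rintro x ⟨hx1, hx2⟩
          rw [Set.mem_singleton_iff] at hx1
          subst hx1
          exact hx2 hθ
        rw [this, measure_empty]
      · have h1 : σ {θ} = 0 := by
          by_contra h2
          exact hθ h2
        exact le_antisymm ((measure_mono Set.inter_subset_left).trans h1.le) bot_le
    obtain ⟨X₁, hX₁⟩ := wiener ν hνat (ε := ε / 8) (by positivity)
    refine ⟨X₁, fun X hX A => ?_⟩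
    have hterm : ∀ d : ℤ, ‖∫ θ, (fourier d θ : ℂ) * ((g θ : ℝ) : ℂ) ∂σ‖ ^ 2 ≤
        2 * e₁ ^ 2 + 2 * ‖∫ θ, (fourier d θ : ℂ) ∂ν‖ ^ 2 := by
      intro d
      have hint : Integrable (fun θ => (fourier d θ : ℂ) * ((g θ : ℝ) : ℂ)) σ :=
        hcIC _ (by fun_prop)
      have e1 : ∫ θ, (fourier d θ : ℂ) * ((g θ : ℝ) : ℂ) ∂σ =
          (∫ θ in At, (fourier d θ : ℂ) * ((g θ : ℝ) : ℂ) ∂σ) +
            ∫ θ in Atᶜ, (fourier d θ : ℂ) * ((g θ : ℝ) : ℂ) ∂σ :=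
        (integral_add_compl hAtm hint).symm
      have e2 : ∫ θ in Atᶜ, (fourier d θ : ℂ) * ((g θ : ℝ) : ℂ) ∂σ =
          ∫ θ, (fourier d θ : ℂ) ∂ν := by
        rw [hν, integral_withDensity_eq_integral_smul hgm]
        apply integral_congr_ae
        filter_upwards with θ
        rw [NNReal.smul_def, Real.coe_toNNReal _ (hg0 θ), Complex.real_smul, mul_comm]
      have e3 : ‖∫ θ in At, (fourier d θ : ℂ) * ((g θ : ℝ) : ℂ) ∂σ‖ ≤ e₁ := by
        refine (norm_integral_le_integral_norm _).trans (le_trans (le_of_eq ?_) htau)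
        apply integral_congr_ae
        filter_upwards with θ
        rw [norm_mul, wn_norm, one_mul, Complex.norm_real, Real.norm_eq_abs,
          abs_of_nonneg (hg0 θ)]
      rw [e1, e2]
      set x := ∫ θ in At, (fourier d θ : ℂ) * ((g θ : ℝ) : ℂ) ∂σ
      set y := ∫ θ, (fourier d θ : ℂ) ∂ν
      have h1 : ‖x + y‖ ≤ ‖x‖ + ‖y‖ := norm_add_le _ _
      have h2 : ‖x + y‖ ^ 2 ≤ (‖x‖ + ‖y‖) ^ 2 := pow_le_pow_left₀ (norm_nonneg _) h1 2
      have h3 : ‖x‖ ^ 2 ≤ e₁ ^ 2 := pow_le_pow_left₀ (norm_nonneg _) e3 2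
      nlinarith [sq_nonneg (‖x‖ - ‖y‖)]
    have hcard : ∀ B : ℤ, (Finset.Ioc B (B + (X : ℤ))).card = X := by
      intro B; rw [Int.card_Ioc]; simp
    have hX0 : (0 : ℝ) ≤ X := Nat.cast_nonneg X
    calc ∑ c ∈ Finset.Ioc A (A + X), ∑ c' ∈ Finset.Ioc A (A + X),
            ‖∫ θ, (fourier (c' - c) θ : ℂ) * ((‖1 - hat w θ‖ ^ 2 : ℝ) : ℂ) ∂σ‖ ^ 2
        ≤ ∑ c ∈ Finset.Ioc A (A + X), ∑ c' ∈ Finset.Ioc A (A + X),
            (2 * e₁ ^ 2 + 2 * ‖∫ θ, (fourier (c' - c) θ : ℂ) ∂ν‖ ^ 2) :=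
          Finset.sum_le_sum (fun c _ => Finset.sum_le_sum (fun c' _ => hterm (c' - c)))
      _ = ∑ c ∈ Finset.Ioc A (A + X), (X * (2 * e₁ ^ 2) +
            2 * ∑ d ∈ Finset.Ioc (A - c) (A - c + X), ‖∫ θ, (fourier d θ : ℂ) ∂ν‖ ^ 2) := by
          apply Finset.sum_congr rfl
          intro c _
          rw [Finset.sum_add_distrib, Finset.sum_const, hcard, nsmul_eq_mul, ← Finset.mul_sum,
            sum_window]
      _ ≤ ∑ c ∈ Finset.Ioc A (A + X), (X * (ε / 2) + 2 * (ε / 8 * X)) := by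
          apply Finset.sum_le_sum
          intro c _
          rw [he₁sq]
          have := hX₁ X hX (A - c)
          linarith
      _ = X * (X * (ε / 2) + 2 * (ε / 8 * X)) := by
          rw [Finset.sum_const, hcard, nsmul_eq_mul]
      _ ≤ ε * (X : ℝ) ^ 2 := by nlinarith [mul_nonneg hε.le (sq_nonneg (X : ℝ))]

end Pool.Agent.H74.BT
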